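import Pool.Agent.H63.VC10.Brac
import Pool.Agent.H63.VC7.Final7

/-! # The complexified volume conjecture for the diagrams of arborescent links -/

namespace Pool.Agent.H63.VC10

open Pool.Agent.H63.VC7 Complex Filter Topology

theorem Fin10_br_ev (x : ℂ) (k : ℕ) (hk : 1 ≤ k) : ∀ᶠ q in 𝓝[≠] x, br q (k : ℤ) ≠ 0 := by
  have hfin : Set.Finite {q : ℂ | q = 0 ∨ q ^ (2 * k) = 1} := by
    have h1 : Set.Finite {q : ℂ | q ^ (2 * k) = 1} := by
      have : {q : ℂ | q ^ (2 * k) = 1} ⊆ ((Polynomial.nthRoots (2 * k) (1 : ℂ)).toFinset : Set ℂ) := by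
        intro q hq
        simp only [Finset.mem_coe, Multiset.mem_toFinset]
        exact (Polynomial.mem_nthRoots (by omega)).2 hq
      exact (Finset.finite_toSet _).subset this
    exact (Set.finite_singleton 0).union h1
  have h2 : ∀ᶠ q in 𝓝[≠] x, q ∉ {q : ℂ | q = 0 ∨ q ^ (2 * k) = 1} := by
    have h3 : (({q : ℂ | q = 0 ∨ q ^ (2 * k) = 1} \ {x})ᶜ) ∈ 𝓝 x :=
      ((hfin.subset Set.sdiff_subset).isClosed.isOpen_compl).mem_nhds (by simp)
    filter_upwards [mem_nhdsWithin_of_mem_nhds h3, self_mem_nhdsWithin] with q h4 h5 h6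
    exact h4 ⟨h6, h5⟩
  filter_upwards [h2] with q hq h0
  simp only [not_or] at hq
  apply hq.2
  unfold br at h0
  have h7 : q ^ (k : ℤ) = q ^ (-(k : ℤ)) := sub_eq_zero.1 h0
  have h8 : q ^ (k : ℤ) * q ^ (k : ℤ) = 1 := by
    nth_rw 2 [h7]
    rw [← zpow_add₀ hq.1]; simp
  rw [two_mul, pow_add]
  exact_mod_cast h8

theorem Fin10_gen_ev (x : ℂ) (N : ℕ) : ∀ᶠ q in 𝓝[≠] x, Gen q N := by
  have h1 : ∀ᶠ q in 𝓝[≠] x, q ≠ 0 := by
    by_cases hx : x = 0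
    · subst hx; exact self_mem_nhdsWithin
    · exact mem_nhdsWithin_of_mem_nhds (isOpen_ne.mem_nhds hx)
  have h2 : ∀ᶠ q in 𝓝[≠] x, ∀ k ∈ Finset.Icc 1 (2 * N + 2), br q ((k : ℕ) : ℤ) ≠ 0 := by
    rw [Filter.eventually_all_finset]
    intro k hk
    exact Fin10_br_ev x k (Finset.mem_Icc.1 hk).1
  filter_upwards [h1, h2] with q h3 h4
  exact ⟨h3, fun k h5 h6 => h4 k (Finset.mem_Icc.2 ⟨h5, h6⟩)⟩

theorem final10 (m : ℕ) (hm : 1 ≤ m) (par : Fin m → Fin (m + 1))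
    (hpar : ∀ j, par j ≤ j.castSucc) (a : Fin (m + 1) → ℤ)
    (h1 : ∀ i, 20 * ((inc par Fin.succ i).card : ℤ) ≤ |a i|)
    (h2 : ∀ j, 40 * ((inc par Fin.succ (par j)).card : ℤ) ≤ a j.succ ^ 2 ∧
      40 * ((inc par Fin.succ j.succ).card : ℤ) ≤ a (par j) ^ 2) (e : ℤ) :
    ∃ V C : ℝ, Hyp.IsVolume par Fin.succ a V ∧
      (∃ Z : ℂ, Hyp.IsComplexVolume par Fin.succ a Z ∧
        ∃ k : ℤ, Z = I * (V + C * I) + k * (Real.pi : ℂ) ^ 2) ∧
      ∃ J : ℕ → ℂ,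
        (∀ N : ℕ, Tendsto (fun q => coloredJones (diagram par a) e N q)
          (𝓝[≠] exp (Real.pi * I / ((N + 1 : ℕ) : ℂ))) (𝓝 (J N))) ∧
        (∃ L : ℕ → ℂ, (∀ᶠ N : ℕ in atTop, exp (L N) = J N) ∧
          Tendsto (fun N : ℕ => 2 * (Real.pi : ℂ) * L N / (N + 1)) atTop (𝓝 (V + C * I))) ∧
        Tendsto (fun N : ℕ => 2 * (Real.pi : ℂ) * log (J N) / (N + 1)) atTop (𝓝 (V : ℂ)) ∧
        ∃ κ : ℂ, κ ≠ 0 ∧ Tendsto (fun N : ℕ => J N /
          ((((N : ℝ) + 1) ^ (3 / 2 : ℝ) : ℝ) *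
            exp ((N + 1) * (V + C * I) / (2 * Real.pi)))) atTop (𝓝 κ) := by
  obtain ⟨V, C, hV, ⟨Z, hZ, k, hk⟩, J, hJ, -, -, κ, hκ, hasy⟩ := final7 m hm par hpar a h1 h2
  have hpi : (Real.pi : ℂ) ≠ 0 := by exact_mod_cast Real.pi_ne_zero
  -- the factor
  set s : ℤ := e + m + 1 with hs
  set c : ℕ → ℂ := fun N => (-1) ^ (N * (m + 1)) *
    exp (Real.pi * I / ((N + 1 : ℕ) : ℂ)) ^ ((N : ℤ) * (N + 2) * e) with hc
  have hce : ∀ N : ℕ, c N = (-1) ^ (m + 1) * exp (-(Real.pi * I * e / (N + 1))) *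
      exp ((N + 1) * (Real.pi * I * s)) := by
    intro N
    have hN : ((N : ℂ) + 1) ≠ 0 := by exact_mod_cast Nat.succ_ne_zero N
    have e1 : ((-1 : ℂ)) = exp (Real.pi * I) := by rw [exp_pi_mul_I]
    have e2 : ((-1 : ℂ)) ^ (m + 1) = exp (-((m + 1 : ℕ) * (Real.pi * I))) := by
      rw [exp_neg, exp_nat_mul, exp_pi_mul_I, ← inv_pow]; norm_num
    rw [hc]
    simp only
    rw [e2, e1, ← exp_nat_mul, ← exp_int_mul, ← exp_add, ← exp_add, ← exp_add]
    congr 1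
    rw [hs]
    push_cast
    field_simp
    ring
  have hasy' : Tendsto (fun N : ℕ => (c N * J N) / ((((N : ℝ) + (1 : ℕ)) ^ (3 / 2 : ℝ) : ℝ) *
      exp ((N + (1 : ℕ)) * (V + ((C + 2 * Real.pi ^ 2 * s : ℝ) : ℂ) * I) / (2 * Real.pi)))) atTop
      (𝓝 ((-1) ^ (m + 1) * κ)) := by
    have t1 : Tendsto (fun N : ℕ => exp (-(Real.pi * I * e / ((N : ℂ) + 1)))) atTop (𝓝 1) := by
      have t2 : Tendsto (fun N : ℕ => 1 / ((N : ℂ) + 1)) atTop (𝓝 0) :=
        tendsto_one_div_add_atTop_nhds_zero_nat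
      have t3 : Tendsto (fun N : ℕ => -(Real.pi * I * e * (1 / ((N : ℂ) + 1)))) atTop (𝓝 0) := by
        have := (t2.const_mul (Real.pi * I * e)).neg
        simpa using this
      have t4 := (continuous_exp.tendsto (0 : ℂ)).comp t3
      rw [exp_zero] at t4
      refine t4.congr fun N => ?_
      simp only [Function.comp]
      congr 2
      ring
    have t5 := ((t1.const_mul ((-1) ^ (m + 1))).mul hasy)
    rw [mul_one] at t5
    refine t5.congr fun N => ?_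
    rw [hce]
    have e3 : exp (((N : ℂ) + (1 : ℕ)) * (V + ((C + 2 * Real.pi ^ 2 * s : ℝ) : ℂ) * I) /
        (2 * Real.pi)) = exp ((N + 1) * (V + C * I) / (2 * Real.pi)) *
          exp ((N + 1) * (Real.pi * I * s)) := by
      rw [← exp_add]
      congr 1
      push_cast
      field_simp
      ring
    rw [e3]
    have e4 := exp_ne_zero (((N : ℂ) + 1) * (Real.pi * I * s))
    have e5 := exp_ne_zero (((N : ℂ) + 1) * (V + C * I) / (2 * Real.pi))
    have e6 : (((((N : ℝ) + 1) ^ (3 / 2 : ℝ) : ℝ)) : ℂ) ≠ 0 := by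
      have : (0 : ℝ) < ((N : ℝ) + 1) ^ (3 / 2 : ℝ) := by positivity
      exact_mod_cast this.ne'
    rw [Nat.cast_one]
    field_simp
  have hκ' : (-1 : ℂ) ^ (m + 1) * κ ≠ 0 := mul_ne_zero (pow_ne_zero _ (by norm_num)) hκ
  refine ⟨V, C + 2 * Real.pi ^ 2 * s, hV, ⟨Z, hZ, k + 2 * s, ?_⟩, fun N => c N * J N, ?_, ?_, ?_,
    (-1) ^ (m + 1) * κ, hκ', ?_⟩
  · rw [hk]
    push_cast
    linear_combination (2 * (Real.pi : ℂ) ^ 2 * s) * (-Complex.I_sq)
  · intro N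
    have hne : exp (Real.pi * I / ((N + 1 : ℕ) : ℂ)) ≠ 0 := exp_ne_zero _
    have u1 : Tendsto (fun q : ℂ => (-1) ^ (N * (m + 1)) * q ^ ((N : ℤ) * (N + 2) * e) *
        jones par Fin.succ a N q) (𝓝[≠] exp (Real.pi * I / ((N + 1 : ℕ) : ℂ)))
        (𝓝 (c N * J N)) := by
      refine Tendsto.mul (Tendsto.const_mul _ ?_) (hJ N)
      exact (continuousAt_zpow₀ _ _ (Or.inl hne)).tendsto.mono_left nhdsWithin_le_nhds
    refine u1.congr' ?_
    filter_upwards [Fin10_gen_ev _ N] with q hq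
    rw [coloredJones_diagram q N hq par hpar a e]
  · have := Pool.Agent.H63.VC6.log_lift (fun N => c N * J N) 1 le_rfl (3 / 2) _ _ hκ' hasy'
    exact this
  · have hn := hasy'.norm
    have hnorm : Tendsto (fun N : ℕ => ‖c N * J N‖ / (((N + 1 : ℕ) : ℝ) ^ (3 / 2 : ℝ) *
        Real.exp ((N + 1 : ℕ) * (V / (2 * Real.pi))))) atTop (𝓝 ‖(-1) ^ (m + 1) * κ‖) := by
      refine hn.congr fun N => ?_
      rw [norm_div]
      congr 1
      rw [norm_mul, Complex.norm_exp, Complex.norm_real, Real.norm_eq_abs,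
        abs_of_nonneg (by positivity)]
      congr 1
      · push_cast; rfl
      · congr 1
        have e7 : ((N : ℂ) + (1 : ℕ)) * (V + ((C + 2 * Real.pi ^ 2 * s : ℝ) : ℂ) * I) /
            (2 * Real.pi) = (((N : ℝ) + 1) * (V / (2 * Real.pi)) : ℝ) +
              (((N : ℝ) + 1) * ((C + 2 * Real.pi ^ 2 * s) / (2 * Real.pi)) : ℝ) * I := by
          push_cast
          field_simp
        rw [e7, Complex.add_re, Complex.ofReal_re, Complex.re_ofReal_mul, Complex.I_re]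
        push_cast
        ring
    have h := Pool.Agent.H63.VC3.final_log (fun N => c N * J N) 1 le_rfl (3 / 2)
      (V / (2 * Real.pi)) ‖(-1) ^ (m + 1) * κ‖ (norm_pos_iff.2 hκ') hnorm
    have e8 : (((2 * Real.pi * (V / (2 * Real.pi)) : ℝ)) : ℂ) = V := by
      push_cast
      field_simp
    rw [e8] at h
    exact h
  · refine hasy'.congr fun N => ?_
    rw [Nat.cast_one, Nat.cast_one]

end Pool.Agent.H63.VC10
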