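import Pool.Agent.H63.VC10.Brk

/-! # The relation between `CC` and `DD` -/

namespace Pool.Agent.H63.VC10

open Pool.Agent.H63.VC7 Matrix

theorem CDrel_sum (n p r : ℕ) (g : I2 n → ℂ) :
    ∑ y : I2 n, (if p = (y.1 : ℕ) ∧ r = (y.2 : ℕ) then g y else 0) =
      if h : p < n + 1 ∧ r < n + 1 then g (⟨p, h.1⟩, ⟨r, h.2⟩) else 0 := by
  split_ifs with h
  · rw [Finset.sum_eq_single (⟨p, h.1⟩, ⟨r, h.2⟩)]
    · simp
    · rintro ⟨y1, y2⟩ _ hy
      rw [if_neg]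
      rintro ⟨h1, h2⟩
      apply hy
      simp only at h1 h2
      subst h1 h2
      rfl
    · intro h'
      exact absurd (Finset.mem_univ _) h'
  · refine Finset.sum_eq_zero fun y _ => ?_
    rw [if_neg]
    rintro ⟨h1, h2⟩
    apply h
    rw [h1, h2]
    exact ⟨y.1.2, y.2.2⟩

theorem CDrel_z (q : ℂ) (hq : q ≠ 0) (a b c : ℤ) (h : a + b = c) : q ^ a * q ^ b = q ^ c := by
  rw [← zpow_add₀ hq, h]

theorem CDrel_z1 (q : ℂ) (hq : q ≠ 0) (a c : ℤ) (h : a + 1 = c) : q * q ^ a = q ^ c := by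
  rw [← h, zpow_add₀ hq, zpow_one, mul_comm]

theorem CDrel_zi (q : ℂ) (hq : q ≠ 0) (a c : ℤ) (h : a - 1 = c) : q⁻¹ * q ^ a = q ^ c := by
  rw [← h, zpow_sub₀ hq, zpow_one]; ring

/-- the entries of `CC m * DD m` -/
theorem CDrel_CD (q : ℂ) (hq : q ≠ 0) (m a b c d : ℕ) (ha : a < m + 1) (hb : b < m + 1) (hc : c < m + 1)
    (hd : d < m + 1) :
    (CC q m * DD q m) (⟨a, ha⟩, ⟨b, hb⟩) (⟨c, hc⟩, ⟨d, hd⟩) =
      ((if a = c ∧ b = d then -(q ^ ((a : ℤ) - b + m + 1) * (br q ((m : ℤ) + 1 - a) * br q ((b : ℤ) + 1)) +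
          q ^ ((a : ℤ) - b - m - 1) * (br q ((a : ℤ) + 1) * br q ((m : ℤ) + 1 - b))) else 0) +
        (if a = c + 1 ∧ b + 1 = d then br q ((m : ℤ) + 1 - a) * br q ((b : ℤ) + 1) else 0) +
        (if a + 1 = c ∧ b = d + 1 then q ^ (2 * (a : ℤ) - 2 * b + 2) *
          (br q ((a : ℤ) + 1) * br q ((m : ℤ) + 1 - b)) else 0)) / br q ((m : ℤ) + 1) ^ 2 := by
  rw [Matrix.mul_apply]
  simp only [CC, add_mul, ite_mul, zero_mul, Finset.sum_add_distrib]
  rw [CDrel_sum (m + 1) a (b + 1), CDrel_sum (m + 1) (a + 1) b, dif_pos ⟨by omega, by omega⟩,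
    dif_pos ⟨by omega, by omega⟩]
  simp only [DD]
  have e1 : ((a + 1 : ℕ) : ℤ) = (a : ℤ) + 1 := by push_cast; rfl
  have e2 : ((b + 1 : ℕ) : ℤ) = (b : ℤ) + 1 := by push_cast; rfl
  simp only [e1, e2]
  rcases eq_or_ne a c with h1 | h1
  · subst h1
    rcases eq_or_ne b d with h2 | h2
    · subst h2
      rw [if_pos ⟨rfl, rfl⟩, if_neg (by omega), if_neg (by omega), if_pos ⟨rfl, rfl⟩, if_pos ⟨rfl, rfl⟩,
        if_neg (by omega), if_neg (by omega)]
      have z1 := CDrel_z1 q hq ((a : ℤ) + m - b) ((a : ℤ) - b + m + 1) (by ring)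
      have z2 := CDrel_zi q hq (-((m : ℤ) + 1 - (a + 1)) - b) ((a : ℤ) - b - m - 1) (by ring)
      rw [← z1, ← z2]
      ring
    · rw [if_neg (by omega), if_neg (by omega), if_neg (by omega), if_neg (by omega), if_neg (by omega),
        if_neg (by omega), if_neg (by omega)]
      ring
  · rcases eq_or_ne a (c + 1) with h2 | h2
    · rcases eq_or_ne (b + 1) d with h3 | h3
      · rw [if_neg (by omega), if_pos ⟨h2, h3⟩, if_neg (by omega), if_neg (by omega), if_neg (by omega),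
          if_pos ⟨h2, h3⟩, if_neg (by omega)]
        have : q * q⁻¹ = 1 := mul_inv_cancel₀ hq
        linear_combination (br q ((m : ℤ) + 1 - a) * br q ((b : ℤ) + 1) / br q ((m : ℤ) + 1) ^ 2) * this
      · rw [if_neg (by omega), if_neg (by omega), if_neg (by omega), if_neg (by omega), if_neg (by omega),
          if_neg (by omega), if_neg (by omega)]
        ring
    · by_cases h3 : a + 1 = c ∧ b = d + 1
      · rw [if_neg (by omega), if_neg (by omega), if_pos h3, if_neg (by omega), if_neg (by omega),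
          if_neg (by omega), if_pos h3]
        obtain ⟨h3, h4⟩ := h3
        subst h3 h4
        have z1 := CDrel_z q hq (-((m : ℤ) + 1 - (a + 1)) - ((d + 1 : ℕ) : ℤ)) (((a + 1 : ℕ) : ℤ) + m - d)
          (2 * (a : ℤ) - 2 * ((d + 1 : ℕ) : ℤ) + 2) (by push_cast; ring)
        rw [← z1]
        ring
      · rw [if_neg (by omega), if_neg (by omega), if_neg h3, if_neg (by omega), if_neg (by omega),
          if_neg (by omega), if_neg h3]
        ring

theorem CDrel_S1 (q : ℂ) (hq : q ≠ 0) (m a b c d : ℕ) (ha : a < m + 2) (hb : b < m + 2) (hc : c < m + 2)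
    (hd : d < m + 2) :
    ∑ y : I2 m, (if a = (y.1 : ℕ) ∧ b = (y.2 : ℕ) + 1 then
        q ^ (((y.1 : ℕ) : ℤ) + m - (y.2 : ℕ)) * CC q m y (⟨c, hc⟩, ⟨d, hd⟩) else 0) =
      ((if a = c ∧ b = d then -(q ^ ((a : ℤ) - b + m + 2) * (br q ((m : ℤ) + 1 - a) * br q (b : ℤ))) else 0) +
        (if a + 1 = c ∧ b = d + 1 then q ^ (2 * (a : ℤ) - 2 * b + 2) *
          (br q ((a : ℤ) + 1) * br q ((m : ℤ) + 2 - b)) else 0)) / br q ((m : ℤ) + 1) ^ 2 := by
  rcases b with _ | b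
  · rw [Finset.sum_eq_zero fun y _ => if_neg (by omega), if_neg (by omega : ¬ (a + 1 = c ∧ 0 = d + 1))]
    have : br q ((0 : ℕ) : ℤ) = 0 := by rw [Nat.cast_zero]; exact br_zero q
    rw [this]
    simp
  · simp only [Nat.add_right_cancel_iff]
    rw [CDrel_sum m a b]
    by_cases h : a < m + 1
    · rw [dif_pos ⟨h, by omega⟩]
      simp only [CC]
      by_cases h1 : a = c ∧ b + 1 = d
      · rw [if_pos h1, if_neg (by omega), if_pos h1, if_neg (by omega)]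
        obtain ⟨h1, h2⟩ := h1
        subst h1 h2
        have z1 := CDrel_z1 q hq ((a : ℤ) + m - b) ((a : ℤ) - ((b + 1 : ℕ) : ℤ) + m + 2) (by push_cast; ring)
        rw [← z1]
        ring
      · rw [if_neg h1, if_neg h1]
        by_cases h2 : a + 1 = c ∧ b = d
        · rw [if_pos h2, if_pos (by omega)]
          obtain ⟨h1, h2⟩ := h2
          subst h1 h2
          have z1 := CDrel_z q hq ((a : ℤ) + m - b) (-((m : ℤ) + 1 - ((a + 1 : ℕ) : ℤ)) - (b : ℤ))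
            (2 * (a : ℤ) - 2 * ((b + 1 : ℕ) : ℤ) + 2) (by push_cast; ring)
          have z2 : (m : ℤ) + 2 - ((b + 1 : ℕ) : ℤ) = (m : ℤ) + 1 - b := by push_cast; ring
          have z3 : ((a + 1 : ℕ) : ℤ) = (a : ℤ) + 1 := by push_cast; rfl
          rw [← z1, z2, z3]
          ring
        · rw [if_neg h2, if_neg (by omega)]
          ring
    · rw [dif_neg (by omega), if_neg (by omega : ¬ (a + 1 = c ∧ b = d))]
      have : (m : ℤ) + 1 - a = 0 := by omega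
      rw [this, br_zero]
      simp

theorem CDrel_S2 (q : ℂ) (hq : q ≠ 0) (m a b c d : ℕ) (ha : a < m + 2) (hb : b < m + 2) (hc : c < m + 2)
    (hd : d < m + 2) :
    ∑ y : I2 m, (if a = (y.1 : ℕ) + 1 ∧ b = (y.2 : ℕ) then
        -q⁻¹ * CC q m y (⟨c, hc⟩, ⟨d, hd⟩) else 0) =
      ((if a = c ∧ b = d then -(q ^ ((a : ℤ) - b - m - 2) * (br q (a : ℤ) * br q ((m : ℤ) + 1 - b))) else 0) +
        (if a = c + 1 ∧ b + 1 = d then br q ((m : ℤ) + 2 - a) * br q ((b : ℤ) + 1) else 0)) /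
          br q ((m : ℤ) + 1) ^ 2 := by
  rcases a with _ | a
  · rw [Finset.sum_eq_zero fun y _ => if_neg (by omega), if_neg (by omega : ¬ (0 = c + 1 ∧ b + 1 = d))]
    have : br q ((0 : ℕ) : ℤ) = 0 := by rw [Nat.cast_zero]; exact br_zero q
    rw [this]
    simp
  · simp only [Nat.add_right_cancel_iff]
    rw [CDrel_sum m a b]
    by_cases h : b < m + 1
    · rw [dif_pos ⟨by omega, h⟩]
      simp only [CC]
      by_cases h1 : a = c ∧ b + 1 = d
      · rw [if_pos h1, if_neg (by omega), if_neg (by omega), if_pos h1]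
        obtain ⟨h1, h2⟩ := h1
        subst h1 h2
        have z2 : (m : ℤ) + 2 - ((a + 1 : ℕ) : ℤ) = (m : ℤ) + 1 - a := by push_cast; ring
        have z3 : ((b + 1 : ℕ) : ℤ) = (b : ℤ) + 1 := by push_cast; rfl
        rw [z2, z3]
        have : q * q⁻¹ = 1 := mul_inv_cancel₀ hq
        linear_combination (br q ((m : ℤ) + 1 - a) * br q ((b : ℤ) + 1) / br q ((m : ℤ) + 1) ^ 2) * this
      · rw [if_neg h1, if_neg h1]
        by_cases h2 : a + 1 = c ∧ b = d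
        · rw [if_pos h2, if_pos h2]
          obtain ⟨h1, h2⟩ := h2
          subst h1 h2
          have z1 := CDrel_zi q hq (-((m : ℤ) + 1 - ((a + 1 : ℕ) : ℤ)) - (b : ℤ))
            (((a + 1 : ℕ) : ℤ) - b - m - 2) (by push_cast; ring)
          rw [← z1]
          ring
        · rw [if_neg h2, if_neg h2]
          ring
    · rw [dif_neg (by omega), if_neg (by omega : ¬ (a = c ∧ b + 1 = d))]
      have : (m : ℤ) + 1 - b = 0 := by omega
      rw [this, br_zero]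
      simp

/-- the entries of `DD m * CC m` -/
theorem CDrel_DC (q : ℂ) (hq : q ≠ 0) (m a b c d : ℕ) (ha : a < m + 2) (hb : b < m + 2) (hc : c < m + 2)
    (hd : d < m + 2) :
    (DD q m * CC q m) (⟨a, ha⟩, ⟨b, hb⟩) (⟨c, hc⟩, ⟨d, hd⟩) =
      ((if a = c ∧ b = d then -(q ^ ((a : ℤ) - b + m + 2) * (br q ((m : ℤ) + 1 - a) * br q (b : ℤ)) +
          q ^ ((a : ℤ) - b - m - 2) * (br q (a : ℤ) * br q ((m : ℤ) + 1 - b))) else 0) +
        (if a = c + 1 ∧ b + 1 = d then br q ((m : ℤ) + 2 - a) * br q ((b : ℤ) + 1) else 0) +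
        (if a + 1 = c ∧ b = d + 1 then q ^ (2 * (a : ℤ) - 2 * b + 2) *
          (br q ((a : ℤ) + 1) * br q ((m : ℤ) + 2 - b)) else 0)) / br q ((m : ℤ) + 1) ^ 2 := by
  rw [Matrix.mul_apply]
  simp only [DD, add_mul, ite_mul, zero_mul, Finset.sum_add_distrib]
  rw [CDrel_S1 q hq m a b c d ha hb hc hd, CDrel_S2 q hq m a b c d ha hb hc hd]
  by_cases h1 : a = c ∧ b = d
  · rw [if_pos h1, if_pos h1, if_pos h1]
    ring
  · rw [if_neg h1, if_neg h1, if_neg h1]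
    ring

theorem CDrel_diag (q : ℂ) (hq : q ≠ 0) (k m : ℤ) :
    q ^ (k + m) * br q (m - k) + q ^ (k - m) * br q (m + k) = br q (2 * m) := by
  unfold br
  rw [mul_sub, mul_sub, ← zpow_add₀ hq, ← zpow_add₀ hq, ← zpow_add₀ hq, ← zpow_add₀ hq]
  rw [show k + m + (m - k) = 2 * m by ring, show k + m + -(m - k) = 2 * k by ring,
    show k - m + (m + k) = 2 * k by ring, show k - m + -(m + k) = -(2 * m) by ring]
  ring

theorem CD_zero (q : ℂ) (h : Gen q 0) : CC q 0 * DD q 0 = (-(br q 2 / br q 1)) • 1 := by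
  have hq : q ≠ 0 := h.1
  have h1 : br q 1 ≠ 0 := h.ne (by norm_num) (by norm_num)
  ext ⟨⟨a, ha⟩, ⟨b, hb⟩⟩ ⟨⟨c, hc⟩, ⟨d, hd⟩⟩
  rw [CDrel_CD q hq 0 a b c d ha hb hc hd]
  obtain rfl : a = 0 := by omega
  obtain rfl : b = 0 := by omega
  obtain rfl : c = 0 := by omega
  obtain rfl : d = 0 := by omega
  have h2 := CDrel_diag q hq 0 1
  rw [if_pos ⟨rfl, rfl⟩, if_neg (by omega), if_neg (by omega)]
  simp only [Matrix.smul_apply, Matrix.one_apply_eq, smul_eq_mul]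
  norm_num at h2 ⊢
  rw [← h2]
  field_simp
  ring

theorem CD_succ (q : ℂ) (n : ℕ) (h : Gen q (n + 2)) :
    CC q (n + 1) * DD q (n + 1) =
      (br q ((n : ℤ) + 1) ^ 2 / br q ((n : ℤ) + 2) ^ 2) • (DD q n * CC q n) -
        (br q (2 * (n : ℤ) + 4) * br q 1 / br q ((n : ℤ) + 2) ^ 2) • 1 := by
  have hq : q ≠ 0 := h.1
  have h1 : br q ((n : ℤ) + 1) ≠ 0 := h.ne (by omega) (by push_cast; omega)
  have h2 : br q ((n : ℤ) + 2) ≠ 0 := h.ne (by omega) (by push_cast; omega)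
  ext ⟨⟨a, ha⟩, ⟨b, hb⟩⟩ ⟨⟨c, hc⟩, ⟨d, hd⟩⟩
  simp only [Matrix.sub_apply, Matrix.smul_apply, smul_eq_mul]
  rw [CDrel_CD q hq (n + 1) a b c d ha hb hc hd, CDrel_DC q hq n a b c d ha hb hc hd]
  have e1 : ((n + 1 : ℕ) : ℤ) = (n : ℤ) + 1 := by push_cast; rfl
  rw [e1, show (n : ℤ) + 1 + 1 = (n : ℤ) + 2 by ring, show (a : ℤ) - b + (n + 1) + 1 = (a : ℤ) - b + n + 2 by ring,
    show (a : ℤ) - b - (n + 1) - 1 = (a : ℤ) - b - n - 2 by ring]
  rw [Matrix.one_apply]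
  by_cases h3 : a = c ∧ b = d
  · have h5 : ¬ (a = c + 1 ∧ b + 1 = d) := by omega
    have h6 : ¬ (a + 1 = c ∧ b = d + 1) := by omega
    have h7 : ((⟨a, ha⟩, ⟨b, hb⟩) : I2 (n + 1)) = (⟨c, hc⟩, ⟨d, hd⟩) := by
      obtain ⟨h3, h4⟩ := h3
      subst h3 h4
      rfl
    simp only [if_pos h3, if_neg h5, if_neg h6, if_pos h7]
    have z1 := br_id q hq ((n : ℤ) + 2 - a) ((b : ℤ) + 1)
    have z2 := br_id q hq ((a : ℤ) + 1) ((n : ℤ) + 2 - b)
    have z3 := CDrel_diag q hq ((a : ℤ) - b) ((n : ℤ) + 2)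
    rw [show (n : ℤ) + 2 - a - 1 = (n : ℤ) + 1 - a by ring, show (b : ℤ) + 1 - 1 = (b : ℤ) by ring,
      show (n : ℤ) + 2 - a + (b + 1) - 1 = (n : ℤ) + 2 - (a - b) by ring] at z1
    rw [show (n : ℤ) + 2 - b - 1 = (n : ℤ) + 1 - b by ring, show (a : ℤ) + 1 - 1 = (a : ℤ) by ring,
      show (a : ℤ) + 1 + (n + 2 - b) - 1 = (n : ℤ) + 2 + (a - b) by ring] at z2
    rw [show (a : ℤ) - b + (n + 2) = (a : ℤ) - b + n + 2 by ring,
      show (a : ℤ) - b - (n + 2) = (a : ℤ) - b - n - 2 by ring,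
      show 2 * ((n : ℤ) + 2) = 2 * (n : ℤ) + 4 by ring] at z3
    rw [← z3]
    field_simp
    linear_combination (-q ^ ((a : ℤ) - b + n + 2)) * z1 + (-q ^ ((a : ℤ) - b - n - 2)) * z2
  · have h7 : ¬ ((⟨a, ha⟩, ⟨b, hb⟩) : I2 (n + 1)) = (⟨c, hc⟩, ⟨d, hd⟩) := by
      intro h4
      apply h3
      simp only [Prod.mk.injEq, Fin.mk.injEq] at h4
      exact h4
    simp only [if_neg h3, if_neg h7]
    field_simp
    ring

end Pool.Agent.H63.VC10
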