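import Pool.Agent.H63.VC10.DPf

/-! # The rotation of the operators `em` -/

namespace Pool.Agent.H63.VC10

open Pool.Agent.H63.VC7 Matrix

/-- The entries of `em (i + j) j`. -/
noncomputable def emf (q : ℂ) (i j p s k l : ℕ) : ℂ :=
  ∑ x ∈ Finset.range (i + 1), ∑ y ∈ Finset.range (i + 1),
    dpf q i j p s x y * (gg q (i + j) k l / gg q i x y * dpf q i j k l x y)

theorem Rot_em_mul (q : ℂ) (i j : ℕ) : em q (i + j) j = DP q i j * CP q i j := by
  induction j with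
  | zero =>
    rw [em, DP, CP, Matrix.mul_one]
  | succ j ih =>
    have h1 : em q (i + (j + 1)) (j + 1) = DD q (i + j) * em q (i + j) j * CC q (i + j) := rfl
    rw [h1, ih, DP, CP]
    simp only [Matrix.mul_assoc]

theorem em_eq (q : ℂ) (n i j : ℕ) (hn : i + j = n) (h : Gen q n) (x y : I2 n) :
    em q n j x y = emf q i j x.1 x.2 y.1 y.2 := by
  subst hn
  rw [Rot_em_mul, Matrix.mul_apply, Fintype.sum_prod_type, emf]
  have h2 : ∀ (F : ℕ → ℕ → ℂ), ∑ a : Fin (i + 1), ∑ b : Fin (i + 1), F a b =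
      ∑ a ∈ Finset.range (i + 1), ∑ b ∈ Finset.range (i + 1), F a b := by
    intro F
    rw [Finset.sum_range (fun a => ∑ b ∈ Finset.range (i + 1), F a b)]
    apply Finset.sum_congr rfl
    intro a _
    rw [Finset.sum_range]
  rw [← h2]
  apply Finset.sum_congr rfl
  intro a _
  apply Finset.sum_congr rfl
  intro b _
  rw [DP_eq q i j h, CP_eq q i j h]

theorem Rot_sign {a b : ℕ} (h : a % 2 = b % 2) : (-1 : ℂ) ^ a = (-1) ^ b := by
  have h1 : ∀ c : ℕ, (-1 : ℂ) ^ c = if c % 2 = 0 then 1 else -1 := by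
    intro c
    split_ifs with hc
    · exact Even.neg_one_pow (Nat.even_iff.mpr hc)
    · exact Odd.neg_one_pow (Nat.odd_iff.mpr (by omega))
  rw [h1, h1, h]

theorem Rot_sign_inv (a : ℕ) : ((-1 : ℂ) ^ a)⁻¹ = (-1) ^ a := by
  rw [← inv_pow]
  norm_num

theorem Rot_term (q : ℂ) (i j : ℕ) (h : Gen q (i + j)) (x u y v x' u' y' v' : ℕ)
    (h1 : x + u = i) (h2 : y + v = i) (h3 : x' + u' = j) (h4 : y' + v' = j) :
    cupc q (i + j) (x' + u) * (cupc q j y' * q ^ ((((y + v' : ℕ) : ℤ) - y) * ((x : ℤ) + i - y)) *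
      (gg q (i + j) (x + u') (x' + y) / gg q i x y *
        (cupc q j u' * q ^ ((((x' + y : ℕ) : ℤ) - y) * ((x : ℤ) + i - y))))) *
      (cupc q (i + j) (y' + v))⁻¹ =
    cupc q i u * q ^ ((((x + y' : ℕ) : ℤ) - y') * ((x' : ℤ) + j - y')) *
      (gg q (j + i) (x' + y) (y' + v) / gg q j x' y' *
        (cupc q i y * q ^ ((((y' + v : ℕ) : ℤ) - y') * ((x' : ℤ) + j - y')))) := by
  have hq : q ≠ 0 := h.1
  have hb : ∀ k : ℕ, k ≤ 2 * (i + j) + 2 → brf q k ≠ 0 := fun k hk => h.brf_ne hk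
  have e1 : i + j - (x' + u) = x + u' := by omega
  have e2 : j - y' = v' := by omega
  have e3 : i + j - (x + u') = x' + u := by omega
  have e4 : i + j - (x' + y) = u' + v := by omega
  have e5 : i - x = u := by omega
  have e6 : i - y = v := by omega
  have e7 : j - u' = x' := by omega
  have e8 : i + j - (y' + v) = y + v' := by omega
  have e9 : i - u = x := by omega
  have e10 : j + i - (x' + y) = u' + v := by omega
  have e11 : j + i - (y' + v) = y + v' := by omega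
  have e12 : j - x' = u' := by omega
  have e13 : j + i = i + j := by omega
  unfold cupc gg
  rw [e1, e2, e3, e4, e5, e6, e7, e8, e9, e10, e11, e12, e13]
  have b1 := hb (x' + u) (by omega)
  have b2 := hb (x + u') (by omega)
  have b3 := hb (i + j) (by omega)
  have b4 := hb y' (by omega)
  have b5 := hb v' (by omega)
  have b6 := hb j (by omega)
  have b7 := hb (x' + y) (by omega)
  have b8 := hb (u' + v) (by omega)
  have b9 := hb x (by omega)
  have b10 := hb u (by omega)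
  have b11 := hb y (by omega)
  have b12 := hb v (by omega)
  have b13 := hb i (by omega)
  have b14 := hb u' (by omega)
  have b15 := hb x' (by omega)
  have b16 := hb (y' + v) (by omega)
  have b17 := hb (y + v') (by omega)
  -- exponents
  have hqE : ∀ e : ℤ, q ^ e ≠ 0 := fun e => zpow_ne_zero e hq
  have hcv : (v : ℤ) = x + u - y := by omega
  have hcv' : (v' : ℤ) = x' + u' - y' := by omega
  have hci : (i : ℤ) = x + u := by omega
  have hcj : (j : ℤ) = x' + u' := by omega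
  have hqq : q ^ (((x' + u : ℕ) : ℤ) * (((i + j : ℕ) : ℤ) - ((x' + u : ℕ) : ℤ) - 1)) *
      q ^ ((y' : ℤ) * ((j : ℤ) - y' - 1)) *
      q ^ ((((y + v' : ℕ) : ℤ) - y) * ((x : ℤ) + i - y)) *
      q ^ (((x + u' : ℕ) : ℤ) * (((x + u' : ℕ) : ℤ) + 1) + ((x' + y : ℕ) : ℤ) * (((x' + y : ℕ) : ℤ) + 1) -
        ((i + j : ℕ) : ℤ) * (((x + u' : ℕ) : ℤ) + ((x' + y : ℕ) : ℤ))) *
      (q ^ ((x : ℤ) * ((x : ℤ) + 1) + (y : ℤ) * ((y : ℤ) + 1) - (i : ℤ) * ((x : ℤ) + y)))⁻¹ *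
      q ^ ((u' : ℤ) * ((j : ℤ) - u' - 1)) *
      q ^ ((((x' + y : ℕ) : ℤ) - y) * ((x : ℤ) + i - y)) *
      (q ^ (((y' + v : ℕ) : ℤ) * (((i + j : ℕ) : ℤ) - ((y' + v : ℕ) : ℤ) - 1)))⁻¹ =
      q ^ ((u : ℤ) * ((i : ℤ) - u - 1)) *
      q ^ ((((x + y' : ℕ) : ℤ) - y') * ((x' : ℤ) + j - y')) *
      q ^ (((x' + y : ℕ) : ℤ) * (((x' + y : ℕ) : ℤ) + 1) + ((y' + v : ℕ) : ℤ) * (((y' + v : ℕ) : ℤ) + 1) -
        ((i + j : ℕ) : ℤ) * (((x' + y : ℕ) : ℤ) + ((y' + v : ℕ) : ℤ))) *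
      (q ^ ((x' : ℤ) * ((x' : ℤ) + 1) + (y' : ℤ) * ((y' : ℤ) + 1) - (j : ℤ) * ((x' : ℤ) + y')))⁻¹ *
      q ^ ((y : ℤ) * ((i : ℤ) - y - 1)) *
      q ^ ((((y' + v : ℕ) : ℤ) - y') * ((x' : ℤ) + j - y')) := by
    simp only [← _root_.zpow_neg, ← zpow_add₀ hq]
    congr 1
    push_cast
    rw [hcv, hcv', hci, hcj]
    ring
  have hss : (-1 : ℂ) ^ (x' + u) * (-1) ^ y' * (-1) ^ (i + j) * ((-1) ^ i)⁻¹ * (-1) ^ u' *
      ((-1) ^ (y' + v))⁻¹ = (-1) ^ u * (-1) ^ (i + j) * ((-1) ^ j)⁻¹ * (-1) ^ y := by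
    simp only [Rot_sign_inv, ← pow_add]
    apply Rot_sign
    omega
  have hff : brf q (i + j) / (brf q (x' + u) * brf q (x + u')) * (brf q j / (brf q y' * brf q v')) *
      (brf q (x + u') * brf q (x' + u) * (brf q (x' + y) * brf q (u' + v)) / brf q (i + j) ^ 2) *
      (brf q x * brf q u * (brf q y * brf q v) / brf q i ^ 2)⁻¹ *
      (brf q j / (brf q u' * brf q x')) *
      (brf q (i + j) / (brf q (y' + v) * brf q (y + v')))⁻¹ =
      brf q i / (brf q u * brf q x) *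
      (brf q (x' + y) * brf q (u' + v) * (brf q (y' + v) * brf q (y + v')) / brf q (i + j) ^ 2) *
      (brf q x' * brf q u' * (brf q y' * brf q v') / brf q j ^ 2)⁻¹ *
      (brf q i / (brf q y * brf q v)) := by
    field_simp
  have key := congrArg₂ (· * ·) (congrArg₂ (· * ·) hss hqq) hff
  refine Eq.trans ?_ (key.trans ?_)
  · simp only [div_eq_mul_inv, mul_inv, inv_inv]
    ring
  · simp only [div_eq_mul_inv, mul_inv, inv_inv]
    ring

theorem emf_rot (q : ℂ) (n i j : ℕ) (hn : i + j = n) (h : Gen q n) (p s k l : ℕ) (hp : p ≤ n)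
    (hs : s ≤ n) (hk : k ≤ n) (hl : l ≤ n) :
    cupc q n p * emf q i j s (n - l) (n - p) k * (cupc q n l)⁻¹ = emf q j i p s k l := by
  subst hn
  unfold emf
  rw [← Finset.sum_product', ← Finset.sum_product', Finset.mul_sum, Finset.sum_mul]
  -- both sides as sums over filters
  have hL : ∀ z ∈ Finset.range (i + 1) ×ˢ Finset.range (i + 1),
      cupc q (i + j) p * (dpf q i j s (i + j - l) z.1 z.2 *
        (gg q (i + j) (i + j - p) k / gg q i z.1 z.2 * dpf q i j (i + j - p) k z.1 z.2)) *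
        (cupc q (i + j) l)⁻¹ =
      if (s + (i + j - l) = z.1 + z.2 + j ∧ z.1 ≤ s ∧ z.2 ≤ i + j - l) ∧
          (i + j - p + k = z.1 + z.2 + j ∧ z.1 ≤ i + j - p ∧ z.2 ≤ k) then
        cupc q (i + j) p * ((cupc q j (s - z.1) *
            q ^ ((((i + j - l : ℕ) : ℤ) - z.2) * ((z.1 : ℤ) + i - z.2))) *
          (gg q (i + j) (i + j - p) k / gg q i z.1 z.2 *
            (cupc q j (i + j - p - z.1) * q ^ (((k : ℤ) - z.2) * ((z.1 : ℤ) + i - z.2))))) *
          (cupc q (i + j) l)⁻¹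
      else 0 := by
    intro z _
    unfold dpf
    by_cases c1 : s + (i + j - l) = z.1 + z.2 + j ∧ z.1 ≤ s ∧ z.2 ≤ i + j - l
    · by_cases c2 : i + j - p + k = z.1 + z.2 + j ∧ z.1 ≤ i + j - p ∧ z.2 ≤ k
      · rw [if_pos c1, if_pos c2, if_pos ⟨c1, c2⟩]
      · have c3 : ¬ ((s + (i + j - l) = z.1 + z.2 + j ∧ z.1 ≤ s ∧ z.2 ≤ i + j - l) ∧
            (i + j - p + k = z.1 + z.2 + j ∧ z.1 ≤ i + j - p ∧ z.2 ≤ k)) := fun hc => c2 hc.2
        rw [if_neg c2, if_neg c3]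
        ring
    · have c3 : ¬ ((s + (i + j - l) = z.1 + z.2 + j ∧ z.1 ≤ s ∧ z.2 ≤ i + j - l) ∧
          (i + j - p + k = z.1 + z.2 + j ∧ z.1 ≤ i + j - p ∧ z.2 ≤ k)) := fun hc => c1 hc.1
      rw [if_neg c1, if_neg c3]
      ring
  have hR : ∀ z ∈ Finset.range (j + 1) ×ˢ Finset.range (j + 1),
      dpf q j i p s z.1 z.2 * (gg q (j + i) k l / gg q j z.1 z.2 * dpf q j i k l z.1 z.2) =
      if (p + s = z.1 + z.2 + i ∧ z.1 ≤ p ∧ z.2 ≤ s) ∧
          (k + l = z.1 + z.2 + i ∧ z.1 ≤ k ∧ z.2 ≤ l) then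
        (cupc q i (p - z.1) * q ^ (((s : ℤ) - z.2) * ((z.1 : ℤ) + j - z.2))) *
          (gg q (j + i) k l / gg q j z.1 z.2 *
            (cupc q i (k - z.1) * q ^ (((l : ℤ) - z.2) * ((z.1 : ℤ) + j - z.2))))
      else 0 := by
    intro z _
    unfold dpf
    by_cases c1 : p + s = z.1 + z.2 + i ∧ z.1 ≤ p ∧ z.2 ≤ s
    · by_cases c2 : k + l = z.1 + z.2 + i ∧ z.1 ≤ k ∧ z.2 ≤ l
      · rw [if_pos c1, if_pos c2, if_pos ⟨c1, c2⟩]
      · have c3 : ¬ ((p + s = z.1 + z.2 + i ∧ z.1 ≤ p ∧ z.2 ≤ s) ∧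
            (k + l = z.1 + z.2 + i ∧ z.1 ≤ k ∧ z.2 ≤ l)) := fun hc => c2 hc.2
        rw [if_neg c2, if_neg c3]
        ring
    · have c3 : ¬ ((p + s = z.1 + z.2 + i ∧ z.1 ≤ p ∧ z.2 ≤ s) ∧
          (k + l = z.1 + z.2 + i ∧ z.1 ≤ k ∧ z.2 ≤ l)) := fun hc => c1 hc.1
      rw [if_neg c1, if_neg c3]
      ring
  rw [Finset.sum_congr rfl hL, Finset.sum_congr rfl hR, ← Finset.sum_filter, ← Finset.sum_filter]
  refine Finset.sum_nbij' (fun z => (k - z.2, s - z.1)) (fun z => (s - z.2, k - z.1)) ?_ ?_ ?_ ?_ ?_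
  · intro z hz
    simp only [Finset.mem_filter, Finset.mem_product, Finset.mem_range] at hz ⊢
    omega
  · intro z hz
    simp only [Finset.mem_filter, Finset.mem_product, Finset.mem_range] at hz ⊢
    omega
  · intro z hz
    simp only [Finset.mem_filter, Finset.mem_product, Finset.mem_range] at hz
    ext
    · show s - (s - z.1) = z.1
      omega
    · show k - (k - z.2) = z.2
      omega
  · intro z hz
    simp only [Finset.mem_filter, Finset.mem_product, Finset.mem_range] at hz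
    ext
    · show k - (k - z.1) = z.1
      omega
    · show s - (s - z.2) = z.2
      omega
  · intro z hz
    simp only [Finset.mem_filter, Finset.mem_product, Finset.mem_range] at hz
    obtain ⟨x, y⟩ := z
    simp only at hz ⊢
    obtain ⟨⟨hxi, hyi⟩, ⟨c1, c2, c3⟩, c4, c5, c6⟩ := hz
    obtain ⟨u, hu⟩ : ∃ u, x + u = i := ⟨i - x, by omega⟩
    obtain ⟨v, hv⟩ : ∃ v, y + v = i := ⟨i - y, by omega⟩
    obtain ⟨x', hx'⟩ : ∃ x', k = x' + y := ⟨k - y, by omega⟩
    obtain ⟨y', hy'⟩ : ∃ y', s = x + y' := ⟨s - x, by omega⟩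
    obtain ⟨u', hu'⟩ : ∃ u', x' + u' = j := ⟨j - x', by omega⟩
    obtain ⟨v', hv'⟩ : ∃ v', y' + v' = j := ⟨j - y', by omega⟩
    have hT := Rot_term q i j h x u y v x' u' y' v' hu hv hu' hv'
    have f1 : p = x' + u := by omega
    have f2 : l = y' + v := by omega
    have f3 : i + j - l = y + v' := by omega
    have f4 : i + j - p = x + u' := by omega
    have f5 : s - x = y' := by omega
    have f6 : i + j - p - x = u' := by omega
    have f7 : k - y = x' := by omega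
    have f8 : p - (k - y) = u := by omega
    have f9 : k - (k - y) = y := by omega
    rw [f6, f3, f4, f8, f9, f5, f7, hx', hy', f1, f2]
    exact hT

theorem rot_em (q : ℂ) (n j : ℕ) (hj : j ≤ n) (h : Gen q n) :
    rotM q n (em q n j) = em q n (n - j) := by
  ext x y
  rw [em_eq q n j (n - j) (by omega) h x y]
  show cupc q n x.1 * em q n j (x.2, y.2.rev) (x.1.rev, y.1) * (cupc q n y.2)⁻¹ = _
  rw [em_eq q n (n - j) j (by omega) h]
  have hr : ∀ a : Fin (n + 1), ((a.rev : Fin (n + 1)) : ℕ) = n - a := by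
    intro a
    rw [Fin.val_rev]
    omega
  simp only [hr]
  exact emf_rot q n (n - j) j (by omega) h _ _ _ _ (by omega) (by omega) (by omega) (by omega)

end Pool.Agent.H63.VC10
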