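import Pool.Agent.H63.VC10.OhMul
import Pool.Agent.H63.VC10.Rot

/-! # The rotation of the operators `Oh n f` -/

namespace Pool.Agent.H63.VC10

open Pool.Agent.H63.VC7 Matrix

theorem Newton_em_zero (q : ℂ) (n : ℕ) : em q n 0 = 1 := by
  cases n <;> simp [em]

theorem Newton_nt_zero (q : ℂ) (n : ℕ) (f : ℕ → ℂ) : nt q n f 0 = f n := by
  cases n <;> simp [nt]

theorem Newton_EE_succ (q : ℂ) (n j k : ℕ) : EE q (n + 1) (j + 1) k = E1 q (n + 1) k * EE q n j k := by
  unfold EE
  rw [Finset.prod_range_succ', mul_comm]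
  congr 1
  refine Finset.prod_congr rfl fun i _ => ?_
  rw [Nat.add_sub_add_right]

theorem Newton_EE_zero (q : ℂ) (n k : ℕ) : EE q n 0 k = 1 := by
  unfold EE
  simp

theorem Oh_nt (q : ℂ) (n : ℕ) (f : ℕ → ℂ) :
    Oh q n f = ∑ j ∈ Finset.range (n + 1), nt q n f j • em q n j := by
  induction n generalizing f with
  | zero => simp [Oh, nt, em]
  | succ n ih =>
    rw [Finset.sum_range_succ', Newton_em_zero, Newton_nt_zero]
    simp only [Oh, nt, em]
    rw [ih (dv q n f), Matrix.mul_sum, Matrix.sum_mul]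
    refine Eq.trans (add_comm _ _) ?_
    congr 1
    refine Finset.sum_congr rfl fun j _ => ?_
    rw [Matrix.mul_smul, Matrix.smul_mul]

theorem f_nt (q : ℂ) (n : ℕ) (h : Gen q n) (f : ℕ → ℂ) (k : ℕ) (hk : k ≤ n) :
    f k = ∑ j ∈ Finset.range (n + 1), nt q n f j * EE q n j k := by
  induction n generalizing f k with
  | zero =>
    obtain rfl : k = 0 := by omega
    simp [nt, EE]
  | succ n ih =>
    rw [Finset.sum_range_succ', Newton_nt_zero, Newton_EE_zero, mul_one]
    simp only [nt, Newton_EE_succ]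
    have h1 : ∑ j ∈ Finset.range (n + 1), nt q n (dv q n f) j * (E1 q (n + 1) k * EE q n j k) =
        E1 q (n + 1) k * ∑ j ∈ Finset.range (n + 1), nt q n (dv q n f) j * EE q n j k := by
      rw [Finset.mul_sum]
      refine Finset.sum_congr rfl fun j _ => ?_
      ring
    rw [h1]
    rcases Nat.eq_or_lt_of_le hk with rfl | hlt
    · rw [E1_self]
      simp
    · rw [← ih (h.mono (by omega)) (dv q n f) k (by omega)]
      unfold dv
      rw [mul_div_cancel₀ _ (E1_ne h hlt)]
      ring

theorem Oh_EE (q : ℂ) (n j : ℕ) (h : Gen q n) (hj : j ≤ n) : Oh q n (EE q n j) = em q n j := by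
  induction n generalizing j with
  | zero =>
    obtain rfl : j = 0 := by omega
    simp [Oh, em, EE]
  | succ n ih =>
    cases j with
    | zero =>
      rw [Newton_em_zero]
      have h1 : EE q (n + 1) 0 = fun _ => (1 : ℂ) := by
        funext k
        exact Newton_EE_zero q (n + 1) k
      rw [h1, Oh_const, one_smul]
    | succ j =>
      simp only [Oh, em]
      have h1 : EE q (n + 1) (j + 1) (n + 1) = 0 := by
        rw [Newton_EE_succ, E1_self, zero_mul]
      have h2 : Oh q n (dv q n (EE q (n + 1) (j + 1))) = Oh q n (EE q n j) := by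
        refine Oh_congr q n _ _ fun k hk => ?_
        unfold dv
        rw [h1, sub_zero, Newton_EE_succ, mul_div_cancel_left₀ _ (E1_ne h (by omega))]
      rw [h1, zero_smul, zero_add, h2, ih j (h.mono (by omega)) (by omega)]

theorem Newton_rotM_sum (q : ℂ) (n : ℕ) (s : Finset ℕ) (c : ℕ → ℂ)
    (X : ℕ → Matrix (I2 n) (I2 n) ℂ) :
    rotM q n (∑ j ∈ s, c j • X j) = ∑ j ∈ s, c j • rotM q n (X j) := by
  ext x y
  simp only [rotM, Matrix.sum_apply, Matrix.smul_apply, smul_eq_mul, Finset.mul_sum, Finset.sum_mul]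
  refine Finset.sum_congr rfl fun j _ => ?_
  ring

theorem rot_Oh (q : ℂ) (n : ℕ) (h : Gen q n) (f : ℕ → ℂ) :
    rotM q n (Oh q n f) = Oh q n (Ph q n f) := by
  have h1 : Ph q n f = fun k => ∑ j ∈ Finset.range (n + 1), nt q n f j * EE q n (n - j) k := rfl
  rw [Oh_nt, Newton_rotM_sum, h1, Oh_sum]
  refine Finset.sum_congr rfl fun j hj => ?_
  have hj' : j ≤ n := by
    have := Finset.mem_range.1 hj
    omega
  rw [Oh_smul, rot_em q n j hj' h, ← Oh_EE q n (n - j) h (by omega)]

end Pool.Agent.H63.VC10
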