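import Pool.Agent.H63.VC10.OhMul

/-! # Operators are determined by `CC` and the multiplication `V_n ⊗ V_n → V_{2 n}` -/

namespace Pool.Agent.H63.VC10

open Pool.Agent.H63.VC7 Matrix

/-- The multiplication `V_n ⊗ V_n → V_{2 n}`, `e_a ⊗ e_b ↦ q^(a (n - b)) e_{a + b}`. -/
noncomputable def Mm (q : ℂ) (n : ℕ) : Matrix (Fin (2 * n + 1)) (I2 n) ℂ := fun s y =>
  if (s : ℕ) = y.1 + y.2 then q ^ (((y.1 : ℕ) : ℤ) * ((n : ℤ) - (y.2 : ℕ))) else 0

theorem Exact_mul_DD (q : ℂ) (n : ℕ) {α : Type*} (A : Matrix α (I2 (n + 1)) ℂ) (s : α) (y : I2 n) :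
    (A * DD q n) s y =
      A s (y.1.castSucc, y.2.succ) * q ^ (((y.1 : ℕ) : ℤ) + n - (y.2 : ℕ)) +
        A s (y.1.succ, y.2.castSucc) * (-q⁻¹) := by
  rw [Matrix.mul_apply]
  unfold DD
  simp only [mul_add, Finset.sum_add_distrib]
  congr 1
  · rw [Finset.sum_eq_single (y.1.castSucc, y.2.succ)]
    · rw [if_pos]
      exact ⟨rfl, rfl⟩
    · rintro ⟨a, b⟩ _ hne
      rw [if_neg, mul_zero]
      rintro ⟨h1, h2⟩
      apply hne
      ext
      · exact h1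
      · exact h2
    · intro h
      exact absurd (Finset.mem_univ _) h
  · rw [Finset.sum_eq_single (y.1.succ, y.2.castSucc)]
    · rw [if_pos]
      exact ⟨rfl, rfl⟩
    · rintro ⟨a, b⟩ _ hne
      rw [if_neg, mul_zero]
      rintro ⟨h1, h2⟩
      apply hne
      ext
      · exact h1
      · exact h2
    · intro h
      exact absurd (Finset.mem_univ _) h

theorem Mm_DD (q : ℂ) (n : ℕ) (hq : q ≠ 0) : Mm q (n + 1) * DD q n = 0 := by
  ext s y
  rw [Exact_mul_DD]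
  unfold Mm
  rw [Matrix.zero_apply]
  by_cases h : (s : ℕ) = y.1 + y.2 + 1
  · rw [if_pos (by simp only [Fin.val_castSucc, Fin.val_succ]; omega),
      if_pos (by simp only [Fin.val_castSucc, Fin.val_succ]; omega)]
    rw [← zpow_add₀ hq, mul_neg, ← zpow_neg_one q, ← zpow_add₀ hq, ← sub_eq_add_neg, sub_eq_zero]
    congr 1
    simp only [Fin.val_castSucc, Fin.val_succ]
    push_cast
    ring
  · rw [if_neg (by simp only [Fin.val_castSucc, Fin.val_succ]; omega),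
      if_neg (by simp only [Fin.val_castSucc, Fin.val_succ]; omega)]
    ring

theorem Exact_DD_mul (q : ℂ) (n : ℕ) {β : Type*} (Y : Matrix (I2 n) β ℂ) (x : I2 (n + 1)) (c : β) :
    (DD q n * Y) x c =
      (if h : (x.1 : ℕ) < n + 1 ∧ 0 < (x.2 : ℕ) then
        q ^ (((x.1 : ℕ) : ℤ) + n - (((x.2 : ℕ) - 1 : ℕ) : ℤ)) *
          Y (⟨x.1, h.1⟩, ⟨(x.2 : ℕ) - 1, by have := x.2.2; omega⟩) c else 0) +
      (if h : 0 < (x.1 : ℕ) ∧ (x.2 : ℕ) < n + 1 then
        -q⁻¹ * Y (⟨(x.1 : ℕ) - 1, by have := x.1.2; omega⟩, ⟨x.2, h.2⟩) c else 0) := by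
  rw [Matrix.mul_apply]
  unfold DD
  simp only [add_mul, Finset.sum_add_distrib]
  congr 1
  · split_ifs with h
    · rw [Finset.sum_eq_single (⟨x.1, h.1⟩, ⟨(x.2 : ℕ) - 1, by have := x.2.2; omega⟩)]
      · rw [if_pos]
        refine ⟨rfl, ?_⟩
        show (x.2 : ℕ) = (x.2 : ℕ) - 1 + 1
        omega
      · rintro ⟨a, b⟩ _ hne
        rw [if_neg, zero_mul]
        rintro ⟨h1, h2⟩
        apply hne
        ext
        · exact h1.symm
        · show (b : ℕ) = (x.2 : ℕ) - 1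
          have h3 : (x.2 : ℕ) = (b : ℕ) + 1 := h2
          omega
      · intro h
        exact absurd (Finset.mem_univ _) h
    · apply Finset.sum_eq_zero
      rintro ⟨a, b⟩ _
      rw [if_neg, zero_mul]
      rintro ⟨h1, h2⟩
      apply h
      have h3 : (x.2 : ℕ) = (b : ℕ) + 1 := h2
      have h4 : (x.1 : ℕ) = (a : ℕ) := h1
      have := a.2
      omega
  · split_ifs with h
    · rw [Finset.sum_eq_single (⟨(x.1 : ℕ) - 1, by have := x.1.2; omega⟩, ⟨x.2, h.2⟩)]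
      · rw [if_pos]
        refine ⟨?_, rfl⟩
        show (x.1 : ℕ) = (x.1 : ℕ) - 1 + 1
        omega
      · rintro ⟨a, b⟩ _ hne
        rw [if_neg, zero_mul]
        rintro ⟨h1, h2⟩
        apply hne
        ext
        · show (a : ℕ) = (x.1 : ℕ) - 1
          have h3 : (x.1 : ℕ) = (a : ℕ) + 1 := h1
          omega
        · exact h2.symm
      · intro h
        exact absurd (Finset.mem_univ _) h
    · apply Finset.sum_eq_zero
      rintro ⟨a, b⟩ _
      rw [if_neg, zero_mul]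
      rintro ⟨h1, h2⟩
      apply h
      have h3 : (x.1 : ℕ) = (a : ℕ) + 1 := h1
      have h4 : (x.2 : ℕ) = (b : ℕ) := h2
      have := b.2
      omega

/-- extension by zero -/
noncomputable def Exact_w (n : ℕ) {β : Type*} (W : Matrix (I2 (n + 1)) β ℂ) (i j : ℕ) (c : β) : ℂ :=
  if h : i < n + 1 + 1 ∧ j < n + 1 + 1 then W (⟨i, h.1⟩, ⟨j, h.2⟩) c else 0

noncomputable def Exact_U (q : ℂ) (n : ℕ) {β : Type*} (W : Matrix (I2 (n + 1)) β ℂ) (s i : ℕ)
    (c : β) : ℂ :=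
  if i ≤ s then q ^ ((i : ℤ) * ((n : ℤ) + 1 - ((s : ℤ) - i))) * Exact_w n W i (s - i) c else 0

noncomputable def Exact_P (q : ℂ) (n : ℕ) {β : Type*} (W : Matrix (I2 (n + 1)) β ℂ) (s m : ℕ)
    (c : β) : ℂ := ∑ i ∈ Finset.range m, Exact_U q n W s i c

theorem Exact_U_eq (q : ℂ) (n : ℕ) {β : Type*} (W : Matrix (I2 (n + 1)) β ℂ) (x : I2 (n + 1))
    (c : β) : Exact_U q n W ((x.1 : ℕ) + x.2) x.1 c =
      q ^ (((x.1 : ℕ) : ℤ) * ((n : ℤ) + 1 - (x.2 : ℕ))) * W x c := by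
  unfold Exact_U
  rw [if_pos (by omega)]
  have h1 : (x.1 : ℕ) + (x.2 : ℕ) - (x.1 : ℕ) = (x.2 : ℕ) := by omega
  rw [h1]
  unfold Exact_w
  rw [dif_pos ⟨x.1.2, x.2.2⟩]
  congr 2
  push_cast
  ring

theorem Exact_U_big (q : ℂ) (n : ℕ) {β : Type*} (W : Matrix (I2 (n + 1)) β ℂ) (s i : ℕ) (c : β)
    (h : n + 1 < s - i) : Exact_U q n W s i c = 0 := by
  unfold Exact_U
  split_ifs
  · unfold Exact_w
    rw [dif_neg (by omega), mul_zero]
  · rfl

theorem Exact_U_gt (q : ℂ) (n : ℕ) {β : Type*} (W : Matrix (I2 (n + 1)) β ℂ) (s i : ℕ) (c : β)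
    (h : s < i) : Exact_U q n W s i c = 0 := by
  unfold Exact_U
  rw [if_neg (by omega)]

theorem Exact_tot (q : ℂ) (n : ℕ) {β : Type*} (W : Matrix (I2 (n + 1)) β ℂ)
    (hW : Mm q (n + 1) * W = 0) (s : ℕ) (hs : s < 2 * (n + 1) + 1) (c : β) :
    Exact_P q n W s (n + 1 + 1) c = 0 := by
  have h1 : (Mm q (n + 1) * W) ⟨s, hs⟩ c = 0 := by rw [hW]; rfl
  rw [Matrix.mul_apply, Fintype.sum_prod_type] at h1
  unfold Exact_P
  rw [Finset.sum_range, ← h1]
  refine Finset.sum_congr rfl fun i _ => ?_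
  unfold Mm
  by_cases hi : (i : ℕ) ≤ s ∧ s - i < n + 1 + 1
  · rw [Finset.sum_eq_single ⟨s - i, hi.2⟩]
    · have h2 : s = (i : ℕ) + (s - i) := by omega
      rw [if_pos h2]
      have h3 := Exact_U_eq q n W (i, ⟨s - i, hi.2⟩) c
      have h4 : (i : ℕ) + (s - i) = s := by omega
      simp only [h4] at h3
      rw [h3]
      congr 2
    · intro j _ hne
      rw [if_neg, zero_mul]
      intro h
      apply hne
      ext
      show (j : ℕ) = s - i
      have h5 : s = (i : ℕ) + j := h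
      omega
    · intro h
      exact absurd (Finset.mem_univ _) h
  · rw [Finset.sum_eq_zero]
    · by_cases h2 : (i : ℕ) ≤ s
      · exact Exact_U_big q n W s i c (by omega)
      · exact Exact_U_gt q n W s i c (by omega)
    · intro j _
      rw [if_neg, zero_mul]
      intro h
      have h5 : s = (i : ℕ) + j := h
      have := j.2
      omega

/-- Exactness: what is killed by the multiplication comes from `DD`. -/
theorem exact_DD (q : ℂ) (n : ℕ) (hq : q ≠ 0) {β : Type*} (W : Matrix (I2 (n + 1)) β ℂ)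
    (hW : Mm q (n + 1) * W = 0) : ∃ Y : Matrix (I2 n) β ℂ, W = DD q n * Y := by
  refine ⟨Matrix.of fun y c => q ^ (-((((y.1 : ℕ) : ℤ) + 1) * ((n : ℤ) + 1 - (y.2 : ℕ)) - 1)) *
    Exact_P q n W ((y.1 : ℕ) + y.2 + 1) (y.1 + 1) c, ?_⟩
  ext x c
  refine Eq.trans ?_ (Exact_DD_mul q n _ x c).symm
  have hx1 := x.1.2
  have hx2 := x.2.2
  have hqe : q ^ (-(((x.1 : ℕ) : ℤ) * ((n : ℤ) + 1 - (x.2 : ℕ)))) *
      q ^ (((x.1 : ℕ) : ℤ) * ((n : ℤ) + 1 - (x.2 : ℕ))) = 1 := by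
    rw [← zpow_add₀ hq]; simp
  have hP : Exact_P q n W ((x.1 : ℕ) + x.2) (x.1 + 1) c =
      Exact_P q n W ((x.1 : ℕ) + x.2) x.1 c +
        q ^ (((x.1 : ℕ) : ℤ) * ((n : ℤ) + 1 - (x.2 : ℕ))) * W x c := by
    unfold Exact_P
    rw [Finset.sum_range_succ, Exact_U_eq]
  have T1 : (if h : (x.1 : ℕ) < n + 1 ∧ 0 < (x.2 : ℕ) then
        q ^ (((x.1 : ℕ) : ℤ) + n - (((x.2 : ℕ) - 1 : ℕ) : ℤ)) *
          (q ^ (-((((x.1 : ℕ) : ℤ) + 1) * ((n : ℤ) + 1 - (((x.2 : ℕ) - 1 : ℕ) : ℤ)) - 1)) *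
    Exact_P q n W ((x.1 : ℕ) + ((x.2 : ℕ) - 1) + 1) (x.1 + 1) c) else 0) =
      q ^ (-(((x.1 : ℕ) : ℤ) * ((n : ℤ) + 1 - (x.2 : ℕ)))) *
        Exact_P q n W ((x.1 : ℕ) + x.2) (x.1 + 1) c := by
    split_ifs with h
    · have h1 : (x.1 : ℕ) + ((x.2 : ℕ) - 1) + 1 = (x.1 : ℕ) + x.2 := by omega
      have h2 : (((x.2 : ℕ) - 1 : ℕ) : ℤ) = ((x.2 : ℕ) : ℤ) - 1 := by
        have := h.2
        omega
      rw [h1, h2, ← mul_assoc, ← zpow_add₀ hq]
      congr 2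
      ring
    · have h0 : Exact_P q n W ((x.1 : ℕ) + x.2) (x.1 + 1) c = 0 := by
        by_cases h1 : (x.1 : ℕ) < n + 1
        · have h2 : (x.2 : ℕ) = 0 := by omega
          have h3 := Exact_tot q n W hW ((x.1 : ℕ) + x.2) (by omega) c
          rw [← h3]
          unfold Exact_P
          refine Finset.sum_subset (fun i hi => ?_) (fun i _ hi => ?_)
          · rw [Finset.mem_range] at hi ⊢
            omega
          · rw [Finset.mem_range] at hi
            exact Exact_U_gt q n W _ _ c (by omega)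
        · have h2 : (x.1 : ℕ) + 1 = n + 1 + 1 := by omega
          rw [h2]
          exact Exact_tot q n W hW _ (by omega) c
      rw [h0, mul_zero]
  have T2 : (if h : 0 < (x.1 : ℕ) ∧ (x.2 : ℕ) < n + 1 then
        -q⁻¹ * (q ^ (-(((((x.1 : ℕ) - 1 : ℕ) : ℤ) + 1) * ((n : ℤ) + 1 - (x.2 : ℕ)) - 1)) *
    Exact_P q n W (((x.1 : ℕ) - 1) + x.2 + 1) ((x.1 : ℕ) - 1 + 1) c) else 0) =
      -(q ^ (-(((x.1 : ℕ) : ℤ) * ((n : ℤ) + 1 - (x.2 : ℕ)))) *
        Exact_P q n W ((x.1 : ℕ) + x.2) x.1 c) := by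
    split_ifs with h
    · have h1 : (x.1 : ℕ) - 1 + (x.2 : ℕ) + 1 = (x.1 : ℕ) + x.2 := by omega
      have h2 : (((x.1 : ℕ) - 1 : ℕ) : ℤ) = ((x.1 : ℕ) : ℤ) - 1 := by
        have := h.1
        omega
      have h3 : (x.1 : ℕ) - 1 + 1 = (x.1 : ℕ) := by omega
      rw [h1, h2, h3, ← mul_assoc, neg_mul, neg_mul, ← zpow_neg_one q, ← zpow_add₀ hq]
      congr 3
      ring
    · have h0 : Exact_P q n W ((x.1 : ℕ) + x.2) x.1 c = 0 := by
        unfold Exact_P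
        refine Finset.sum_eq_zero fun i hi => ?_
        rw [Finset.mem_range] at hi
        exact Exact_U_big q n W _ _ c (by omega)
      rw [h0, mul_zero, neg_zero]
  refine Eq.trans ?_ (congrArg₂ (· + ·) T1 T2).symm
  show W x c = q ^ (-(((x.1 : ℕ) : ℤ) * ((n : ℤ) + 1 - (x.2 : ℕ)))) *
        Exact_P q n W ((x.1 : ℕ) + x.2) (x.1 + 1) c +
      -(q ^ (-(((x.1 : ℕ) : ℤ) * ((n : ℤ) + 1 - (x.2 : ℕ)))) *
        Exact_P q n W ((x.1 : ℕ) + x.2) x.1 c)
  rw [hP, mul_add, ← mul_assoc, hqe, one_mul]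
  ring

theorem eq_zero_of (q : ℂ) (n : ℕ) (h : Gen q (n + 1)) {β : Type*}
    (W : Matrix (I2 (n + 1)) β ℂ) (hC : CC q n * W = 0) (hM : Mm q (n + 1) * W = 0) : W = 0 := by
  obtain ⟨Y, rfl⟩ := exact_DD q n h.1 W hM
  rw [← Matrix.mul_assoc, CD_Oh q n h] at hC
  have hn : Gen q n := h.mono (Nat.le_succ n)
  have h1 : Oh q n (fun k => (E1 q (n + 1) k)⁻¹) * Oh q n (E1 q (n + 1)) = 1 := by
    rw [Oh_mul q n hn]
    have h2 : Oh q n (fun k => (E1 q (n + 1) k)⁻¹ * E1 q (n + 1) k) = Oh q n (fun _ => 1) :=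
      Oh_congr q n _ _ fun k hk => inv_mul_cancel₀ (E1_ne h (by omega))
    rw [h2, Oh_const, one_smul]
  have h3 : Y = 0 := by
    calc Y = (Oh q n (fun k => (E1 q (n + 1) k)⁻¹) * Oh q n (E1 q (n + 1))) * Y := by
          rw [h1, Matrix.one_mul]
      _ = 0 := by rw [Matrix.mul_assoc, hC, Matrix.mul_zero]
  rw [h3, Matrix.mul_zero]

/-- The characterization of `Oh n f`. -/
theorem Oh_unique (q : ℂ) (n : ℕ) (h : Gen q n) (f : ℕ → ℂ) (Z : (k : ℕ) → Matrix (I2 k) (I2 k) ℂ)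
    (h0 : Z 0 = f 0 • 1) (hC : ∀ k < n, CC q k * Z (k + 1) = Z k * CC q k)
    (hM : ∀ k ≤ n, Mm q k * Z k = f k • Mm q k) : Z n = Oh q n f := by
  induction n with
  | zero => exact h0
  | succ n ih =>
    have hn : Gen q n := h.mono (Nat.le_succ n)
    have hZ : Z n = Oh q n f := ih hn (fun k hk => hC k (by omega)) (fun k hk => hM k (by omega))
    rw [← sub_eq_zero]
    apply eq_zero_of q n h
    · rw [Matrix.mul_sub, hC n (by omega), hZ]
      have h1 : Oh q n f = f (n + 1) • 1 + Oh q n (E1 q (n + 1)) * Oh q n (dv q n f) := by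
        rw [Oh_mul q n hn, ← Oh_const, ← Oh_add]
        refine Oh_congr q n _ _ fun k hk => ?_
        unfold dv
        have h2 : E1 q (n + 1) k ≠ 0 := E1_ne h (by omega)
        field_simp
        ring
      show Oh q n f * CC q n - CC q n * (f (n + 1) • 1 + DD q n * Oh q n (dv q n f) * CC q n) = 0
      rw [Matrix.mul_add, ← Matrix.mul_assoc, ← Matrix.mul_assoc, CD_Oh q n h, h1, Matrix.add_mul,
        Matrix.smul_mul, Matrix.one_mul, Matrix.mul_smul, Matrix.mul_one, sub_self]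
    · rw [Matrix.mul_sub, hM (n + 1) le_rfl]
      show f (n + 1) • Mm q (n + 1) -
        Mm q (n + 1) * (f (n + 1) • 1 + DD q n * Oh q n (dv q n f) * CC q n) = 0
      rw [Matrix.mul_add, ← Matrix.mul_assoc, ← Matrix.mul_assoc, Mm_DD q n h.1, Matrix.zero_mul,
        Matrix.zero_mul, add_zero, Matrix.mul_smul, Matrix.mul_one, sub_self]

/-- If `Z (n + 1) * DD n = DD n * Z n`, then the property `hM` of `Oh_unique` has to be checked only
for the vectors `e_0 ⊗ e_b` and `e_a ⊗ e_{n+1}`. -/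
theorem Mm_of_ext (q : ℂ) (n : ℕ) (hq : q ≠ 0) (c : ℂ) (Z : Matrix (I2 (n + 1)) (I2 (n + 1)) ℂ)
    (Z' : Matrix (I2 n) (I2 n) ℂ) (hD : Z * DD q n = DD q n * Z')
    (h1 : ∀ (s : Fin (2 * (n + 1) + 1)) (y : I2 (n + 1)), (y.1 : ℕ) = 0 ∨ (y.2 : ℕ) = n + 1 →
      (Mm q (n + 1) * Z) s y = c * Mm q (n + 1) s y) :
    Mm q (n + 1) * Z = c • Mm q (n + 1) := by
  rw [← sub_eq_zero]
  have hG : (Mm q (n + 1) * Z - c • Mm q (n + 1)) * DD q n = 0 := by
    rw [Matrix.sub_mul, Matrix.mul_assoc, hD, ← Matrix.mul_assoc, Matrix.smul_mul, Mm_DD q n hq,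
      Matrix.zero_mul, smul_zero, sub_self]
  have hG1 : ∀ (s : Fin (2 * (n + 1) + 1)) (y : I2 (n + 1)), (y.1 : ℕ) = 0 ∨ (y.2 : ℕ) = n + 1 →
      (Mm q (n + 1) * Z - c • Mm q (n + 1)) s y = 0 := by
    intro s y hy
    rw [Matrix.sub_apply, h1 s y hy, Matrix.smul_apply, smul_eq_mul, sub_self]
  generalize Mm q (n + 1) * Z - c • Mm q (n + 1) = G at hG hG1
  have key : ∀ (k : ℕ) (s : Fin (2 * (n + 1) + 1)) (y : I2 (n + 1)), (y.1 : ℕ) = k → G s y = 0 := by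
    intro k
    induction k with
    | zero => intro s y hy; exact hG1 s y (Or.inl hy)
    | succ k ih =>
      intro s y hy
      by_cases hb : (y.2 : ℕ) = n + 1
      · exact hG1 s y (Or.inr hb)
      · have hy1 := y.1.2
        have hy2 := y.2.2
        have h2 := congrFun (congrFun hG s) (⟨k, by omega⟩, ⟨y.2, by omega⟩)
        rw [Exact_mul_DD, Matrix.zero_apply] at h2
        rw [ih s _ (by simp), zero_mul, zero_add] at h2
        have h3 : (((⟨k, by omega⟩ : Fin (n + 1)).succ,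
            (⟨y.2, by omega⟩ : Fin (n + 1)).castSucc) : I2 (n + 1)) = y := by
          ext
          · show k + 1 = (y.1 : ℕ)
            omega
          · rfl
        have h4 := (mul_eq_zero.1 h2).resolve_right (neg_ne_zero.2 (inv_ne_zero hq))
        rw [← h3]
        exact h4
  ext s y
  exact key _ s y rfl

end Pool.Agent.H63.VC10
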