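import Pool.Agent.H63.VC10.Brk

/-! # The positive crossing commutes with the insertion of a maximum -/

namespace Pool.Agent.H63.VC10

open Pool.Agent.H63.VC7 Matrix

private theorem RC_br (q : ℂ) (hq : q ≠ 0) (x y m : ℤ) :
    br q x * br q y - br q (x - m) * br q (y - m) = br q m * br q (x + y - m) := by
  unfold br
  have e : ∀ a b : ℤ, q ^ (a + b) = q ^ a * q ^ b := fun a b => zpow_add₀ hq a b
  rw [show -(x - m) = -x + m by ring, show -(y - m) = -y + m by ring,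
    show -(x + y - m) = -x + (-y + m) by ring, show x + y - m = x + (y + (-m)) by ring,
    show x - m = x + (-m) by ring, show y - m = y + (-m) by ring]
  simp only [e]
  have h3 : q ^ m * q ^ (-m) = 1 := by rw [← zpow_add₀ hq]; simp
  linear_combination (q ^ x * q ^ (-y) + q ^ y * q ^ (-x) - q ^ x * q ^ y - q ^ (-x) * q ^ (-y)) * h3

/-- the two sums which occur in the matrix products -/
private theorem RC_sum1 (n : ℕ) (f : ℕ → ℕ → ℂ) (a b : ℕ) (K : ℂ) (hb : b ≤ n + 1)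
    (hK : ¬ (a ≤ n ∧ 1 ≤ b) → K = 0) :
    ∑ z : I2 n, f z.1 z.2 * (if (z.1 : ℕ) = a ∧ (z.2 : ℕ) + 1 = b then K else 0) = f a (b - 1) * K := by
  by_cases h : a ≤ n ∧ 1 ≤ b
  · obtain ⟨h1, h2⟩ := h
    rw [Finset.sum_eq_single ((⟨a, by omega⟩, ⟨b - 1, by omega⟩) : I2 n)]
    · rw [if_pos ⟨rfl, by simp; omega⟩]
    · rintro ⟨z1, z2⟩ _ hz
      rw [if_neg, mul_zero]
      rintro ⟨h3, h4⟩
      apply hz
      ext
      · exact h3
      · simp only at h4 ⊢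
        omega
    · intro h'
      exact absurd (Finset.mem_univ _) h'
  · rw [hK h, mul_zero]
    refine Finset.sum_eq_zero fun z _ => ?_
    rw [ite_self, mul_zero]

private theorem RC_sum2 (n : ℕ) (f : ℕ → ℕ → ℂ) (a b : ℕ) (K : ℂ) (ha : a ≤ n + 1)
    (hK : ¬ (1 ≤ a ∧ b ≤ n) → K = 0) :
    ∑ z : I2 n, f z.1 z.2 * (if (z.1 : ℕ) + 1 = a ∧ (z.2 : ℕ) = b then K else 0) = f (a - 1) b * K := by
  by_cases h : 1 ≤ a ∧ b ≤ n
  · obtain ⟨h1, h2⟩ := h
    rw [Finset.sum_eq_single ((⟨a - 1, by omega⟩, ⟨b, by omega⟩) : I2 n)]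
    · rw [if_pos ⟨by simp; omega, rfl⟩]
    · rintro ⟨z1, z2⟩ _ hz
      rw [if_neg, mul_zero]
      rintro ⟨h3, h4⟩
      apply hz
      ext
      · simp only at h3 ⊢
        omega
      · exact h4
    · intro h'
      exact absurd (Finset.mem_univ _) h'
  · rw [hK h, mul_zero]
    refine Finset.sum_eq_zero fun z _ => ?_
    rw [ite_self, mul_zero]

private theorem RC_right (q : ℂ) (n : ℕ) (x : I2 n) (y : I2 (n + 1)) :
    (RM q n * CC q n) x y =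
      Rc q n y.1 (y.2 - 1) x.1 x.2 *
        (-q * (br q ((n : ℤ) + 1 - (y.1 : ℕ)) * br q ((y.2 : ℕ) : ℤ) / br q ((n : ℤ) + 1) ^ 2)) +
      Rc q n (y.1 - 1) y.2 x.1 x.2 * (q ^ (-((n : ℤ) + 1 - (y.1 : ℕ)) - (y.2 : ℕ)) *
        (br q ((y.1 : ℕ) : ℤ) * br q ((n : ℤ) + 1 - (y.2 : ℕ)) / br q ((n : ℤ) + 1) ^ 2)) := by
  have h1 := y.1.2
  have h2 := y.2.2
  rw [Matrix.mul_apply]
  have h3 : ∀ z : I2 n, RM q n x z * CC q n z y =
      (fun i j => Rc q n i j x.1 x.2) z.1 z.2 * (if (z.1 : ℕ) = y.1 ∧ (z.2 : ℕ) + 1 = y.2 then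
        -q * (br q ((n : ℤ) + 1 - (y.1 : ℕ)) * br q ((y.2 : ℕ) : ℤ) / br q ((n : ℤ) + 1) ^ 2) else 0) +
      (fun i j => Rc q n i j x.1 x.2) z.1 z.2 * (if (z.1 : ℕ) + 1 = y.1 ∧ (z.2 : ℕ) = y.2 then
        q ^ (-((n : ℤ) + 1 - (y.1 : ℕ)) - (y.2 : ℕ)) *
          (br q ((y.1 : ℕ) : ℤ) * br q ((n : ℤ) + 1 - (y.2 : ℕ)) / br q ((n : ℤ) + 1) ^ 2) else 0) := by
    intro z
    rw [← mul_add]
    rfl
  have e1 := RC_sum1 n (fun i j => Rc q n i j x.1 x.2) y.1 y.2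
    (-q * (br q ((n : ℤ) + 1 - (y.1 : ℕ)) * br q ((y.2 : ℕ) : ℤ) / br q ((n : ℤ) + 1) ^ 2)) (by omega) (by
      intro h
      rcases not_and_or.1 h with h | h
      · have h4 : (y.1 : ℕ) = n + 1 := by omega
        rw [h4]
        push_cast
        rw [sub_self, br_zero]
        ring
      · have h4 : (y.2 : ℕ) = 0 := by omega
        rw [h4, Nat.cast_zero, br_zero]
        ring)
  have e2 := RC_sum2 n (fun i j => Rc q n i j x.1 x.2) y.1 y.2
    (q ^ (-((n : ℤ) + 1 - (y.1 : ℕ)) - (y.2 : ℕ)) *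
      (br q ((y.1 : ℕ) : ℤ) * br q ((n : ℤ) + 1 - (y.2 : ℕ)) / br q ((n : ℤ) + 1) ^ 2)) (by omega) (by
      intro h
      rcases not_and_or.1 h with h | h
      · have h4 : (y.1 : ℕ) = 0 := by omega
        rw [h4, Nat.cast_zero, br_zero]
        ring
      · have h4 : (y.2 : ℕ) = n + 1 := by omega
        rw [h4]
        push_cast
        rw [sub_self, br_zero]
        ring)
  rw [Finset.sum_congr rfl fun z _ => h3 z, Finset.sum_add_distrib, e1, e2]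

private theorem RC_left (q : ℂ) (n : ℕ) (x : I2 n) (y : I2 (n + 1)) :
    (CC q n * RM q (n + 1)) x y =
      (-q * (br q ((n : ℤ) + 1 - (x.1 : ℕ)) * br q (((x.2 : ℕ) : ℤ) + 1) / br q ((n : ℤ) + 1) ^ 2)) *
        Rc q (n + 1) y.1 y.2 x.1 (x.2 + 1) +
      (q ^ (-((n : ℤ) - (x.1 : ℕ)) - (x.2 : ℕ)) *
        (br q (((x.1 : ℕ) : ℤ) + 1) * br q ((n : ℤ) + 1 - (x.2 : ℕ)) / br q ((n : ℤ) + 1) ^ 2)) *
        Rc q (n + 1) y.1 y.2 (x.1 + 1) x.2 := by
  have h1 := x.1.2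
  have h2 := x.2.2
  rw [Matrix.mul_apply]
  unfold CC RM
  simp only [add_mul, Finset.sum_add_distrib]
  congr 1
  · rw [Finset.sum_eq_single ((⟨x.1, by omega⟩, ⟨x.2 + 1, by omega⟩) : I2 (n + 1))]
    · rw [if_pos ⟨rfl, rfl⟩]
      push_cast
      rfl
    · rintro ⟨z1, z2⟩ _ hz
      rw [if_neg, zero_mul]
      rintro ⟨h3, h4⟩
      apply hz
      ext
      · exact h3.symm
      · exact h4.symm
    · intro h'
      exact absurd (Finset.mem_univ _) h'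
  · rw [Finset.sum_eq_single ((⟨x.1 + 1, by omega⟩, ⟨x.2, by omega⟩) : I2 (n + 1))]
    · rw [if_pos ⟨rfl, rfl⟩]
      push_cast
      rw [show -((n : ℤ) + 1 - ((x.1 : ℕ) + 1)) = -((n : ℤ) - (x.1 : ℕ)) by ring]
    · rintro ⟨z1, z2⟩ _ hz
      rw [if_neg, zero_mul]
      rintro ⟨h3, h4⟩
      apply hz
      ext
      · exact h3.symm
      · exact h4.symm
    · intro h'
      exact absurd (Finset.mem_univ _) h'

/-- the case of equal indices -/
private theorem RC_zero (q : ℂ) (n c d : ℕ) (h : Gen q (n + 1)) (hc : c ≤ n) (hd : d ≤ n) :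
    (-q * (br q ((n : ℤ) + 1 - (c : ℕ)) * br q ((d : ℤ) + 1) / br q ((n : ℤ) + 1) ^ 2)) *
        Rc q (n + 1) d (c + 1) c (d + 1) +
      (q ^ (-((n : ℤ) - (c : ℕ)) - (d : ℕ)) *
        (br q ((c : ℤ) + 1) * br q ((n : ℤ) + 1 - (d : ℕ)) / br q ((n : ℤ) + 1) ^ 2)) *
        Rc q (n + 1) d (c + 1) (c + 1) d =
      Rc q n d (c + 1 - 1) c d *
        (-q * (br q ((n : ℤ) + 1 - (d : ℕ)) * br q ((c + 1 : ℕ) : ℤ) / br q ((n : ℤ) + 1) ^ 2)) +
      Rc q n (d - 1) (c + 1) c d * (q ^ (-((n : ℤ) + 1 - (d : ℕ)) - (c + 1 : ℕ)) *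
        (br q ((d : ℕ) : ℤ) * br q ((n : ℤ) + 1 - (c + 1 : ℕ)) / br q ((n : ℤ) + 1) ^ 2)) := by
  obtain ⟨e, rfl⟩ : ∃ e, n = c + e := ⟨n - c, by omega⟩
  have hq := h.1
  have hd0 : brf q d ≠ 0 := h.brf_ne (by omega)
  have he0 : brf q e ≠ 0 := h.brf_ne (by omega)
  have h00 : brf q 0 = 1 := brf_zero q
  have T1 : Rc q (c + e + 1) d (c + 1) c (d + 1) = 0 := by
    unfold Rc
    rw [if_neg]
    omega
  have T4 : Rc q (c + e) (d - 1) (c + 1) c d = 0 := by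
    unfold Rc
    rw [if_neg]
    omega
  have T2 : Rc q (c + e + 1) d (c + 1) (c + 1) d = -((-1) ^ (c + e) *
      q ^ (((c + e : ℕ) : ℤ) * ((c + e : ℕ) + 1) - (c + e : ℕ) * (c + d) + 2 * c * d) * q ^ ((e : ℤ) + d + 1)) := by
    unfold Rc
    rw [if_pos (by omega), show c + 1 - (c + 1) = 0 by omega, show c + e + 1 - (c + 1) = e by omega, h00]
    rw [pow_succ, mul_assoc ((-1 : ℂ) ^ (c + e)) (q ^ _) (q ^ _), ← zpow_add₀ hq]
    have h1 : brf q d * brf q e / (brf q d * 1 * brf q e) = 1 := by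
      field_simp
    rw [h1]
    have h2 : (((c + e + 1 : ℕ) : ℤ) * ((c + e + 1 : ℕ) + 1) - (c + e + 1 : ℕ) * ((c + 1 : ℕ) + (d : ℕ)) +
        2 * (c + 1 : ℕ) * (d : ℕ) + ((0 : ℕ).choose 2 : ℕ)) =
        ((c + e : ℕ) : ℤ) * ((c + e : ℕ) + 1) - (c + e : ℕ) * (c + d) + 2 * c * d + ((e : ℤ) + d + 1) := by
      simp only [Nat.choose_zero_succ]
      push_cast
      ring
    rw [h2]
    ring
  have T3 : Rc q (c + e) d (c + 1 - 1) c d = (-1) ^ (c + e) *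
      q ^ (((c + e : ℕ) : ℤ) * ((c + e : ℕ) + 1) - (c + e : ℕ) * (c + d) + 2 * c * d) := by
    unfold Rc
    rw [if_pos (by omega), show c - (c + 1 - 1) = 0 by omega, show c + e - (c + 1 - 1) = e by omega,
      show c + e - c = e by omega, h00]
    have h1 : brf q d * brf q e / (brf q d * 1 * brf q e) = 1 := by
      field_simp
    rw [h1, mul_one]
    congr 2
    simp
  rw [T1, T2, T3, T4]
  have h5 : q ^ (-(((c + e : ℕ) : ℤ) - (c : ℕ)) - (d : ℕ)) * q ^ ((e : ℤ) + d + 1) = q := by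
    rw [← zpow_add₀ hq]
    have : -(((c + e : ℕ) : ℤ) - (c : ℕ)) - (d : ℕ) + ((e : ℤ) + d + 1) = 1 := by
      push_cast
      ring
    rw [this, zpow_one]
  push_cast at h5 ⊢
  linear_combination (-(br q ((c : ℤ) + 1) * br q ((c : ℤ) + e + 1 - d) / br q ((c : ℤ) + e + 1) ^ 2) *
    ((-1) ^ (c + e) * q ^ (((c : ℤ) + e) * (c + e + 1) - (c + e) * (c + d) + 2 * c * d))) * h5

/-- the general case -/
private theorem RC_succ (q : ℂ) (b m e d : ℕ) (h : Gen q (b + m + e + 1)) (hd : d + m ≤ b + m + e) :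
    (-q * (br q (((b + m + e : ℕ) : ℤ) + 1 - (b + m : ℕ)) * br q ((d : ℤ) + 1) /
          br q (((b + m + e : ℕ) : ℤ) + 1) ^ 2)) *
        Rc q (b + m + e + 1) (d + m + 1) b (b + m) (d + 1) +
      (q ^ (-(((b + m + e : ℕ) : ℤ) - (b + m : ℕ)) - (d : ℕ)) *
        (br q (((b + m : ℕ) : ℤ) + 1) * br q (((b + m + e : ℕ) : ℤ) + 1 - (d : ℕ)) /
          br q (((b + m + e : ℕ) : ℤ) + 1) ^ 2)) *
        Rc q (b + m + e + 1) (d + m + 1) b (b + m + 1) d =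
      Rc q (b + m + e) (d + m + 1) (b - 1) (b + m) d *
        (-q * (br q (((b + m + e : ℕ) : ℤ) + 1 - (d + m + 1 : ℕ)) * br q ((b : ℕ) : ℤ) /
          br q (((b + m + e : ℕ) : ℤ) + 1) ^ 2)) +
      Rc q (b + m + e) (d + m + 1 - 1) b (b + m) d *
        (q ^ (-(((b + m + e : ℕ) : ℤ) + 1 - (d + m + 1 : ℕ)) - (b : ℕ)) *
        (br q ((d + m + 1 : ℕ) : ℤ) * br q (((b + m + e : ℕ) : ℤ) + 1 - (b : ℕ)) /
          br q (((b + m + e : ℕ) : ℤ) + 1) ^ 2)) := by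
  have hq := h.1
  have hd0 : brf q d ≠ 0 := h.brf_ne (by omega)
  have he0 : brf q e ≠ 0 := h.brf_ne (by omega)
  have hm0 : brf q m ≠ 0 := h.brf_ne (by omega)
  have hm1 : br q ((m : ℤ) + 1) ≠ 0 := h.ne (by omega) (by push_cast; omega)
  have hd1 : br q ((d : ℤ) + 1) ≠ 0 := h.ne (by omega) (by push_cast; omega)
  have he1 : br q ((e : ℤ) + 1) ≠ 0 := h.ne (by omega) (by push_cast; omega)
  -- the common factor
  set Z : ℤ := ((b + m + e : ℕ) : ℤ) * ((b + m + e : ℕ) + 1) - (b + m + e : ℕ) * ((b + m : ℕ) + d) +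
    2 * (b + m : ℕ) * d with hZ
  set κ : ℤ := ((m.choose 2 : ℕ) : ℤ) with hκ
  have hκ1 : (((m + 1).choose 2 : ℕ) : ℤ) = κ + m := by
    rw [Nat.choose_succ_succ' m 1, Nat.choose_one_right]
    push_cast
    ring
  set G : ℂ := (-1) ^ (b + m + e) * q ^ Z *
    (brf q (d + m + 1) * brf q (m + e + 1) / (brf q d * brf q (m + 1) * brf q e)) with hG
  have T1 : br q ((e : ℤ) + 1) * br q ((d : ℤ) + 1) * Rc q (b + m + e + 1) (d + m + 1) b (b + m) (d + 1) =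
      -(G * (q ^ ((b : ℤ) + m + e + 1 + (b + m) - d + κ) * br q ((m : ℤ) + 1))) := by
    unfold Rc
    rw [if_pos (by omega), show b + m - b = m by omega, show b + m + e + 1 - b = m + e + 1 by omega,
      show b + m + e + 1 - (b + m) = e + 1 by omega, hG, pow_succ]
    have h1 : ((b + m + e + 1 : ℕ) : ℤ) * ((b + m + e + 1 : ℕ) + 1) -
        (b + m + e + 1 : ℕ) * ((b + m : ℕ) + (d + 1 : ℕ)) + 2 * (b + m : ℕ) * (d + 1 : ℕ) +
        ((m.choose 2 : ℕ) : ℤ) = Z + ((b : ℤ) + m + e + 1 + (b + m) - d + κ) := by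
      rw [hZ, hκ]
      push_cast
      ring
    rw [h1, zpow_add₀ hq, brf_succ q d, brf_succ q e, brf_succ q m]
    field_simp
  have T2 : Rc q (b + m + e + 1) (d + m + 1) b (b + m + 1) d =
      -(G * q ^ ((b : ℤ) + m + e + 1 - (b + m) + d + (κ + m))) := by
    unfold Rc
    rw [if_pos (by omega), show b + m + 1 - b = m + 1 by omega, show b + m + e + 1 - b = m + e + 1 by omega,
      show b + m + e + 1 - (b + m + 1) = e by omega, hG, pow_succ, hκ1]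
    have h1 : ((b + m + e + 1 : ℕ) : ℤ) * ((b + m + e + 1 : ℕ) + 1) -
        (b + m + e + 1 : ℕ) * ((b + m + 1 : ℕ) + (d : ℕ)) + 2 * (b + m + 1 : ℕ) * (d : ℕ) +
        (κ + m) = Z + ((b : ℤ) + m + e + 1 - (b + m) + d + (κ + m)) := by
      rw [hZ]
      push_cast
      ring
    rw [h1, zpow_add₀ hq]
    ring
  have T3 : Rc q (b + m + e) (d + m + 1) (b - 1) (b + m) d * br q ((b : ℕ) : ℤ) =
      G * q ^ (κ + m) * br q ((b : ℕ) : ℤ) := by
    rcases Nat.eq_zero_or_pos b with hb | hb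
    · rw [hb, Nat.cast_zero, br_zero, mul_zero, mul_zero]
    · congr 1
      unfold Rc
      rw [if_pos (by omega), show b + m - (b - 1) = m + 1 by omega,
        show b + m + e - (b - 1) = m + e + 1 by omega, show b + m + e - (b + m) = e by omega, hG, hκ1]
      have h1 : ((b + m + e : ℕ) : ℤ) * ((b + m + e : ℕ) + 1) -
          (b + m + e : ℕ) * ((b + m : ℕ) + (d : ℕ)) + 2 * (b + m : ℕ) * (d : ℕ) +
          (κ + m) = Z + (κ + m) := by
        rw [hZ]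
      rw [h1, zpow_add₀ hq]
      ring
  have T4 : Rc q (b + m + e) (d + m + 1 - 1) b (b + m) d * (br q ((d + m + 1 : ℕ) : ℤ) *
      br q ((m : ℤ) + e + 1)) = G * (q ^ κ * br q ((m : ℤ) + 1)) := by
    unfold Rc
    rw [if_pos (by omega), show b + m - b = m by omega, show b + m + e - b = m + e by omega,
      show b + m + e - (b + m) = e by omega, show d + m + 1 - 1 = d + m by omega, hG]
    have h1 : ((b + m + e : ℕ) : ℤ) * ((b + m + e : ℕ) + 1) -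
          (b + m + e : ℕ) * ((b + m : ℕ) + (d : ℕ)) + 2 * (b + m : ℕ) * (d : ℕ) +
          ((m.choose 2 : ℕ) : ℤ) = Z + κ := by
      rw [hZ, hκ]
    rw [h1, zpow_add₀ hq, brf_succ q (d + m), brf_succ q (m + e), brf_succ q m]
    push_cast
    field_simp
  have e1 : ((b + m + e : ℕ) : ℤ) + 1 - (b + m : ℕ) = (e : ℤ) + 1 := by push_cast; ring
  have e2 : ((b + m + e : ℕ) : ℤ) + 1 - (b : ℕ) = (m : ℤ) + e + 1 := by push_cast; ring
  rw [e1, e2]
  have hid : br q (((b + m + e : ℕ) : ℤ) + 1 - (d : ℕ)) * br q (((b + m : ℕ) : ℤ) + 1) -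
      br q (((b + m + e : ℕ) : ℤ) + 1 - (d + m + 1 : ℕ)) * br q ((b : ℕ) : ℤ) =
      br q ((m : ℤ) + 1) * (q ^ (2 * (b : ℤ) + m + e + 1 - d) - q ^ (-(2 * (b : ℤ) + m + e + 1 - d))) := by
    have h1 := RC_br q hq (((b + m + e : ℕ) : ℤ) + 1 - (d : ℕ)) (((b + m : ℕ) : ℤ) + 1) ((m : ℤ) + 1)
    have h2 : ((b + m + e : ℕ) : ℤ) + 1 - (d : ℕ) - ((m : ℤ) + 1) =
        ((b + m + e : ℕ) : ℤ) + 1 - (d + m + 1 : ℕ) := by push_cast; ring
    have h3 : ((b + m : ℕ) : ℤ) + 1 - ((m : ℤ) + 1) = ((b : ℕ) : ℤ) := by push_cast; ring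
    have h4 : ((b + m + e : ℕ) : ℤ) + 1 - (d : ℕ) + (((b + m : ℕ) : ℤ) + 1) - ((m : ℤ) + 1) =
        2 * (b : ℤ) + m + e + 1 - d := by push_cast; ring
    rw [h2, h3, h4] at h1
    exact h1
  have w1 : q * q ^ ((b : ℤ) + m + e + 1 + (b + m) - d + κ) =
      q ^ (κ + m + 1) * q ^ (2 * (b : ℤ) + m + e + 1 - d) := by
    rw [← zpow_one_add₀ hq, ← zpow_add₀ hq]
    congr 1
    ring
  have w2 : q ^ (-(((b + m + e : ℕ) : ℤ) - (b + m : ℕ)) - (d : ℕ)) *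
      q ^ ((b : ℤ) + m + e + 1 - (b + m) + d + (κ + m)) = q ^ (κ + m + 1) := by
    rw [← zpow_add₀ hq]
    congr 1
    push_cast
    ring
  have w3 : q * q ^ (κ + m) = q ^ (κ + m + 1) := by
    rw [← zpow_one_add₀ hq]
    congr 1
    ring
  have w4 : q ^ (-(((b + m + e : ℕ) : ℤ) + 1 - (d + m + 1 : ℕ)) - (b : ℕ)) * q ^ κ =
      q ^ (κ + m + 1) * q ^ (-(2 * (b : ℤ) + m + e + 1 - d)) := by
    rw [← zpow_add₀ hq, ← zpow_add₀ hq]
    congr 1
    push_cast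
    ring
  generalize br q (((b + m + e : ℕ) : ℤ) + 1) ^ 2 = D
  generalize br q (((b + m + e : ℕ) : ℤ) + 1 - (d + m + 1 : ℕ)) = B3 at *
  generalize br q (((b + m + e : ℕ) : ℤ) + 1 - (d : ℕ)) = B2 at *
  generalize br q (((b + m : ℕ) : ℤ) + 1) = B1 at *
  generalize q ^ (-(((b + m + e : ℕ) : ℤ) - (b + m : ℕ)) - (d : ℕ)) = Q1 at *
  generalize q ^ (-(((b + m + e : ℕ) : ℤ) + 1 - (d + m + 1 : ℕ)) - (b : ℕ)) = Q2 at *
  generalize q ^ (κ + m + 1) = R at *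
  generalize q ^ (2 * (b : ℤ) + m + e + 1 - d) = S1 at *
  generalize q ^ (-(2 * (b : ℤ) + m + e + 1 - d)) = S2 at *
  linear_combination (-q / D) * T1 + (Q1 * (B1 * B2 / D)) * T2 + (q * B3 / D) * T3 - (Q2 / D) * T4 +
    (G / D * br q ((m : ℤ) + 1)) * w1 - (G / D * (B1 * B2)) * w2 +
    (G / D * (B3 * br q ((b : ℕ) : ℤ))) * w3 - (G / D * br q ((m : ℤ) + 1)) * w4 - (G / D * R) * hid

theorem CC_RM (q : ℂ) (n : ℕ) (h : Gen q (n + 1)) :
    CC q n * RM q (n + 1) = RM q n * CC q n := by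
  ext x y
  rw [RC_left, RC_right]
  have hx1 := x.1.2
  have hx2 := x.2.2
  have hy1 := y.1.2
  have hy2 := y.2.2
  generalize (x.1 : ℕ) = c at *
  generalize (x.2 : ℕ) = d at *
  generalize (y.1 : ℕ) = a at *
  generalize (y.2 : ℕ) = b at *
  by_cases hab : a + b = c + d + 1 ∧ b ≤ c + 1
  · obtain ⟨h1, h2⟩ := hab
    rcases Nat.lt_or_ge c b with h3 | h3
    · obtain rfl : b = c + 1 := by omega
      obtain rfl : a = d := by omega
      exact RC_zero q n c a h (by omega) (by omega)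
    · obtain ⟨m, rfl⟩ : ∃ m, c = b + m := ⟨c - b, by omega⟩
      obtain ⟨e, rfl⟩ : ∃ e, n = b + m + e := ⟨n - (b + m), by omega⟩
      obtain rfl : a = d + m + 1 := by omega
      exact RC_succ q b m e d h (by omega)
  · have z1 : Rc q (n + 1) a b c (d + 1) = 0 := by
      unfold Rc
      rw [if_neg]
      omega
    have z2 : Rc q (n + 1) a b (c + 1) d = 0 := by
      unfold Rc
      rw [if_neg]
      omega
    rw [z1, z2, mul_zero, mul_zero, add_zero]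
    have z3 : Rc q n a (b - 1) c d * br q ((b : ℕ) : ℤ) = 0 := by
      rcases Nat.eq_zero_or_pos b with hb | hb
      · rw [hb, Nat.cast_zero, br_zero, mul_zero]
      · unfold Rc
        rw [if_neg, zero_mul]
        omega
    have z4 : Rc q n (a - 1) b c d * br q ((a : ℕ) : ℤ) = 0 := by
      rcases Nat.eq_zero_or_pos a with ha | ha
      · rw [ha, Nat.cast_zero, br_zero, mul_zero]
      · unfold Rc
        rw [if_neg, zero_mul]
        omega
    linear_combination (q * (br q ((n : ℤ) + 1 - (a : ℕ)) / br q ((n : ℤ) + 1) ^ 2)) * z3 -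
      (q ^ (-((n : ℤ) + 1 - (a : ℕ)) - (b : ℕ)) * (br q ((n : ℤ) + 1 - (b : ℕ)) /
        br q ((n : ℤ) + 1) ^ 2)) * z4

end Pool.Agent.H63.VC10
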