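import Pool.Agent.H63.VC10.Brk

/-! # The negative crossing commutes with the insertion of a maximum -/

namespace Pool.Agent.H63.VC10

open Pool.Agent.H63.VC7 Matrix

/-- Collapse of a double sum with an indicator function. -/
theorem RiC_sum (n p r : ℕ) (F : ℕ → ℕ → ℂ) :
    ∑ w : I2 n, (if (w.1 : ℕ) = p ∧ (w.2 : ℕ) = r then F w.1 w.2 else 0)
      = if p ≤ n ∧ r ≤ n then F p r else 0 := by
  by_cases h : p ≤ n ∧ r ≤ n
  · rw [if_pos h, Finset.sum_eq_single (⟨⟨p, by omega⟩, ⟨r, by omega⟩⟩ : I2 n)]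
    · simp
    · intro w _ hw
      rw [if_neg]
      rintro ⟨h1, h2⟩
      apply hw
      exact Prod.ext (Fin.ext h1) (Fin.ext h2)
    · intro h'
      exact absurd (Finset.mem_univ _) h'
  · rw [if_neg h]
    refine Finset.sum_eq_zero fun w _ => ?_
    rw [if_neg]
    rintro ⟨h1, h2⟩
    exact h ⟨by omega, by omega⟩

/-- The power identity. -/
theorem RiC_pow (q : ℂ) (hq : q ≠ 0) (n c d m : ℤ) :
    q ^ (1 - m) * (br q (n + 1 - c) * br q (d + 1)) + q ^ (-(n - c) - d) * br q (m + 1)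
      = q ^ (n + 2 - (c + d) + 2 * (d - m)) * br q (m + 1) +
        q ^ (1 - m) * (br q (d - m) * br q (n - c - m)) := by
  unfold br
  simp only [mul_sub, sub_mul, ← zpow_add₀ hq]
  ring_nf

theorem RiC_case0 (q : ℂ) (n c d : ℕ) (h : Gen q (n + 1)) (hc : c ≤ n) (hd : d ≤ n) :
    -q * (br q ((n : ℤ) + 1 - c) * br q ((d : ℤ) + 1) / br q ((n : ℤ) + 1) ^ 2) *
        Ric q (n + 1) (d + 1) c c (d + 1)
      = Ric q n d c c d * (q ^ (-((n : ℤ) + 1 - (d + 1)) - c) *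
          (br q ((d : ℤ) + 1) * br q ((n : ℤ) + 1 - c) / br q ((n : ℤ) + 1) ^ 2)) := by
  have hq := h.1
  have h1 : brf q c ≠ 0 := h.brf_ne (by omega)
  have h2 : brf q (n - d) ≠ 0 := h.brf_ne (by omega)
  unfold Ric
  rw [if_pos ⟨by omega, le_refl _, by omega⟩, if_pos ⟨by omega, le_refl _, by omega⟩]
  rw [show n + 1 - (d + 1) = n - d by omega]
  simp only [Nat.sub_self, brf_zero, pow_zero, mul_one, Nat.choose_zero_succ, Nat.cast_zero,
    add_zero]
  have e1 : brf q c * brf q (n - d) / (brf q c * brf q (n - d)) = 1 := div_self (mul_ne_zero h1 h2)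
  have e3 : ((-1 : ℂ)) ^ (n + 1) = -(-1) ^ n := by rw [pow_succ]; ring
  rw [e1, e3]
  have e2 : q ^ (-(((n + 1 : ℕ) : ℤ) * (((n + 1 : ℕ) : ℤ) + 1) - ((n + 1 : ℕ) : ℤ) *
      (((d + 1 : ℕ) : ℤ) + c) + 2 * ((d + 1 : ℕ) : ℤ) * c))
      = q⁻¹ * (q ^ (-((n : ℤ) * (n + 1) - n * (d + c) + 2 * d * c)) *
        q ^ (-((n : ℤ) + 1 - (d + 1)) - c)) := by
    rw [← _root_.zpow_neg_one, ← zpow_add₀ hq, ← zpow_add₀ hq]
    congr 1
    push_cast
    ring
  rw [e2]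
  field_simp

theorem RiC_case1 (q : ℂ) (n a c m : ℕ) (h : Gen q (n + 1)) (hc : c + m ≤ n) (hd : a + m ≤ n) :
    -q * (br q ((n : ℤ) + 1 - c) * br q (((a + m : ℕ) : ℤ) + 1) / br q ((n : ℤ) + 1) ^ 2) *
        Ric q (n + 1) a (c + m + 1) c (a + m + 1) +
      q ^ (-((n : ℤ) + 1 - (c + 1)) - ((a + m : ℕ) : ℤ)) *
        (br q ((c : ℤ) + 1) * br q ((n : ℤ) + 1 - ((a + m : ℕ) : ℤ)) / br q ((n : ℤ) + 1) ^ 2) *
        Ric q (n + 1) a (c + m + 1) (c + 1) (a + m)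
      = Ric q n a (c + m) c (a + m) * (-q * (br q ((n : ℤ) + 1 - a) *
          br q ((c + m + 1 : ℕ) : ℤ) / br q ((n : ℤ) + 1) ^ 2)) +
        Ric q n (a - 1) (c + m + 1) c (a + m) *
          (q ^ (-((n : ℤ) + 1 - a) - ((c + m + 1 : ℕ) : ℤ)) *
          (br q (a : ℤ) * br q ((n : ℤ) + 1 - ((c + m + 1 : ℕ) : ℤ)) / br q ((n : ℤ) + 1) ^ 2)) := by
  have hq := h.1
  obtain ⟨k, rfl⟩ := Nat.exists_eq_add_of_le hd
  have hN : br q (((a + m + k : ℕ) : ℤ) + 1) ≠ 0 := h.ne (by omega) (by push_cast; omega)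
  have g1 : brf q c ≠ 0 := h.brf_ne (by omega)
  have g2 : brf q m ≠ 0 := h.brf_ne (by omega)
  have g3 : brf q k ≠ 0 := h.brf_ne (by omega)
  have g4 : br q ((c : ℤ) + 1) ≠ 0 := h.ne (by omega) (by push_cast; omega)
  have g5 : br q ((m : ℤ) + 1) ≠ 0 := h.ne (by omega) (by push_cast; omega)
  have g6 : br q ((k : ℤ) + 1) ≠ 0 := h.ne (by omega) (by push_cast; omega)
  -- the common factor
  set E : ℤ := -(((a + m + k : ℕ) : ℤ) + 1) * (((a + m + k : ℕ) : ℤ) + 1 - (c + a + m))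
    - 2 * a * (c + m + 1) - (m.choose 2 : ℕ) with hE
  have hch : (((m + 1).choose 2 : ℕ) : ℤ) = (m : ℤ) + (m.choose 2 : ℕ) := by
    rw [Nat.choose_succ_succ' m 1, Nat.choose_one_right]
    push_cast
    ring
  -- the four entries
  have T1 : Ric q (a + m + k + 1) a (c + m + 1) c (a + m + 1)
      = (-1) ^ (a + m + k) * (-1) ^ m * (q ^ E * q ^ (-(m : ℤ))) *
        (brf q (c + m) * br q ((c : ℤ) + m + 1) * (brf q (m + k) * br q ((m : ℤ) + k + 1)) /
          (brf q c * (brf q m * br q ((m : ℤ) + 1)) * brf q k)) := by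
    unfold Ric
    rw [if_pos ⟨by omega, by omega, by omega⟩, show c + m + 1 - c = m + 1 by omega,
      show a + m + k + 1 - a = (m + k) + 1 by omega,
      show a + m + k + 1 - (a + m + 1) = k by omega, brf_succ q (c + m), brf_succ q (m + k),
      brf_succ q m, hch, pow_succ, pow_succ, ← zpow_add₀ hq]
    push_cast
    rw [show -(((a : ℤ) + m + k + 1) * ((a : ℤ) + m + k + 1 + 1) - ((a : ℤ) + m + k + 1) *
      (a + (c + m + 1)) + 2 * a * (c + m + 1) + (m + (m.choose 2 : ℕ))) = E + -m by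
        rw [hE]; push_cast; ring]
    ring
  have T2 : Ric q (a + m + k + 1) a (c + m + 1) (c + 1) (a + m)
      = -((-1) ^ (a + m + k) * (-1) ^ m) * q ^ E *
        (brf q (c + m) * br q ((c : ℤ) + m + 1) * (brf q (m + k) * br q ((m : ℤ) + k + 1)) /
          (brf q c * br q ((c : ℤ) + 1) * brf q m * (brf q k * br q ((k : ℤ) + 1)))) := by
    unfold Ric
    rw [if_pos ⟨by omega, by omega, by omega⟩, show c + m + 1 - (c + 1) = m by omega,
      show a + m + k + 1 - a = (m + k) + 1 by omega,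
      show a + m + k + 1 - (a + m) = k + 1 by omega, brf_succ q (c + m), brf_succ q (m + k),
      brf_succ q c, brf_succ q k, pow_succ]
    push_cast
    rw [show -(((a : ℤ) + m + k + 1) * ((a : ℤ) + m + k + 1 + 1) - ((a : ℤ) + m + k + 1) *
      (a + (c + m + 1)) + 2 * a * (c + m + 1) + (m.choose 2 : ℕ)) = E by
        rw [hE]; push_cast; ring]
    ring
  have T3 : Ric q (a + m + k) a (c + m) c (a + m)
      = ((-1) ^ (a + m + k) * (-1) ^ m) *
        (q ^ E * q ^ (((a + m + k : ℕ) : ℤ) + 1 - (c + a + m) + 2 * a)) *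
        (brf q (c + m) * brf q (m + k) / (brf q c * brf q m * brf q k)) := by
    unfold Ric
    rw [if_pos ⟨by omega, by omega, by omega⟩, show c + m - c = m by omega,
      show a + m + k - a = m + k by omega,
      show a + m + k - (a + m) = k by omega, ← zpow_add₀ hq]
    push_cast
    rw [show -(((a : ℤ) + m + k) * ((a : ℤ) + m + k + 1) - ((a : ℤ) + m + k) *
      (a + (c + m)) + 2 * a * (c + m) + (m.choose 2 : ℕ))
      = E + ((a : ℤ) + m + k + 1 - (c + a + m) + 2 * a) by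
        rw [hE]; push_cast; ring]
  have T4 : Ric q (a + m + k) (a - 1) (c + m + 1) c (a + m) *
          (q ^ (-(((a + m + k : ℕ) : ℤ) + 1 - a) - ((c + m + 1 : ℕ) : ℤ)) *
          (br q (a : ℤ) * br q (((a + m + k : ℕ) : ℤ) + 1 - ((c + m + 1 : ℕ) : ℤ)) /
            br q (((a + m + k : ℕ) : ℤ) + 1) ^ 2))
      = (-((-1) ^ (a + m + k) * (-1) ^ m) *
        (q ^ E * q ^ (1 - (m : ℤ))) *
        (brf q (c + m) * br q ((c : ℤ) + m + 1) * (brf q (m + k) * br q ((m : ℤ) + k + 1)) /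
          (brf q c * (brf q m * br q ((m : ℤ) + 1)) * brf q k))) *
          (br q (a : ℤ) * br q (((a + m + k : ℕ) : ℤ) + 1 - ((c + m + 1 : ℕ) : ℤ)) /
            br q (((a + m + k : ℕ) : ℤ) + 1) ^ 2) := by
    rcases Nat.eq_zero_or_pos a with ha | ha
    · subst ha
      simp [br_zero]
    · obtain ⟨a', rfl⟩ := Nat.exists_eq_succ_of_ne_zero ha.ne'
      unfold Ric
      rw [if_pos ⟨by omega, by omega, by omega⟩, show c + m + 1 - c = m + 1 by omega,
        show a'.succ + m + k - (a'.succ - 1) = (m + k) + 1 by omega,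
        show a'.succ + m + k - (a'.succ + m) = k by omega, show a'.succ - 1 = a' by omega,
        brf_succ q (c + m), brf_succ q (m + k),
        brf_succ q m, hch, pow_succ, ← zpow_add₀ hq]
      have e5 : q ^ (-((((a'.succ + m + k : ℕ) : ℤ)) * (((a'.succ + m + k : ℕ) : ℤ) + 1) -
          (((a'.succ + m + k : ℕ) : ℤ)) * ((a' : ℤ) + ((c + m + 1 : ℕ) : ℤ)) +
            2 * a' * ((c + m + 1 : ℕ) : ℤ) + (m + (m.choose 2 : ℕ)))) *
          q ^ (-(((a'.succ + m + k : ℕ) : ℤ) + 1 - (a'.succ : ℕ)) - ((c + m + 1 : ℕ) : ℤ))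
          = q ^ (E + (1 - (m : ℤ))) := by
        rw [← zpow_add₀ hq]
        congr 1
        rw [hE]
        push_cast
        ring
      rw [← e5]
      push_cast
      ring
  rw [T1, T2, T3, T4]
  have key := RiC_pow q hq ((a + m + k : ℕ) : ℤ) c ((a + m : ℕ) : ℤ) m
  have k1 : (((a + m : ℕ) : ℤ) - m) = a := by push_cast; ring
  have k2 : (((a + m + k : ℕ) : ℤ) - c - m) = ((a + m + k : ℕ) : ℤ) + 1 - ((c + m + 1 : ℕ) : ℤ) := by
    push_cast; ring
  have k3 : ((a + m + k : ℕ) : ℤ) + 2 - (c + ((a + m : ℕ) : ℤ)) + 2 * (a : ℤ)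
      = 1 + (((a + m + k : ℕ) : ℤ) + 1 - (c + a + m) + 2 * a) := by
    push_cast; ring
  have k4 : (1 - (m : ℤ)) = 1 + -(m : ℤ) := by ring
  rw [k1, k2, k3, k4] at key
  rw [k4]
  have k5 : -(((a + m + k : ℕ) : ℤ) + 1 - (c + 1)) - ((a + m : ℕ) : ℤ)
      = -(((a + m + k : ℕ) : ℤ) - c) - ((a + m : ℕ) : ℤ) := by ring
  rw [k5]
  have k6 : ((a + m + k : ℕ) : ℤ) + 1 - ((a + m : ℕ) : ℤ) = (k : ℤ) + 1 := by push_cast; ring
  have k7 : ((a + m + k : ℕ) : ℤ) + 1 - (a : ℤ) = (m : ℤ) + k + 1 := by push_cast; ring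
  have k8 : ((c + m + 1 : ℕ) : ℤ) = (c : ℤ) + m + 1 := by push_cast; ring
  rw [k6, k7, k8] 
  rw [k8] at key
  simp only [zpow_add₀ hq 1, zpow_one] at key ⊢
  set S : ℂ := (-1) ^ (a + m + k) * (-1) ^ m
  set N := br q (((a + m + k : ℕ) : ℤ) + 1)
  set u1 := br q (((a + m + k : ℕ) : ℤ) + 1 - c)
  set u2 := br q (((a + m : ℕ) : ℤ) + 1)
  set u3 := br q (((a + m + k : ℕ) : ℤ) + 1 - ((c : ℤ) + m + 1))
  set u4 := br q (a : ℤ)
  set p1 := q ^ (-(m : ℤ))
  set p2 := q ^ (-(((a + m + k : ℕ) : ℤ) - c) - ((a + m : ℕ) : ℤ))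
  set p3 := q ^ (((a + m + k : ℕ) : ℤ) + 1 - (c + a + m) + 2 * a)
  set pE := q ^ E
  set w1 := br q ((c : ℤ) + m + 1)
  set w2 := br q ((m : ℤ) + k + 1)
  set f1 := brf q (c + m)
  set f2 := brf q (m + k)
  set M := br q ((m : ℤ) + 1)
  set K := br q ((k : ℤ) + 1)
  set G := br q ((c : ℤ) + 1)
  have fin : -(S * pE * (f1 * w1 * (f2 * w2)) / (N ^ 2 * (brf q c * brf q m * M * brf q k))) *
      (q * p1 * (u1 * u2) + p2 * M) =
      -(S * pE * (f1 * w1 * (f2 * w2)) / (N ^ 2 * (brf q c * brf q m * M * brf q k))) *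
      (q * p3 * M + q * p1 * (u4 * u3)) := by
    rw [key]
  calc _ = -(S * pE * (f1 * w1 * (f2 * w2)) / (N ^ 2 * (brf q c * brf q m * M * brf q k))) *
      (q * p1 * (u1 * u2) + p2 * M) := by
        field_simp
        ring
    _ = _ := fin
    _ = _ := by
        field_simp
        ring

theorem RiC_main (q : ℂ) (n a b c d : ℕ) (h : Gen q (n + 1)) (ha : a ≤ n + 1) (hb : b ≤ n + 1)
    (hc : c ≤ n) (hd : d ≤ n) :
    -q * (br q ((n : ℤ) + 1 - c) * br q ((d : ℤ) + 1) / br q ((n : ℤ) + 1) ^ 2) *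
        Ric q (n + 1) a b c (d + 1) +
      q ^ (-((n : ℤ) + 1 - (c + 1)) - (d : ℤ)) *
        (br q ((c : ℤ) + 1) * br q ((n : ℤ) + 1 - (d : ℤ)) / br q ((n : ℤ) + 1) ^ 2) *
        Ric q (n + 1) a b (c + 1) d
      = Ric q n a (b - 1) c d * (-q * (br q ((n : ℤ) + 1 - a) *
          br q (b : ℤ) / br q ((n : ℤ) + 1) ^ 2)) +
        Ric q n (a - 1) b c d * (q ^ (-((n : ℤ) + 1 - a) - (b : ℤ)) *
          (br q (a : ℤ) * br q ((n : ℤ) + 1 - (b : ℤ)) / br q ((n : ℤ) + 1) ^ 2)) := by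
  by_cases hs : a + b = c + d + 1 ∧ c ≤ b
  · obtain ⟨hs, hcb⟩ := hs
    rcases Nat.eq_or_lt_of_le hcb with hcb | hcb
    · subst hcb
      obtain rfl : a = d + 1 := by omega
      have z2 : Ric q (n + 1) (d + 1) c (c + 1) d = 0 := by
        unfold Ric
        rw [if_neg (by omega)]
      have z3 : Ric q n (d + 1) (c - 1) c d * (-q * (br q ((n : ℤ) + 1 - ((d + 1 : ℕ) : ℤ)) *
          br q (c : ℤ) / br q ((n : ℤ) + 1) ^ 2)) = 0 := by
        rcases Nat.eq_zero_or_pos c with h0 | h0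
        · subst h0
          simp [br_zero]
        · unfold Ric
          rw [if_neg (by omega), zero_mul]
      rw [z2, z3, mul_zero, add_zero, zero_add]
      have := RiC_case0 q n c d h hc hd
      push_cast
      exact this
    · obtain ⟨m, rfl⟩ : ∃ m, b = c + m + 1 := ⟨b - c - 1, by omega⟩
      obtain rfl : d = a + m := by omega
      have := RiC_case1 q n a c m h (by omega) hd
      rw [show c + m + 1 - 1 = c + m by omega]
      exact this
  · have z1 : Ric q (n + 1) a b c (d + 1) = 0 := by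
      unfold Ric
      rw [if_neg (by omega)]
    have z2 : Ric q (n + 1) a b (c + 1) d = 0 := by
      unfold Ric
      rw [if_neg (by omega)]
    have z3 : Ric q n a (b - 1) c d * (-q * (br q ((n : ℤ) + 1 - a) *
          br q (b : ℤ) / br q ((n : ℤ) + 1) ^ 2)) = 0 := by
      rcases Nat.eq_zero_or_pos b with h0 | h0
      · subst h0
        simp [br_zero]
      · unfold Ric
        rw [if_neg (by omega), zero_mul]
    have z4 : Ric q n (a - 1) b c d * (q ^ (-((n : ℤ) + 1 - a) - (b : ℤ)) *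
          (br q (a : ℤ) * br q ((n : ℤ) + 1 - (b : ℤ)) / br q ((n : ℤ) + 1) ^ 2)) = 0 := by
      rcases Nat.eq_zero_or_pos a with h0 | h0
      · subst h0
        simp [br_zero]
      · unfold Ric
        rw [if_neg (by omega), zero_mul]
    rw [z1, z2, z3, z4]
    simp

theorem CC_RiM (q : ℂ) (n : ℕ) (h : Gen q (n + 1)) :
    CC q n * RiM q (n + 1) = RiM q n * CC q n := by
  ext x y
  obtain ⟨⟨c, hc⟩, ⟨d, hd⟩⟩ := x
  obtain ⟨⟨a, ha⟩, ⟨b, hb⟩⟩ := y
  rw [Matrix.mul_apply, Matrix.mul_apply]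
  have L : ∑ z : I2 (n + 1), CC q n (⟨c, hc⟩, ⟨d, hd⟩) z * RiM q (n + 1) z (⟨a, ha⟩, ⟨b, hb⟩)
      = ∑ z : I2 (n + 1), (if (z.1 : ℕ) = c ∧ (z.2 : ℕ) = d + 1 then
          -q * (br q ((n : ℤ) + 1 - (z.1 : ℕ)) * br q ((z.2 : ℕ) : ℤ) / br q ((n : ℤ) + 1) ^ 2) *
            Ric q (n + 1) a b z.1 z.2 else 0) +
        ∑ z : I2 (n + 1), (if (z.1 : ℕ) = c + 1 ∧ (z.2 : ℕ) = d then
          q ^ (-((n : ℤ) + 1 - (z.1 : ℕ)) - ((z.2 : ℕ) : ℤ)) *
            (br q ((z.1 : ℕ) : ℤ) * br q ((n : ℤ) + 1 - ((z.2 : ℕ) : ℤ)) / br q ((n : ℤ) + 1) ^ 2) *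
            Ric q (n + 1) a b z.1 z.2 else 0) := by
    rw [← Finset.sum_add_distrib]
    refine Finset.sum_congr rfl fun z _ => ?_
    unfold CC RiM
    rw [add_mul, ite_mul, ite_mul, zero_mul]
    have e1 : ((c : ℕ) = (z.1 : ℕ) ∧ d + 1 = (z.2 : ℕ)) ↔ ((z.1 : ℕ) = c ∧ (z.2 : ℕ) = d + 1) := by
      constructor <;> rintro ⟨h1, h2⟩ <;> exact ⟨h1.symm, h2.symm⟩
    have e2 : ((c : ℕ) + 1 = (z.1 : ℕ) ∧ d = (z.2 : ℕ)) ↔ ((z.1 : ℕ) = c + 1 ∧ (z.2 : ℕ) = d) := by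
      constructor <;> rintro ⟨h1, h2⟩ <;> exact ⟨h1.symm, h2.symm⟩
    simp only [e1, e2]
  have R : ∑ w : I2 n, RiM q n (⟨c, hc⟩, ⟨d, hd⟩) w * CC q n w (⟨a, ha⟩, ⟨b, hb⟩)
      = Ric q n a (b - 1) c d * (-q * (br q ((n : ℤ) + 1 - a) *
          br q (b : ℤ) / br q ((n : ℤ) + 1) ^ 2)) +
        Ric q n (a - 1) b c d * (q ^ (-((n : ℤ) + 1 - a) - (b : ℤ)) *
          (br q (a : ℤ) * br q ((n : ℤ) + 1 - (b : ℤ)) / br q ((n : ℤ) + 1) ^ 2)) := by
    have R1 : ∑ w : I2 n, RiM q n (⟨c, hc⟩, ⟨d, hd⟩) w * CC q n w (⟨a, ha⟩, ⟨b, hb⟩)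
        = ∑ w : I2 n, (if (w.1 : ℕ) = a ∧ (w.2 : ℕ) + 1 = b then
          Ric q n w.1 w.2 c d * (-q * (br q ((n : ℤ) + 1 - a) *
          br q (b : ℤ) / br q ((n : ℤ) + 1) ^ 2)) else 0) +
          ∑ w : I2 n, (if (w.1 : ℕ) + 1 = a ∧ (w.2 : ℕ) = b then
          Ric q n w.1 w.2 c d * (q ^ (-((n : ℤ) + 1 - a) - (b : ℤ)) *
          (br q (a : ℤ) * br q ((n : ℤ) + 1 - (b : ℤ)) / br q ((n : ℤ) + 1) ^ 2)) else 0) := by
      rw [← Finset.sum_add_distrib]
      refine Finset.sum_congr rfl fun w _ => ?_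
      unfold CC RiM
      rw [mul_add, mul_ite, mul_ite, mul_zero]
    rw [R1]
    congr 1
    · rcases Nat.eq_zero_or_pos b with h0 | h0
      · subst h0
        simp [br_zero]
      · obtain ⟨b', rfl⟩ := Nat.exists_eq_succ_of_ne_zero h0.ne'
        have := RiC_sum n a b' (fun s t => Ric q n s t c d * (-q * (br q ((n : ℤ) + 1 - a) *
          br q ((b'.succ : ℕ) : ℤ) / br q ((n : ℤ) + 1) ^ 2)))
        simp only [Nat.succ_eq_add_one, Nat.add_right_cancel_iff] at this ⊢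
        rw [this]
        by_cases hab : a ≤ n
        · rw [if_pos ⟨hab, by omega⟩, Nat.add_sub_cancel]
        · obtain rfl : a = n + 1 := by omega
          rw [if_neg (by omega)]
          simp [br_zero]
    · rcases Nat.eq_zero_or_pos a with h0 | h0
      · subst h0
        simp [br_zero]
      · obtain ⟨a', rfl⟩ := Nat.exists_eq_succ_of_ne_zero h0.ne'
        have := RiC_sum n a' b (fun s t => Ric q n s t c d * (q ^ (-((n : ℤ) + 1 - (a'.succ : ℕ)) - (b : ℤ)) *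
          (br q ((a'.succ : ℕ) : ℤ) * br q ((n : ℤ) + 1 - (b : ℤ)) / br q ((n : ℤ) + 1) ^ 2)))
        simp only [Nat.succ_eq_add_one, Nat.add_right_cancel_iff] at this ⊢
        rw [this]
        by_cases hab : b ≤ n
        · rw [if_pos ⟨by omega, hab⟩, Nat.add_sub_cancel]
        · obtain rfl : b = n + 1 := by omega
          rw [if_neg (by omega)]
          simp [br_zero]
  have L1 := RiC_sum (n + 1) c (d + 1) (fun s t : ℕ => -q * (br q ((n : ℤ) + 1 - s) *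
    br q (t : ℤ) / br q ((n : ℤ) + 1) ^ 2) * Ric q (n + 1) a b s t)
  have L2 := RiC_sum (n + 1) (c + 1) d (fun s t : ℕ => q ^ (-((n : ℤ) + 1 - s) - (t : ℤ)) *
    (br q (s : ℤ) * br q ((n : ℤ) + 1 - (t : ℤ)) / br q ((n : ℤ) + 1) ^ 2) *
    Ric q (n + 1) a b s t)
  rw [if_pos ⟨by omega, by omega⟩] at L1 L2
  rw [L, R]
  refine (congrArg₂ (· + ·) L1 L2).trans ?_
  rw [← RiC_main q n a b c d h (by omega) (by omega) (by omega) (by omega)]
  push_cast
  rfl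

end Pool.Agent.H63.VC10
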