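import Pool.Agent.H63.VC10.Brk

/-! # The negative crossing commutes with the insertion of a minimum -/

namespace Pool.Agent.H63.VC10

open Pool.Agent.H63.VC7 Matrix

private theorem RiD_left (q : ℂ) (n : ℕ) (x : I2 (n + 1)) (y : I2 n) :
    (RiM q (n + 1) * DD q n) x y =
      q ^ (((y.1 : ℕ) : ℤ) + n - (y.2 : ℕ)) * Ric q (n + 1) y.1 (y.2 + 1) x.1 x.2 +
        -q⁻¹ * Ric q (n + 1) (y.1 + 1) y.2 x.1 x.2 := by
  have h1 := y.1.2
  have h2 := y.2.2
  rw [Matrix.mul_apply]
  simp only [DD, RiM, mul_add, mul_ite, mul_zero, Finset.sum_add_distrib]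
  congr 1
  · rw [Finset.sum_eq_single (⟨y.1, by omega⟩, ⟨y.2 + 1, by omega⟩)]
    · rw [if_pos ⟨rfl, rfl⟩]
      ring
    · intro z _ hz
      rw [if_neg]
      rintro ⟨e1, e2⟩
      apply hz
      ext
      · exact e1
      · exact e2
    · intro h
      exact absurd (Finset.mem_univ _) h
  · rw [Finset.sum_eq_single (⟨y.1 + 1, by omega⟩, ⟨y.2, by omega⟩)]
    · rw [if_pos ⟨rfl, rfl⟩]
      ring
    · intro z _ hz
      rw [if_neg]
      rintro ⟨e1, e2⟩
      apply hz
      ext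
      · exact e1
      · exact e2
    · intro h
      exact absurd (Finset.mem_univ _) h

private theorem RiD_right (q : ℂ) (n : ℕ) (x : I2 (n + 1)) (y : I2 n) :
    (DD q n * RiM q n) x y =
      (if (x.1 : ℕ) ≤ n ∧ 1 ≤ (x.2 : ℕ) then
        q ^ (((x.1 : ℕ) : ℤ) + n - ((x.2 : ℕ) - 1 : ℕ)) * Ric q n y.1 y.2 x.1 (x.2 - 1) else 0) +
      (if 1 ≤ (x.1 : ℕ) ∧ (x.2 : ℕ) ≤ n then -q⁻¹ * Ric q n y.1 y.2 (x.1 - 1) x.2 else 0) := by
  have h1 := x.1.2
  have h2 := x.2.2
  rw [Matrix.mul_apply]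
  simp only [DD, RiM, add_mul, ite_mul, zero_mul, Finset.sum_add_distrib]
  congr 1
  · split_ifs with h
    · rw [Finset.sum_eq_single (⟨x.1, by omega⟩, ⟨x.2 - 1, by omega⟩)]
      · rw [if_pos]
        exact ⟨rfl, by simp only; omega⟩
      · intro z _ hz
        rw [if_neg]
        rintro ⟨e1, e2⟩
        apply hz
        ext
        · exact e1.symm
        · simp only
          omega
      · intro h
        exact absurd (Finset.mem_univ _) h
    · apply Finset.sum_eq_zero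
      intro z _
      rw [if_neg]
      rintro ⟨e1, e2⟩
      have := z.1.2
      omega
  · split_ifs with h
    · rw [Finset.sum_eq_single (⟨x.1 - 1, by omega⟩, ⟨x.2, by omega⟩)]
      · rw [if_pos]
        exact ⟨by simp only; omega, rfl⟩
      · intro z _ hz
        rw [if_neg]
        rintro ⟨e1, e2⟩
        apply hz
        ext
        · simp only
          omega
        · exact e2.symm
      · intro h
        exact absurd (Finset.mem_univ _) h
    · apply Finset.sum_eq_zero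
      intro z _
      rw [if_neg]
      rintro ⟨e1, e2⟩
      have := z.2.2
      omega

/-- the case `c = b + 1` -/
private theorem RiD_case0 (q : ℂ) (hq : q ≠ 0) (n a b : ℕ) (ha : a ≤ n) (hb : b ≤ n)
    (hB : ∀ k ≤ n + 1, brf q k ≠ 0) :
    q ^ ((a : ℤ) + n - b) * Ric q (n + 1) a (b + 1) (b + 1) a = -q⁻¹ * Ric q n a b b a := by
  have e1 : Ric q (n + 1) a (b + 1) (b + 1) a = (-1) ^ (n + 1) *
      q ^ (-(((n : ℤ) + 1) * (n + 2) - (n + 1) * (a + b + 1) + 2 * a * (b + 1))) := by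
    rw [Ric, if_pos ⟨by omega, le_refl _, by omega⟩]
    have h1 := hB (b + 1) (by omega)
    have h2 := hB (n + 1 - a) (by omega)
    rw [Nat.sub_self, brf_zero, mul_one]
    have h3 : brf q (b + 1) * brf q (n + 1 - a) / (brf q (b + 1) * brf q (n + 1 - a)) = 1 :=
      div_self (mul_ne_zero h1 h2)
    rw [h3, pow_zero, mul_one, mul_one]
    congr 2
    simp only [Nat.choose_zero_succ]
    push_cast
    ring
  have e2 : Ric q n a b b a = (-1) ^ n * q ^ (-((n : ℤ) * (n + 1) - n * (a + b) + 2 * a * b)) := by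
    rw [Ric, if_pos ⟨by omega, le_refl _, by omega⟩]
    have h1 := hB b (by omega)
    have h2 := hB (n - a) (by omega)
    rw [Nat.sub_self, brf_zero, mul_one]
    have h3 : brf q b * brf q (n - a) / (brf q b * brf q (n - a)) = 1 :=
      div_self (mul_ne_zero h1 h2)
    rw [h3, pow_zero, mul_one, mul_one]
    congr 2
    simp only [Nat.choose_zero_succ]
    push_cast
    ring
  rw [e1, e2, pow_succ]
  have h4 : q ^ ((a : ℤ) + n - b) *
      q ^ (-(((n : ℤ) + 1) * (n + 2) - (n + 1) * (a + b + 1) + 2 * a * (b + 1))) =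
      q⁻¹ * q ^ (-((n : ℤ) * (n + 1) - n * (a + b) + 2 * a * b)) := by
    rw [← _root_.zpow_neg_one, ← zpow_add₀ hq, ← zpow_add₀ hq]
    congr 1
    ring
  calc q ^ ((a : ℤ) + n - b) * ((-1) ^ n * -1 *
        q ^ (-(((n : ℤ) + 1) * (n + 2) - (n + 1) * (a + b + 1) + 2 * a * (b + 1))))
      = -((-1) ^ n) * (q ^ ((a : ℤ) + n - b) *
        q ^ (-(((n : ℤ) + 1) * (n + 2) - (n + 1) * (a + b + 1) + 2 * a * (b + 1)))) := by ring
    _ = _ := by rw [h4]; ring

/-- the general case, `b = c + k`, `d = a + k + 1`, `n = a + k + j` -/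
private theorem RiD_case1 (q : ℂ) (hq : q ≠ 0) (a c k j : ℕ) (hc : c ≤ a + j)
    (hB : ∀ i ≤ a + k + j + 1, brf q i ≠ 0) :
    q ^ ((a : ℤ) + (a + k + j : ℕ) - (c + k : ℕ)) *
        Ric q (a + k + j + 1) a (c + k + 1) c (a + k + 1) +
      -q⁻¹ * Ric q (a + k + j + 1) (a + 1) (c + k) c (a + k + 1) =
    q ^ ((c : ℤ) + (a + k + j : ℕ) - (a + k : ℕ)) * Ric q (a + k + j) a (c + k) c (a + k) +
      (if 1 ≤ c ∧ a + k + 1 ≤ a + k + j then
        -q⁻¹ * Ric q (a + k + j) a (c + k) (c - 1) (a + k + 1) else 0) := by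
  set G : ℂ := brf q (c + k) * brf q (k + j) / (brf q c * brf q (k + 1) * brf q j) with hG
  set E : ℤ := -(((a : ℤ) + k + j) * (a + k + j + 1) - (a + k + j) * (a + (c + k)) +
    2 * a * (c + k)) - 1 - ((k + 1).choose 2 : ℕ) with hE
  have hch : ((k + 1).choose 2 : ℕ) = k + k.choose 2 := by
    rw [Nat.choose_succ_succ', Nat.choose_one_right]
  have hBc := hB c (by omega)
  have hBk := hB k (by omega)
  have hBk1 := hB (k + 1) (by omega)
  have hBj := hB j (by omega)
  have hbk : br q ((k : ℤ) + 1) ≠ 0 := by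
    intro h
    apply hBk1
    rw [brf_succ, h, mul_zero]
  have e1 : q ^ ((a : ℤ) + (a + k + j : ℕ) - (c + k : ℕ)) *
      Ric q (a + k + j + 1) a (c + k + 1) c (a + k + 1) =
      (-1) ^ (a + k + j) * (-1) ^ k * q ^ E *
        (br q ((c : ℤ) + k + 1) * br q ((k : ℤ) + j + 1)) * G := by
    rw [Ric, if_pos ⟨by omega, by omega, by omega⟩]
    have t1 : c + k + 1 - c = k + 1 := by omega
    have t2 : a + k + j + 1 - a = (k + j) + 1 := by omega
    have t3 : a + k + j + 1 - (a + k + 1) = j := by omega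
    rw [t1, t2, t3, brf_succ q (c + k), brf_succ q (k + j), pow_succ, pow_succ _ k]
    have hz : q ^ ((a : ℤ) + (a + k + j : ℕ) - (c + k : ℕ)) *
        q ^ (-(((a + k + j + 1 : ℕ) : ℤ) * ((a + k + j + 1 : ℕ) + 1) -
          ((a + k + j + 1 : ℕ) : ℤ) * ((a : ℤ) + (c + k + 1 : ℕ)) +
          2 * a * (c + k + 1 : ℕ) + ((k + 1).choose 2 : ℕ))) = q ^ E := by
      rw [← zpow_add₀ hq]
      congr 1
      rw [hE]
      push_cast
      ring
    rw [← hz, hG]
    push_cast
    ring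
  have e2 : -q⁻¹ * Ric q (a + k + j + 1) (a + 1) (c + k) c (a + k + 1) =
      (-1) ^ (a + k + j) * (-1) ^ k * (q ^ E * q ^ (-((c : ℤ) + k + j + 1))) *
        br q ((k : ℤ) + 1) * G := by
    rw [Ric, if_pos ⟨by omega, by omega, by omega⟩]
    have t1 : c + k - c = k := by omega
    have t2 : a + k + j + 1 - (a + 1) = k + j := by omega
    have t3 : a + k + j + 1 - (a + k + 1) = j := by omega
    rw [t1, t2, t3, pow_succ]
    have hz : q ^ E * q ^ (-((c : ℤ) + k + j + 1)) = q⁻¹ *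
        q ^ (-(((a + k + j + 1 : ℕ) : ℤ) * ((a + k + j + 1 : ℕ) + 1) -
          ((a + k + j + 1 : ℕ) : ℤ) * (((a + 1 : ℕ) : ℤ) + (c + k : ℕ)) +
          2 * ((a + 1 : ℕ) : ℤ) * (c + k : ℕ) + (k.choose 2 : ℕ))) := by
      rw [← _root_.zpow_neg_one, ← zpow_add₀ hq, ← zpow_add₀ hq]
      congr 1
      rw [hE, hch]
      push_cast
      ring
    rw [hz, hG, brf_succ q k]
    field_simp
  have e3 : q ^ ((c : ℤ) + (a + k + j : ℕ) - (a + k : ℕ)) *
      Ric q (a + k + j) a (c + k) c (a + k) =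
      (-1) ^ (a + k + j) * (-1) ^ k * (q ^ E * q ^ ((c : ℤ) + k + j + 1)) *
        br q ((k : ℤ) + 1) * G := by
    rw [Ric, if_pos ⟨by omega, by omega, by omega⟩]
    have t1 : c + k - c = k := by omega
    have t2 : a + k + j - a = k + j := by omega
    have t3 : a + k + j - (a + k) = j := by omega
    rw [t1, t2, t3]
    have hz : q ^ E * q ^ ((c : ℤ) + k + j + 1) =
        q ^ ((c : ℤ) + (a + k + j : ℕ) - (a + k : ℕ)) *
        q ^ (-(((a + k + j : ℕ) : ℤ) * ((a + k + j : ℕ) + 1) -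
          ((a + k + j : ℕ) : ℤ) * ((a : ℤ) + (c + k : ℕ)) +
          2 * (a : ℤ) * (c + k : ℕ) + (k.choose 2 : ℕ))) := by
      rw [← zpow_add₀ hq, ← zpow_add₀ hq]
      congr 1
      rw [hE, hch]
      push_cast
      ring
    rw [hz, hG, brf_succ q k]
    field_simp
  have e4 : (if 1 ≤ c ∧ a + k + 1 ≤ a + k + j then
        -q⁻¹ * Ric q (a + k + j) a (c + k) (c - 1) (a + k + 1) else 0) =
      (-1) ^ (a + k + j) * (-1) ^ k * q ^ E * (br q (c : ℤ) * br q (j : ℤ)) * G := by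
    rcases Nat.eq_zero_or_pos c with h0 | h0
    · subst h0
      rw [if_neg (by omega)]
      simp [br_zero]
    rcases Nat.eq_zero_or_pos j with h1 | h1
    · subst h1
      rw [if_neg (by omega)]
      simp [br_zero]
    obtain ⟨c', rfl⟩ : ∃ c', c = c' + 1 := ⟨c - 1, by omega⟩
    obtain ⟨j', rfl⟩ : ∃ j', j = j' + 1 := ⟨j - 1, by omega⟩
    rw [if_pos ⟨by omega, by omega⟩, Ric, if_pos ⟨by omega, by omega, by omega⟩]
    have t1 : c' + 1 + k - (c' + 1 - 1) = k + 1 := by omega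
    have t2 : a + k + (j' + 1) - a = k + (j' + 1) := by omega
    have t3 : a + k + (j' + 1) - (a + k + 1) = j' := by omega
    rw [t1, t2, t3, Nat.add_sub_cancel, pow_succ _ k]
    have hc' : brf q c' ≠ 0 := hB c' (by omega)
    have hj' : brf q j' ≠ 0 := hB j' (by omega)
    have hbc : br q ((c' : ℤ) + 1) ≠ 0 := by
      intro h
      apply hBc
      rw [brf_succ, h, mul_zero]
    have hbj : br q ((j' : ℤ) + 1) ≠ 0 := by
      intro h
      apply hBj
      rw [brf_succ, h, mul_zero]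
    have hz : q ^ E = q⁻¹ *
        q ^ (-(((a + k + (j' + 1) : ℕ) : ℤ) * ((a + k + (j' + 1) : ℕ) + 1) -
          ((a + k + (j' + 1) : ℕ) : ℤ) * ((a : ℤ) + (c' + 1 + k : ℕ)) +
          2 * (a : ℤ) * (c' + 1 + k : ℕ) + ((k + 1).choose 2 : ℕ))) := by
      rw [← _root_.zpow_neg_one, ← zpow_add₀ hq]
      congr 1
      rw [hE]
      push_cast
      ring
    rw [hz, hG, brf_succ q c', brf_succ q j']
    push_cast
    field_simp
  rw [e1, e2, e3, e4]
  have key : br q ((c : ℤ) + k + 1) * br q ((k : ℤ) + j + 1) +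
      q ^ (-((c : ℤ) + k + j + 1)) * br q ((k : ℤ) + 1) =
      q ^ ((c : ℤ) + k + j + 1) * br q ((k : ℤ) + 1) + br q (c : ℤ) * br q (j : ℤ) := by
    have h6 : br q ((c : ℤ) + k + 1) * br q ((k : ℤ) + j + 1) - br q (c : ℤ) * br q (j : ℤ) =
        br q ((k : ℤ) + 1) * br q ((c : ℤ) + k + j + 1) := by
      have h7 := br_three_term q hq (-((c : ℤ) + k + 1)) (j : ℤ) ((k : ℤ) + 1)
      rw [show -((c : ℤ) + k + 1) + ((k : ℤ) + 1) = -(c : ℤ) by ring,
        show -((c : ℤ) + k + 1) - (j : ℤ) = -((c : ℤ) + k + j + 1) by ring,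
        show (j : ℤ) + ((k : ℤ) + 1) = (k : ℤ) + j + 1 by ring, br_neg, br_neg, br_neg] at h7
      linear_combination -h7
    have h9 : q ^ ((c : ℤ) + k + j + 1) - q ^ (-((c : ℤ) + k + j + 1)) =
        br q ((c : ℤ) + k + j + 1) := rfl
    linear_combination h6 - br q ((k : ℤ) + 1) * h9
  linear_combination ((-1) ^ (a + k + j) * (-1) ^ k * q ^ E * G) * key

theorem RiM_DD (q : ℂ) (n : ℕ) (h : Gen q (n + 1)) :
    RiM q (n + 1) * DD q n = DD q n * RiM q n := by
  have hq := h.1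
  have hB : ∀ k ≤ n + 1, brf q k ≠ 0 := fun k hk => h.brf_ne (by omega)
  ext x y
  rw [RiD_left, RiD_right]
  obtain ⟨⟨c, hc⟩, ⟨d, hd⟩⟩ := x
  obtain ⟨⟨a, ha⟩, ⟨b, hb⟩⟩ := y
  simp only
  by_cases hs : a + b + 1 = c + d
  · by_cases hcb : c ≤ b + 1
    · rcases Nat.lt_or_ge b c with hlt | hge
      · -- c = b + 1
        obtain rfl : c = b + 1 := by omega
        obtain rfl : d = a := by omega
        have z1 : Ric q (n + 1) (d + 1) b (b + 1) d = 0 := by
          rw [Ric, if_neg (by omega)]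
        have z2 : Ric q n d b (b + 1) (d - 1) = 0 := by
          rw [Ric, if_neg (by omega)]
        rw [z1, z2, mul_zero, add_zero, mul_zero, ite_self, zero_add,
          if_pos ⟨by omega, by omega⟩, Nat.add_sub_cancel]
        exact RiD_case0 q hq n d b (by omega) (by omega) hB
      · obtain ⟨k, rfl⟩ : ∃ k, b = c + k := ⟨b - c, by omega⟩
        obtain rfl : d = a + k + 1 := by omega
        obtain ⟨j, rfl⟩ : ∃ j, n = a + k + j := ⟨n - a - k, by omega⟩
        rw [if_pos ⟨by omega, by omega⟩, Nat.add_sub_cancel]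
        exact RiD_case1 q hq a c k j (by omega) hB
    · have z1 : Ric q (n + 1) a (b + 1) c d = 0 := by rw [Ric, if_neg (by omega)]
      have z2 : Ric q (n + 1) (a + 1) b c d = 0 := by rw [Ric, if_neg (by omega)]
      have z3 : Ric q n a b c (d - 1) = 0 := by rw [Ric, if_neg (by omega)]
      have z4 : Ric q n a b (c - 1) d = 0 := by rw [Ric, if_neg (by omega)]
      rw [z1, z2, z3, z4]
      simp
  · have z1 : Ric q (n + 1) a (b + 1) c d = 0 := by rw [Ric, if_neg (by omega)]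
    have z2 : Ric q (n + 1) (a + 1) b c d = 0 := by rw [Ric, if_neg (by omega)]
    rw [z1, z2, mul_zero, mul_zero, add_zero]
    symm
    have z3 : (if c ≤ n ∧ 1 ≤ d then
        q ^ ((c : ℤ) + n - (d - 1 : ℕ)) * Ric q n a b c (d - 1) else 0) = 0 := by
      split_ifs with h3
      · rw [Ric, if_neg (by omega), mul_zero]
      · rfl
    have z4 : (if 1 ≤ c ∧ d ≤ n then -q⁻¹ * Ric q n a b (c - 1) d else 0) = 0 := by
      split_ifs with h4
      · rw [Ric, if_neg (by omega), mul_zero]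
      · rfl
    rw [z3, z4, add_zero]

end Pool.Agent.H63.VC10
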