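import Pool.Agent.H63.VC10.RD
import Pool.Agent.H63.VC10.RC
import Pool.Agent.H63.VC10.RiD
import Pool.Agent.H63.VC10.RiC
import Pool.Agent.H63.VC10.Exact

/-! # The eigenvalues of the crossings -/

namespace Pool.Agent.H63.VC10

open Pool.Agent.H63.VC7 Matrix

/-- A column of a matrix product, when the second factor has a single nonzero entry in it. -/
theorem ROh_single {α : Type*} {n : ℕ} (A : Matrix α (I2 n) ℂ) (B : Matrix (I2 n) (I2 n) ℂ) (s : α)
    (y x : I2 n) (hx : ∀ z : I2 n, z ≠ x → B z y = 0) : (A * B) s y = A s x * B x y := by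
  rw [Matrix.mul_apply]
  refine Finset.sum_eq_single x ?_ ?_
  · intro z _ hz
    rw [hx z hz, mul_zero]
  · intro hz
    exact absurd (Finset.mem_univ x) hz

theorem ROh_col (q : ℂ) (n : ℕ) {α : Type*} (G : Matrix α (I2 (n + 1)) ℂ) (s : α) (a b : ℕ)
    (ha : a < n + 1) (hb : b < n + 1) :
    (G * DD q n) s (⟨a, ha⟩, ⟨b, hb⟩) =
      G s (⟨a, by omega⟩, ⟨b + 1, by omega⟩) * q ^ ((a : ℤ) + n - (b : ℤ)) +
        G s (⟨a + 1, by omega⟩, ⟨b, by omega⟩) * (-q⁻¹) := by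
  rw [Matrix.mul_apply]
  simp only [DD, mul_add, Finset.sum_add_distrib]
  congr 1
  · rw [Finset.sum_eq_single ((⟨a, by omega⟩, ⟨b + 1, by omega⟩) : I2 (n + 1))]
    · simp
    · rintro ⟨⟨z1, h1⟩, ⟨z2, h2⟩⟩ _ hz
      rw [if_neg, mul_zero]
      rintro ⟨e1, e2⟩
      apply hz
      simp only at e1 e2
      subst e1 e2
      rfl
    · intro hz
      exact absurd (Finset.mem_univ _) hz
  · rw [Finset.sum_eq_single ((⟨a + 1, by omega⟩, ⟨b, by omega⟩) : I2 (n + 1))]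
    · simp
    · rintro ⟨⟨z1, h1⟩, ⟨z2, h2⟩⟩ _ hz
      rw [if_neg, mul_zero]
      rintro ⟨e1, e2⟩
      apply hz
      simp only at e1 e2
      subst e1 e2
      rfl
    · intro hz
      exact absurd (Finset.mem_univ _) hz

/-- The version of `Mm_of_ext` for the vectors `e_a ⊗ e_0` and `e_{n+1} ⊗ e_b`. -/
theorem ROh_ext (q : ℂ) (n : ℕ) (hq : q ≠ 0) (c : ℂ) (Z : Matrix (I2 (n + 1)) (I2 (n + 1)) ℂ)
    (Z' : Matrix (I2 n) (I2 n) ℂ) (hD : Z * DD q n = DD q n * Z')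
    (h1 : ∀ (s : Fin (2 * (n + 1) + 1)) (y : I2 (n + 1)), (y.2 : ℕ) = 0 ∨ (y.1 : ℕ) = n + 1 →
      (Mm q (n + 1) * Z) s y = c * Mm q (n + 1) s y) :
    Mm q (n + 1) * Z = c • Mm q (n + 1) := by
  have hG : (Mm q (n + 1) * Z - c • Mm q (n + 1)) * DD q n = 0 := by
    rw [Matrix.sub_mul, Matrix.mul_assoc, hD, ← Matrix.mul_assoc, Mm_DD q n hq, Matrix.zero_mul,
      Matrix.smul_mul, Mm_DD q n hq, smul_zero, sub_zero]
  have key : ∀ (s : Fin (2 * (n + 1) + 1)) (b a : ℕ) (ha : a < n + 1 + 1) (hb : b < n + 1 + 1),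
      (Mm q (n + 1) * Z - c • Mm q (n + 1)) s (⟨a, ha⟩, ⟨b, hb⟩) = 0 := by
    intro s b
    induction b with
    | zero =>
      intro a ha hb
      rw [Matrix.sub_apply, Matrix.smul_apply, h1 s _ (Or.inl rfl), smul_eq_mul, sub_self]
    | succ b ih =>
      intro a ha hb
      rcases Nat.lt_or_ge a (n + 1) with h2 | h2
      · have e := ROh_col q n (Mm q (n + 1) * Z - c • Mm q (n + 1)) s a b h2 (by omega)
        rw [hG, Matrix.zero_apply, ih (a + 1) (by omega) (by omega), zero_mul, add_zero] at e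
        rcases mul_eq_zero.1 e.symm with h3 | h3
        · exact h3
        · exact absurd h3 (zpow_ne_zero _ hq)
      · have h4 : a = n + 1 := by omega
        rw [Matrix.sub_apply, Matrix.smul_apply, h1 s _ (Or.inr h4), smul_eq_mul, sub_self]
  ext s y
  have := key s y.2 y.1 y.1.2 y.2.2
  rw [Matrix.sub_apply, sub_eq_zero] at this
  exact this

theorem ROh_pow {q : ℂ} (hq : q ≠ 0) {a b c e : ℤ} {u : ℂ} (h : a + b = c + e) :
    q ^ a * (u * q ^ b) = u * q ^ c * q ^ e := by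
  rw [mul_left_comm, ← zpow_add₀ hq, mul_assoc, ← zpow_add₀ hq, h]

theorem ROh_h0 (q : ℂ) : RM q 0 = tw q 0 • (1 : Matrix (I2 0) (I2 0) ℂ) := by
  ext x y
  have h1 : (x.1 : ℕ) = 0 := by omega
  have h2 : (x.2 : ℕ) = 0 := by omega
  have h : x = y := by ext <;> omega
  subst h
  simp [RM, Rc, tw, brf_zero]

theorem ROh_h0' (q : ℂ) : RiM q 0 = (tw q 0)⁻¹ • (1 : Matrix (I2 0) (I2 0) ℂ) := by
  ext x y
  have h1 : (x.1 : ℕ) = 0 := by omega
  have h2 : (x.2 : ℕ) = 0 := by omega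
  have h : x = y := by ext <;> omega
  subst h
  simp [RiM, Ric, tw, brf_zero]

theorem ROh_tw (q : ℂ) (n : ℕ) : tw q n = (-1) ^ n * q ^ ((n : ℤ) * (n + 1)) := by
  unfold tw
  rw [← zpow_natCast]
  norm_cast

theorem ROh_tw' (q : ℂ) (n : ℕ) : (tw q n)⁻¹ = (-1) ^ n * q ^ (-((n : ℤ) * (n + 1))) := by
  rw [ROh_tw, mul_inv, ← inv_pow, inv_neg, inv_one, ← _root_.zpow_neg]

/-- The vectors `e_0 ⊗ e_b`. -/
theorem ROh_a (q : ℂ) (n : ℕ) (h : Gen q n) (s : Fin (2 * n + 1)) (y : I2 n) (hy : (y.1 : ℕ) = 0) :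
    (Mm q n * RM q n) s y = tw q n * Mm q n s y := by
  have hb := y.2.2
  rw [ROh_single _ _ s y (y.2, y.1)]
  · have hf : brf q (n - (y.2 : ℕ)) ≠ 0 := h.brf_ne (by omega)
    simp only [Mm, RM, Rc, hy, brf_zero]
    by_cases hs : (s : ℕ) = 0 + (y.2 : ℕ)
    · rw [if_pos (by omega), if_pos (by omega), if_pos hs, ROh_tw]
      simp only [Nat.sub_self, Nat.choose_zero_succ, brf_zero, one_mul, mul_one, div_self hf]
      exact ROh_pow h.1 (by push_cast; ring)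
    · rw [if_neg (by omega), if_neg hs, zero_mul, mul_zero]
  · rintro ⟨z1, z2⟩ hz
    simp only [RM, Rc]
    rw [if_neg]
    rintro ⟨e1, e2, e3⟩
    apply hz
    ext <;> simp <;> omega

/-- The vectors `e_a ⊗ e_n`. -/
theorem ROh_b (q : ℂ) (n : ℕ) (h : Gen q n) (s : Fin (2 * n + 1)) (y : I2 n) (hy : (y.2 : ℕ) = n) :
    (Mm q n * RM q n) s y = tw q n * Mm q n s y := by
  have hb := y.1.2
  rw [ROh_single _ _ s y (y.2, y.1)]
  · have hf : brf q (y.1 : ℕ) ≠ 0 := h.brf_ne (by omega)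
    simp only [Mm, RM, Rc, hy]
    by_cases hs : (s : ℕ) = (y.1 : ℕ) + n
    · rw [if_pos (by omega), if_pos (by omega), if_pos hs, ROh_tw]
      simp only [Nat.sub_self, Nat.choose_zero_succ, brf_zero, mul_one, div_self hf]
      exact ROh_pow h.1 (by push_cast; ring)
    · rw [if_neg (by omega), if_neg hs, zero_mul, mul_zero]
  · rintro ⟨z1, z2⟩ hz
    simp only [RM, Rc]
    rw [if_neg]
    rintro ⟨e1, e2, e3⟩
    apply hz
    ext <;> simp <;> omega

/-- The vectors `e_a ⊗ e_0`. -/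
theorem ROh_c (q : ℂ) (n : ℕ) (h : Gen q n) (s : Fin (2 * n + 1)) (y : I2 n) (hy : (y.2 : ℕ) = 0) :
    (Mm q n * RiM q n) s y = (tw q n)⁻¹ * Mm q n s y := by
  have hb := y.1.2
  rw [ROh_single _ _ s y (y.2, y.1)]
  · have hf : brf q (n - (y.1 : ℕ)) ≠ 0 := h.brf_ne (by omega)
    simp only [Mm, RiM, Ric, hy, brf_zero]
    by_cases hs : (s : ℕ) = (y.1 : ℕ) + 0
    · rw [if_pos (by omega), if_pos (by omega), if_pos hs, ROh_tw']
      simp only [Nat.sub_self, Nat.choose_zero_succ, brf_zero, pow_zero, one_mul, mul_one,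
        div_self hf]
      exact ROh_pow h.1 (by push_cast; ring)
    · rw [if_neg (by omega), if_neg hs, zero_mul, mul_zero]
  · rintro ⟨z1, z2⟩ hz
    simp only [RiM, Ric]
    rw [if_neg]
    rintro ⟨e1, e2, e3⟩
    apply hz
    ext <;> simp <;> omega

/-- The vectors `e_n ⊗ e_b`. -/
theorem ROh_d (q : ℂ) (n : ℕ) (h : Gen q n) (s : Fin (2 * n + 1)) (y : I2 n) (hy : (y.1 : ℕ) = n) :
    (Mm q n * RiM q n) s y = (tw q n)⁻¹ * Mm q n s y := by
  have hb := y.2.2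
  rw [ROh_single _ _ s y (y.2, y.1)]
  · have hf : brf q (y.2 : ℕ) ≠ 0 := h.brf_ne (by omega)
    simp only [Mm, RiM, Ric, hy]
    by_cases hs : (s : ℕ) = n + (y.2 : ℕ)
    · rw [if_pos (by omega), if_pos (by omega), if_pos hs, ROh_tw']
      simp only [Nat.sub_self, Nat.choose_zero_succ, brf_zero, pow_zero, mul_one, div_self hf]
      exact ROh_pow h.1 (by push_cast; ring)
    · rw [if_neg (by omega), if_neg hs, zero_mul, mul_zero]
  · rintro ⟨z1, z2⟩ hz
    simp only [RiM, Ric]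
    rw [if_neg]
    rintro ⟨e1, e2, e3⟩
    apply hz
    ext <;> simp <;> omega

theorem RM_eq (q : ℂ) (n : ℕ) (h : Gen q n) : RM q n = Oh q n (tw q) := by
  refine Oh_unique q n h (tw q) (RM q) (ROh_h0 q) (fun k hk => CC_RM q k (h.mono (by omega))) ?_
  intro k hk
  cases k with
  | zero => rw [ROh_h0, Matrix.mul_smul, Matrix.mul_one]
  | succ k =>
    refine Mm_of_ext q k h.1 (tw q (k + 1)) (RM q (k + 1)) (RM q k)
      (RM_DD q k (h.mono (by omega))) ?_
    rintro s y (hy | hy)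
    · exact ROh_a q (k + 1) (h.mono hk) s y hy
    · exact ROh_b q (k + 1) (h.mono hk) s y hy

theorem RiM_eq (q : ℂ) (n : ℕ) (h : Gen q n) : RiM q n = Oh q n (fun k => (tw q k)⁻¹) := by
  refine Oh_unique q n h (fun k => (tw q k)⁻¹) (RiM q) (ROh_h0' q)
    (fun k hk => CC_RiM q k (h.mono (by omega))) ?_
  intro k hk
  cases k with
  | zero =>
    rw [ROh_h0', Matrix.mul_smul, Matrix.mul_one]
  | succ k =>
    refine ROh_ext q k h.1 ((tw q (k + 1))⁻¹) (RiM q (k + 1)) (RiM q k)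
      (RiM_DD q k (h.mono (by omega))) ?_
    rintro s y (hy | hy)
    · exact ROh_c q (k + 1) (h.mono hk) s y hy
    · exact ROh_d q (k + 1) (h.mono hk) s y hy

end Pool.Agent.H63.VC10
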