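import Pool.Agent.H63.VC10.OhMul

/-! # The closure of the operators `Oh n f` -/

namespace Pool.Agent.H63.VC10

open Pool.Agent.H63.VC7 Matrix

theorem Tr_cupc (q : ℂ) (n : ℕ) (h : Gen q n) (a : ℕ) (ha : a ≤ n) :
    cupc q n a * (cupc q n (n - a))⁻¹ = (-1) ^ n * q ^ ((n : ℤ) - 2 * a) := by
  have hq := h.1
  have h1 : brf q n ≠ 0 := h.brf_ne (by omega)
  have h2 : brf q a ≠ 0 := h.brf_ne (by omega)
  have h3 : brf q (n - a) ≠ 0 := h.brf_ne (by omega)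
  obtain ⟨b, rfl⟩ := Nat.exists_eq_add_of_le ha
  have e1 : a + b - a = b := by omega
  have e2 : a + b - b = a := by omega
  rw [e1] at h3 ⊢
  unfold cupc
  rw [e1, e2]
  have hz1 : q ^ ((b : ℤ) * (((a + b : ℕ) : ℤ) - b - 1)) ≠ 0 := zpow_ne_zero _ hq
  have hz : q ^ ((a : ℤ) * (((a + b : ℕ) : ℤ) - a - 1))
      = q ^ (((a + b : ℕ) : ℤ) - 2 * a) * q ^ ((b : ℤ) * (((a + b : ℕ) : ℤ) - b - 1)) := by
    rw [← zpow_add₀ hq]
    congr 1
    push_cast
    ring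
  have hs : ((-1 : ℂ)) ^ b ≠ 0 := pow_ne_zero _ (by norm_num)
  have hsq : ((-1 : ℂ)) ^ b * (-1) ^ b = 1 := by
    rw [← mul_pow]
    norm_num
  rw [mul_inv_eq_iff_eq_mul₀ (mul_ne_zero (mul_ne_zero hs hz1)
    (div_ne_zero h1 (mul_ne_zero h3 h2)))]
  rw [hz, pow_add]
  have hcomm : brf q b * brf q a = brf q a * brf q b := mul_comm _ _
  rw [hcomm]
  linear_combination (-(-1 : ℂ) ^ a * q ^ (((a + b : ℕ) : ℤ) - 2 * a) *
    q ^ ((b : ℤ) * (((a + b : ℕ) : ℤ) - b - 1)) *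
    (brf q (a + b) / (brf q a * brf q b))) * hsq

/-- the diagonal weight -/
noncomputable def Tr_w (q : ℂ) (n : ℕ) (x : I2 n) : ℂ :=
  q ^ (2 * (n : ℤ) - 2 * ((x.1 : ℕ) : ℤ) - 2 * ((x.2 : ℕ) : ℤ))

theorem Tr_trq (q : ℂ) (n : ℕ) (h : Gen q n) (X : Matrix (I2 n) (I2 n) ℂ) :
    trq q n X = ∑ x : I2 n, Tr_w q n x * X x x := by
  unfold trq
  refine Finset.sum_congr rfl fun x _ => ?_
  have h1 := Tr_cupc q n h x.1 (by omega)
  have h2 := Tr_cupc q n h x.2 (by omega)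
  have h3 : Tr_w q n x = ((-1) ^ n * q ^ ((n : ℤ) - 2 * (x.1 : ℕ))) *
      ((-1) ^ n * q ^ ((n : ℤ) - 2 * (x.2 : ℕ))) := by
    have hs : ((-1 : ℂ)) ^ n * (-1) ^ n = 1 := by
      rw [← mul_pow]
      norm_num
    unfold Tr_w
    have hz : q ^ (2 * (n : ℤ) - 2 * ((x.1 : ℕ) : ℤ) - 2 * ((x.2 : ℕ) : ℤ))
        = q ^ ((n : ℤ) - 2 * (x.1 : ℕ)) * q ^ ((n : ℤ) - 2 * (x.2 : ℕ)) := by
      rw [← zpow_add₀ h.1]
      congr 1
      ring
    rw [hz]
    linear_combination (-(q ^ ((n : ℤ) - 2 * (x.1 : ℕ)) * q ^ ((n : ℤ) - 2 * (x.2 : ℕ)))) * hs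
  rw [h3, ← h1, ← h2]
  ring

theorem Tr_DD (q : ℂ) (n : ℕ) (x : I2 (n + 1)) (y : I2 n) :
    Tr_w q (n + 1) x * DD q n x y = Tr_w q n y * DD q n x y := by
  unfold DD
  by_cases h1 : (x.1 : ℕ) = y.1 ∧ (x.2 : ℕ) = y.2 + 1
  · have hw : Tr_w q (n + 1) x = Tr_w q n y := by
      unfold Tr_w
      rw [h1.1, h1.2]
      congr 1
      push_cast
      ring
    rw [hw]
  · by_cases h2 : (x.1 : ℕ) = y.1 + 1 ∧ (x.2 : ℕ) = y.2
    · have hw : Tr_w q (n + 1) x = Tr_w q n y := by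
        unfold Tr_w
        rw [h2.1, h2.2]
        congr 1
        push_cast
        ring
      rw [hw]
    · rw [if_neg h1, if_neg h2, add_zero, mul_zero, mul_zero]

theorem Tr_step (q : ℂ) (n : ℕ) (M : Matrix (I2 n) (I2 n) ℂ) :
    ∑ x : I2 (n + 1), Tr_w q (n + 1) x * (DD q n * M * CC q n) x x
      = ∑ y : I2 n, Tr_w q n y * (M * (CC q n * DD q n)) y y := by
  have h1 : ∀ x : I2 (n + 1), Tr_w q (n + 1) x * (DD q n * M * CC q n) x x
      = ∑ y : I2 n, Tr_w q n y * (DD q n x y * (M * CC q n) y x) := by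
    intro x
    rw [Matrix.mul_assoc, Matrix.mul_apply, Finset.mul_sum]
    refine Finset.sum_congr rfl fun y _ => ?_
    rw [← mul_assoc, Tr_DD, mul_assoc]
  rw [Finset.sum_congr rfl fun x _ => h1 x, Finset.sum_comm]
  refine Finset.sum_congr rfl fun y _ => ?_
  rw [← Finset.mul_sum, ← Matrix.mul_assoc, Matrix.mul_apply (M := M * CC q n)]
  congr 1
  exact Finset.sum_congr rfl fun x _ => mul_comm _ _

theorem Tr_geom (q : ℂ) (hq : q ≠ 0) (n m : ℕ) :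
    br q 1 * ∑ a ∈ Finset.range m, q ^ ((n : ℤ) - 2 * a)
      = q ^ ((n : ℤ) + 1) - q ^ ((n : ℤ) + 1 - 2 * m) := by
  induction m with
  | zero => simp
  | succ m ih =>
    rw [Finset.sum_range_succ, mul_add, ih]
    have h1 : br q 1 * q ^ ((n : ℤ) - 2 * m)
        = q ^ ((n : ℤ) + 1 - 2 * m) - q ^ ((n : ℤ) + 1 - 2 * ((m + 1 : ℕ) : ℤ)) := by
      unfold br
      rw [sub_mul, ← zpow_add₀ hq, ← zpow_add₀ hq]
      congr 2
      · ring
      · push_cast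
        ring
    rw [h1]
    ring

theorem Tr_sum (q : ℂ) (n : ℕ) (h : Gen q n) :
    ∑ a : Fin (n + 1), q ^ ((n : ℤ) - 2 * ((a : ℕ) : ℤ)) = br q ((n : ℤ) + 1) / br q 1 := by
  have h1 : br q 1 ≠ 0 := h.ne (by norm_num) (by omega)
  rw [eq_div_iff h1, mul_comm,
    Fin.sum_univ_eq_sum_range (fun a : ℕ => q ^ ((n : ℤ) - 2 * (a : ℤ))) (n + 1),
    Tr_geom q h.1]
  unfold br
  congr 2
  push_cast
  ring

theorem Tr_one (q : ℂ) (n : ℕ) (h : Gen q n) :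
    ∑ x : I2 n, Tr_w q n x * (1 : Matrix (I2 n) (I2 n) ℂ) x x
      = (br q ((n : ℤ) + 1) / br q 1) ^ 2 := by
  rw [sq, ← Tr_sum q n h, Finset.sum_mul_sum, Fintype.sum_prod_type]
  refine Finset.sum_congr rfl fun a _ => Finset.sum_congr rfl fun b _ => ?_
  rw [Matrix.one_apply_eq, mul_one]
  unfold Tr_w
  rw [← zpow_add₀ h.1]
  congr 1
  ring

theorem Tr_sq (q : ℂ) (n : ℕ) (h : Gen q n) :
    ∑ k ∈ Finset.range (n + 1), br q (2 * (k : ℤ) + 1) / br q 1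
      = (br q ((n : ℤ) + 1) / br q 1) ^ 2 := by
  have h1 : br q 1 ≠ 0 := h.ne (by norm_num) (by omega)
  have key : ∀ m : ℕ, ∑ k ∈ Finset.range m, br q (2 * (k : ℤ) + 1) / br q 1
      = (br q (m : ℤ) / br q 1) ^ 2 := by
    intro m
    induction m with
    | zero => simp [br_zero]
    | succ m ih =>
      rw [Finset.sum_range_succ, ih]
      have h2 := br_id q h.1 ((m : ℤ) + 1) ((m : ℤ) + 1)
      have h3 : (m : ℤ) + 1 - 1 = m := by ring
      have h4 : (m : ℤ) + 1 + ((m : ℤ) + 1) - 1 = 2 * m + 1 := by ring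
      rw [h3, h4] at h2
      have h5 : (((m + 1 : ℕ) : ℤ)) = (m : ℤ) + 1 := by push_cast; ring
      rw [h5]
      field_simp
      linear_combination -h2
  have := key (n + 1)
  rw [this]
  push_cast
  rfl

theorem trq_Oh (q : ℂ) (n : ℕ) (h : Gen q n) (f : ℕ → ℂ) :
    trq q n (Oh q n f) = ∑ k ∈ Finset.range (n + 1), br q (2 * (k : ℤ) + 1) / br q 1 * f k := by
  rw [Tr_trq q n h]
  induction n generalizing f with
  | zero =>
    have h1 : br q 1 ≠ 0 := h.ne (by norm_num) (by norm_num)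
    rw [Finset.sum_range_one]
    have h2 : ∀ x : I2 0, Tr_w q 0 x * (Oh q 0 f) x x
        = f 0 * (Tr_w q 0 x * (1 : Matrix (I2 0) (I2 0) ℂ) x x) := by
      intro x
      show Tr_w q 0 x * (f 0 • (1 : Matrix (I2 0) (I2 0) ℂ)) x x = _
      rw [Matrix.smul_apply, smul_eq_mul]
      ring
    rw [Finset.sum_congr rfl fun x _ => h2 x, ← Finset.mul_sum, Tr_one q 0 h]
    have h3 : (((0 : ℕ) : ℤ)) + 1 = 1 := by norm_num
    have h4 : 2 * (((0 : ℕ) : ℤ)) + 1 = 1 := by norm_num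
    rw [h3, h4, div_self h1]
    ring
  | succ n ih =>
    have hn : Gen q n := h.mono (Nat.le_succ n)
    have h1 : br q 1 ≠ 0 := h.ne (by norm_num) (by omega)
    have h2 : ∀ x : I2 (n + 1), Tr_w q (n + 1) x * (Oh q (n + 1) f) x x
        = f (n + 1) * (Tr_w q (n + 1) x * (1 : Matrix (I2 (n + 1)) (I2 (n + 1)) ℂ) x x)
          + Tr_w q (n + 1) x * (DD q n * Oh q n (dv q n f) * CC q n) x x := by
      intro x
      show Tr_w q (n + 1) x * (f (n + 1) • (1 : Matrix (I2 (n + 1)) (I2 (n + 1)) ℂ)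
        + DD q n * Oh q n (dv q n f) * CC q n) x x = _
      rw [Matrix.add_apply, Matrix.smul_apply, smul_eq_mul]
      ring
    rw [Finset.sum_congr rfl fun x _ => h2 x, Finset.sum_add_distrib, ← Finset.mul_sum,
      Tr_one q (n + 1) h, Tr_step, CD_Oh q n h, Oh_mul q n hn, ih hn]
    have h3 : ∀ k ∈ Finset.range (n + 1),
        br q (2 * (k : ℤ) + 1) / br q 1 * (dv q n f k * E1 q (n + 1) k)
          = br q (2 * (k : ℤ) + 1) / br q 1 * f k
            - f (n + 1) * (br q (2 * (k : ℤ) + 1) / br q 1) := by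
      intro k hk
      rw [Finset.mem_range] at hk
      have h4 : E1 q (n + 1) k ≠ 0 := E1_ne h hk
      unfold dv
      rw [div_mul_cancel₀ _ h4]
      ring
    rw [Finset.sum_congr rfl h3, Finset.sum_sub_distrib, ← Finset.mul_sum, Tr_sq q n hn,
      Finset.sum_range_succ (fun k => br q (2 * (k : ℤ) + 1) / br q 1 * f k) (n + 1)]
    have h5 := br_id q h.1 ((n : ℤ) + 2) ((n : ℤ) + 2)
    have h6 : (n : ℤ) + 2 - 1 = n + 1 := by ring
    have h7 : (n : ℤ) + 2 + ((n : ℤ) + 2) - 1 = 2 * n + 3 := by ring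
    rw [h6, h7] at h5
    have h8 : (((n + 1 : ℕ) : ℤ)) + 1 = (n : ℤ) + 2 := by push_cast; ring
    have h9 : 2 * (((n + 1 : ℕ) : ℤ)) + 1 = 2 * (n : ℤ) + 3 := by push_cast; ring
    rw [h8, h9]
    have h10 : (br q ((n : ℤ) + 2) / br q 1) ^ 2 - (br q ((n : ℤ) + 1) / br q 1) ^ 2
        = br q (2 * (n : ℤ) + 3) / br q 1 := by
      field_simp
      linear_combination h5
    linear_combination (f (n + 1)) * h10

end Pool.Agent.H63.VC10
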