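import Pool.Agent.H63.VC10.Acts
import Pool.Agent.H63.VC10.ROh
import Pool.Agent.H63.VC10.Newton
import Pool.Agent.H63.VC10.Tr

/-! # The value of the diagram of a tree -/

namespace Pool.Agent.H63.VC10

open Pool.Agent.H63.VC7 Matrix

variable {m : ℕ}

theorem Bra_replicate {q : ℂ} {N i : ℕ} {P : Piece} {X : Matrix (I2 N) (I2 N) ℂ}
    (h : Acts q N [P] i X) (r : ℕ) : Acts q N (List.replicate r P) i (X ^ r) := by
  induction r with
  | zero =>
    rw [List.replicate_zero, pow_zero]
    exact Acts_nil q N i
  | succ r ih =>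
    rw [List.replicate_succ, pow_succ]
    exact Acts_append (w1 := [P]) h ih

theorem Acts_twist (q : ℂ) (N : ℕ) (h : Gen q N) (a : ℤ) (i : ℕ) :
    Acts q N (twist a i) i (Oh q N (fun k => tw q k ^ a)) := by
  unfold twist
  by_cases ha : 0 < a
  · rw [if_pos ha]
    have h1 := Bra_replicate (Acts_pos q N i) a.natAbs
    rw [RM_eq q N h, Oh_pow q N h] at h1
    have h2 : (fun k => tw q k ^ a) = (fun k => tw q k ^ a.natAbs) := by
      funext k
      have h3 : (a.natAbs : ℤ) = a := Int.natAbs_of_nonneg ha.le
      rw [← zpow_natCast, h3]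
    rw [h2]
    exact h1
  · rw [if_neg ha]
    have h1 := Bra_replicate (Acts_neg q N i) a.natAbs
    rw [RiM_eq q N h, Oh_pow q N h] at h1
    have h2 : (fun k => tw q k ^ a) = (fun k => (tw q k)⁻¹ ^ a.natAbs) := by
      funext k
      have h3 : (a.natAbs : ℤ) = -a := Int.ofNat_natAbs_of_nonpos (by omega)
      rw [inv_pow, ← zpow_natCast, h3, _root_.zpow_neg, inv_inv]
    rw [h2]
    exact h1

theorem Bra_flatMap (q : ℂ) (N : ℕ) (h : Gen q N) (i : ℕ) (T : Fin m → List Piece)
    (g : Fin m → ℕ → ℂ) (hT : ∀ j, Acts q N (T j) i (Oh q N (g j))) (l : List (Fin m)) :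
    Acts q N (l.flatMap T) i (Oh q N (fun x => (l.map (fun j => g j x)).prod)) := by
  induction l with
  | nil =>
    have h1 : Oh q N (fun x => (([] : List (Fin m)).map (fun j => g j x)).prod)
        = (1 : Matrix (I2 N) (I2 N) ℂ) := by
      have := Oh_const q N 1
      simpa using this
    rw [h1, List.flatMap_nil]
    exact Acts_nil q N i
  | cons j l ih =>
    rw [List.flatMap_cons]
    have h1 := Acts_append (hT j) ih
    rw [Oh_mul q N h] at h1
    have h2 : (fun x => ((j :: l).map (fun j => g j x)).prod)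
        = (fun x => (l.map (fun j => g j x)).prod * g j x) := by
      funext x
      rw [List.map_cons, List.prod_cons, mul_comm]
    rw [h2]
    exact h1

theorem Acts_tangle (q : ℂ) (N : ℕ) (h : Gen q N) (par : Fin m → Fin (m + 1))
    (a : Fin (m + 1) → ℤ) (k : ℕ) (v : Fin (m + 1)) (i : ℕ) :
    Acts q N (tangle par a k v i) i (Oh q N (fv q N par a k v)) := by
  induction k generalizing v i with
  | zero =>
    have h1 : fv q N par a 0 v = fun _ => (1 : ℂ) := by
      funext x
      rfl
    rw [h1, Oh_const, one_smul]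
    exact Acts_nil q N i
  | succ k ih =>
    have h1 := Bra_flatMap q N h i
      (fun j => Piece.cup i :: (tangle par a k j.succ (i + 1) ++ [Piece.cap (i + 2)]))
      (fun j => Ph q N (fv q N par a k j.succ))
      (fun j => by
        rw [← rot_Oh q N h]
        exact Acts_rot (ih j.succ (i + 1)))
      ((List.finRange m).filter (fun j => par j = v))
    have h2 := Acts_append (Acts_twist q N h (a v) i) h1
    rw [Oh_mul q N h] at h2
    have h3 : fv q N par a (k + 1) v = fun x =>
        (((List.finRange m).filter (fun j => par j = v)).map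
          (fun j => Ph q N (fv q N par a k j.succ) x)).prod * tw q x ^ (a v) := by
      funext x
      show tw q x ^ (a v) *
        ∏ j ∈ Finset.univ.filter (fun j => par j = v), Ph q N (fv q N par a k j.succ) x = _
      rw [mul_comm]
      congr 1
    rw [h3]
    exact h2

theorem bracket_eq_fv (q : ℂ) (N : ℕ) (h : Gen q N) (par : Fin m → Fin (m + 1))
    (a : Fin (m + 1) → ℤ) :
    bracket q N (diagram par a) =
      ∑ k ∈ Finset.range (N + 1), br q (2 * (k : ℤ) + 1) / br q 1 * fv q N par a (m + 1) 0 k := by
  unfold diagram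
  rw [bracket_closure (Acts_tangle q N h par a (m + 1) 0 0), trq_Oh q N h]

end Pool.Agent.H63.VC10
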