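import Pool.Agent.H63.VC10.Alg

/-! # Diagrams as operators on `V ⊗ V` -/

namespace Pool.Agent.H63.VC10

open Pool.Agent.H63.VC7 Matrix

/-- The diagram `w` acts as `X` on the strands `i` and `i + 1`. -/
def Acts (q : ℂ) (N : ℕ) (w : List Piece) (i : ℕ) (X : Matrix (I2 N) (I2 N) ℂ) : Prop :=
  ∀ (ψ : List ℕ → ℂ) (p s : List ℕ) (x : I2 N), p.length = i →
    eval q N w ψ (p ++ (x.1 : ℕ) :: (x.2 : ℕ) :: s) =
      ∑ y : I2 N, X x y * ψ (p ++ (y.1 : ℕ) :: (y.2 : ℕ) :: s)

theorem eval_append (q : ℂ) (N : ℕ) (w1 w2 : List Piece) (ψ : List ℕ → ℂ) :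
    eval q N (w1 ++ w2) ψ = eval q N w2 (eval q N w1 ψ) := by
  induction w1 generalizing ψ with
  | nil => rfl
  | cons x w ih => exact ih (act q N x ψ)

theorem Acts_nil (q : ℂ) (N i : ℕ) : Acts q N [] i 1 := by
  intro ψ p s x _
  simp only [Matrix.one_apply, ite_mul, one_mul, zero_mul, Finset.sum_ite_eq, Finset.mem_univ,
    if_true]
  rfl

theorem Acts_append {q : ℂ} {N i : ℕ} {w1 w2 : List Piece} {X1 X2 : Matrix (I2 N) (I2 N) ℂ}
    (h1 : Acts q N w1 i X1) (h2 : Acts q N w2 i X2) : Acts q N (w1 ++ w2) i (X2 * X1) := by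
  intro ψ p s x hp
  rw [eval_append, h2 _ p s x hp]
  simp only [h1 ψ p s _ hp, Matrix.mul_apply, Finset.sum_mul, Finset.mul_sum]
  rw [Finset.sum_comm]
  refine Finset.sum_congr rfl fun y _ => Finset.sum_congr rfl fun z _ => ?_
  ring

theorem Acts_pos (q : ℂ) (N i : ℕ) : Acts q N [Piece.pos i] i (RM q N) := by
  intro ψ p s x hp
  change act q N (Piece.pos i) ψ _ = _
  simp only [act, List.drop_left' hp, List.take_left' hp, RM, Fintype.sum_prod_type,
    Finset.sum_range]

theorem Acts_neg (q : ℂ) (N i : ℕ) : Acts q N [Piece.neg i] i (RiM q N) := by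
  intro ψ p s x hp
  change act q N (Piece.neg i) ψ _ = _
  simp only [act, List.drop_left' hp, List.take_left' hp, RiM, Fintype.sum_prod_type,
    Finset.sum_range]

private theorem Acts_rev_val {N : ℕ} (a : Fin (N + 1)) : ((a.rev : Fin (N + 1)) : ℕ) = N - a := by
  rw [Fin.val_rev]
  omega

theorem Acts_rot {q : ℂ} {N i : ℕ} {w : List Piece} {X : Matrix (I2 N) (I2 N) ℂ}
    (h : Acts q N w (i + 1) X) :
    Acts q N (Piece.cup i :: (w ++ [Piece.cap (i + 2)])) i (rotM q N X) := by
  intro ψ p s x hp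
  have e1 : eval q N (Piece.cup i :: (w ++ [Piece.cap (i + 2)])) ψ =
      act q N (Piece.cap (i + 2)) (eval q N w (act q N (Piece.cup i) ψ)) := by
    change eval q N (w ++ [Piece.cap (i + 2)]) (act q N (Piece.cup i) ψ) = _
    rw [eval_append]
    rfl
  rw [e1]
  have hl : p ++ (x.1 : ℕ) :: (x.2 : ℕ) :: s = (p ++ [(x.1 : ℕ), (x.2 : ℕ)]) ++ s := by simp
  have hlen : (p ++ [(x.1 : ℕ), (x.2 : ℕ)]).length = i + 2 := by simp [hp]
  rw [hl]
  simp only [act, List.drop_left' hlen, List.take_left' hlen]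
  have key : ∀ a : Fin (N + 1), eval q N w (act q N (Piece.cup i) ψ)
      (p ++ [(x.1 : ℕ), (x.2 : ℕ)] ++ (a : ℕ) :: (N - a) :: s) =
      ∑ c : Fin (N + 1), X (x.2, a) (x.1.rev, c) *
        (cupc q N x.1 * ψ (p ++ (c : ℕ) :: (N - a) :: s)) := by
    intro a
    have e2 : p ++ [(x.1 : ℕ), (x.2 : ℕ)] ++ (a : ℕ) :: (N - a) :: s =
        (p ++ [(x.1 : ℕ)]) ++ (((x.2, a) : I2 N).1 : ℕ) :: (((x.2, a) : I2 N).2 : ℕ) ::
          (N - a) :: s := by simp
    rw [e2, h (act q N (Piece.cup i) ψ) (p ++ [(x.1 : ℕ)]) ((N - a) :: s) (x.2, a)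
      (by simp [hp]), Fintype.sum_prod_type, Finset.sum_eq_single x.1.rev]
    · refine Finset.sum_congr rfl fun c _ => ?_
      congr 1
      have e3 : (p ++ [(x.1 : ℕ)]) ++ (((x.1.rev, c) : I2 N).1 : ℕ) ::
          (((x.1.rev, c) : I2 N).2 : ℕ) :: (N - a) :: s =
          p ++ (x.1 : ℕ) :: (x.1.rev : ℕ) :: (c : ℕ) :: (N - a) :: s := by simp
      rw [e3]
      simp only [act, List.drop_left' hp, List.take_left' hp]
      rw [if_pos (by rw [Acts_rev_val]; have := x.1.isLt; omega)]
    · intro b _ hb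
      refine Finset.sum_eq_zero fun c _ => ?_
      have e3 : (p ++ [(x.1 : ℕ)]) ++ (((b, c) : I2 N).1 : ℕ) ::
          (((b, c) : I2 N).2 : ℕ) :: (N - a) :: s =
          p ++ (x.1 : ℕ) :: (b : ℕ) :: (c : ℕ) :: (N - a) :: s := by simp
      rw [e3]
      simp only [act, List.drop_left' hp, List.take_left' hp]
      rw [if_neg, mul_zero]
      intro hc
      apply hb
      apply Fin.ext
      rw [Acts_rev_val]
      omega
    · intro hne
      exact absurd (Finset.mem_univ _) hne
  rw [Finset.sum_range]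
  simp only [key, rotM, Fintype.sum_prod_type]
  rw [Finset.sum_comm]
  simp only [Finset.mul_sum]
  rw [← Equiv.sum_comp Fin.revPerm]
  refine Finset.sum_congr rfl fun y _ => Finset.sum_congr rfl fun c _ => ?_
  have e4 : N - (N - (y : ℕ)) = (y : ℕ) := by have := y.isLt; omega
  simp only [Fin.revPerm_apply, Acts_rev_val, e4]
  ring

theorem bracket_closure {q : ℂ} {N : ℕ} {w : List Piece} {X : Matrix (I2 N) (I2 N) ℂ}
    (h : Acts q N w 0 X) :
    bracket q N ([Piece.cup 0, Piece.cup 1] ++ w ++ [Piece.cap 1, Piece.cap 0]) = trq q N X := by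
  set δ : List ℕ → ℂ := fun l => if l = [] then 1 else 0 with hδ
  have e1 : bracket q N ([Piece.cup 0, Piece.cup 1] ++ w ++ [Piece.cap 1, Piece.cap 0]) =
      act q N (Piece.cap 0) (act q N (Piece.cap 1)
        (eval q N w (act q N (Piece.cup 1) (act q N (Piece.cup 0) δ)))) [] := by
    unfold bracket
    rw [eval_append, eval_append]
    rfl
  have key : ∀ a b : Fin (N + 1),
      eval q N w (act q N (Piece.cup 1) (act q N (Piece.cup 0) δ))
        [(a : ℕ), (b : ℕ), N - b, N - a] = X (a, b) (a, b) * (cupc q N b * cupc q N a) := by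
    intro a b
    have e2 := h (act q N (Piece.cup 1) (act q N (Piece.cup 0) δ)) [] [N - b, N - a] (a, b) rfl
    simp only [List.nil_append] at e2
    rw [e2, Finset.sum_eq_single (a, b)]
    · simp only [act, List.drop_succ_cons, List.drop_zero, List.take_succ_cons, List.take_zero]
      rw [if_pos (by have := b.isLt; omega)]
      simp only [List.cons_append, List.nil_append]
      rw [if_pos (by have := a.isLt; omega)]
      simp [hδ]
    · intro y _ hy
      simp only [act, List.drop_succ_cons, List.drop_zero, List.take_succ_cons, List.take_zero,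
        List.cons_append, List.nil_append]
      by_cases h1 : (y.2 : ℕ) + (N - b) = N
      · rw [if_pos h1, if_neg, mul_zero, mul_zero]
        intro h2
        apply hy
        have := a.isLt
        have := b.isLt
        exact Prod.ext (Fin.ext (show (y.1 : ℕ) = (a : ℕ) by omega))
          (Fin.ext (show (y.2 : ℕ) = (b : ℕ) by omega))
      · rw [if_neg h1, mul_zero]
    · intro hne
      exact absurd (Finset.mem_univ _) hne
  rw [e1]
  simp only [act, List.drop_zero, List.take_zero, List.nil_append, List.drop_succ_cons,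
    List.take_succ_cons, List.cons_append, List.drop_nil, Finset.sum_range, key, trq,
    Fintype.sum_prod_type, Finset.mul_sum]
  refine Finset.sum_congr rfl fun a _ => Finset.sum_congr rfl fun b _ => ?_
  ring

end Pool.Agent.H63.VC10
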