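import Pool.Agent.H63.VC10.Morse

/-!
# Operators on `V ⊗ V`

`V_n` is the irreducible representation of dimension `n + 1`. `DD n : V_n ⊗ V_n → V_{n+1} ⊗ V_{n+1}`
inserts a minimum between the two factors, `CC n` is the opposite operator, `Oh n f` is the operator
which is `f k` on the component `V_{2 k}` of `V_n ⊗ V_n`.
-/

namespace Pool.Agent.H63.VC10

open Pool.Agent.H63.VC7 Matrix

/-- The indices of the basis of `V_n ⊗ V_n`. -/
abbrev I2 (n : ℕ) : Type := Fin (n + 1) × Fin (n + 1)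

/-- `q` is generic for the colors up to `N`. -/
def Gen (q : ℂ) (N : ℕ) : Prop := q ≠ 0 ∧ ∀ k : ℕ, 1 ≤ k → k ≤ 2 * N + 2 → br q (k : ℤ) ≠ 0

/-- Insertion of a minimum: `e_a ⊗ e_b ↦ q^(a+n-b) e_a ⊗ e_{b+1} - q⁻¹ e_{a+1} ⊗ e_b`. -/
noncomputable def DD (q : ℂ) (n : ℕ) : Matrix (I2 (n + 1)) (I2 n) ℂ := fun x y =>
  (if (x.1 : ℕ) = y.1 ∧ (x.2 : ℕ) = y.2 + 1 then q ^ (((y.1 : ℕ) : ℤ) + n - (y.2 : ℕ)) else 0) +
    (if (x.1 : ℕ) = y.1 + 1 ∧ (x.2 : ℕ) = y.2 then -q⁻¹ else 0)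

/-- Insertion of a maximum. -/
noncomputable def CC (q : ℂ) (n : ℕ) : Matrix (I2 n) (I2 (n + 1)) ℂ := fun x y =>
  (if (x.1 : ℕ) = y.1 ∧ (x.2 : ℕ) + 1 = y.2 then
      -q * (br q ((n : ℤ) + 1 - (y.1 : ℕ)) * br q ((y.2 : ℕ) : ℤ) / br q ((n : ℤ) + 1) ^ 2) else 0) +
    (if (x.1 : ℕ) + 1 = y.1 ∧ (x.2 : ℕ) = y.2 then
      q ^ (-((n : ℤ) + 1 - (y.1 : ℕ)) - (y.2 : ℕ)) *
        (br q ((y.1 : ℕ) : ℤ) * br q ((n : ℤ) + 1 - (y.2 : ℕ)) / br q ((n : ℤ) + 1) ^ 2) else 0)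

/-- The eigenvalue of `DD (n - 1) * CC (n - 1)` on the component of color `2 k` of `V_n ⊗ V_n`. -/
noncomputable def E1 (q : ℂ) (n k : ℕ) : ℂ :=
  -(br q ((n : ℤ) - k) * br q ((n : ℤ) + k + 1) / br q (n : ℤ) ^ 2)

/-- The function from which the coefficient of `DD` is computed. -/
noncomputable def dv (q : ℂ) (n : ℕ) (f : ℕ → ℂ) (k : ℕ) : ℂ := (f k - f (n + 1)) / E1 q (n + 1) k

/-- The operator on `V_n ⊗ V_n` with the eigenvalues `f 0, …, f n`. -/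
noncomputable def Oh (q : ℂ) : (n : ℕ) → (ℕ → ℂ) → Matrix (I2 n) (I2 n) ℂ
  | 0, f => f 0 • 1
  | n + 1, f => f (n + 1) • 1 + DD q n * Oh q n (dv q n f) * CC q n

/-- The operator given by `n - j` parallel strands, `j` minima and `j` maxima. -/
noncomputable def em (q : ℂ) : (n : ℕ) → ℕ → Matrix (I2 n) (I2 n) ℂ
  | _, 0 => 1
  | 0, _ + 1 => 0
  | n + 1, j + 1 => DD q n * em q n j * CC q n

/-- The eigenvalues of `em`. -/
noncomputable def EE (q : ℂ) (n j k : ℕ) : ℂ := ∏ i ∈ Finset.range j, E1 q (n - i) k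

/-- The coefficients of `Oh n f` in the basis `em n j`. -/
noncomputable def nt (q : ℂ) : (n : ℕ) → (ℕ → ℂ) → ℕ → ℂ
  | n, f, 0 => f n
  | 0, _, _ + 1 => 0
  | n + 1, f, j + 1 => nt q n (dv q n f) j

/-- The action of the rotation by a quarter turn on the eigenvalues. -/
noncomputable def Ph (q : ℂ) (n : ℕ) (f : ℕ → ℂ) (k : ℕ) : ℂ :=
  ∑ j ∈ Finset.range (n + 1), nt q n f j * EE q n (n - j) k

/-- The rotation by a quarter turn of a tangle with four ends. -/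
noncomputable def rotM (q : ℂ) (n : ℕ) (X : Matrix (I2 n) (I2 n) ℂ) : Matrix (I2 n) (I2 n) ℂ :=
  fun x y => cupc q n x.1 * X (x.2, y.2.rev) (x.1.rev, y.1) * (cupc q n y.2)⁻¹

/-- The value of the closure of a tangle with four ends. -/
noncomputable def trq (q : ℂ) (n : ℕ) (X : Matrix (I2 n) (I2 n) ℂ) : ℂ :=
  ∑ x : I2 n, cupc q n x.1 * cupc q n x.2 * X x x *
    ((cupc q n (n - x.2))⁻¹ * (cupc q n (n - x.1))⁻¹)

/-- The matrix of the positive crossing. -/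
noncomputable def RM (q : ℂ) (n : ℕ) : Matrix (I2 n) (I2 n) ℂ := fun x y => Rc q n y.1 y.2 x.1 x.2

/-- The matrix of the negative crossing. -/
noncomputable def RiM (q : ℂ) (n : ℕ) : Matrix (I2 n) (I2 n) ℂ := fun x y => Ric q n y.1 y.2 x.1 x.2

/-- The eigenvalues of the tangle of a subtree. -/
noncomputable def fv {m : ℕ} (q : ℂ) (n : ℕ) (par : Fin m → Fin (m + 1)) (a : Fin (m + 1) → ℤ) :
    ℕ → Fin (m + 1) → ℕ → ℂ
  | 0, _, _ => 1
  | k + 1, v, x => tw q x ^ (a v) *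
      ∏ j ∈ Finset.univ.filter (fun j => par j = v), Ph q n (fv q n par a k j.succ) x

theorem Gen.mono {q : ℂ} {N n : ℕ} (h : Gen q N) (hn : n ≤ N) : Gen q n :=
  ⟨h.1, fun k h1 h2 => h.2 k h1 (by omega)⟩

end Pool.Agent.H63.VC10
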