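import Pool.Agent.H63.VC10.Brk

/-! # The sum for the quantum `6j`-symbols -/

namespace Pool.Agent.H63.VC10

open Pool.Agent.H63.VC7 Matrix

/-- The basis functions in the formula for the `6j`-symbols. -/
noncomputable def om (q : ℂ) (t k : ℕ) : ℂ :=
  ∏ i ∈ Finset.range t, (br q ((k : ℤ) + i + 1) * br q ((k : ℤ) - i))

theorem Ker_om_zero (q : ℂ) (k : ℕ) : om q 0 k = 1 := by simp [om]

theorem Ker_om_succ (q : ℂ) (t k : ℕ) :
    om q (t + 1) k = om q t k * (br q ((k : ℤ) + t + 1) * br q ((k : ℤ) - t)) := by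
  unfold om; rw [Finset.prod_range_succ]

theorem Ker_om_lt (q : ℂ) (t k : ℕ) (h : k < t) : om q t k = 0 := by
  unfold om
  apply Finset.prod_eq_zero (Finset.mem_range.2 h)
  rw [sub_self, br_zero, mul_zero]

theorem Ker_om_brf (q : ℂ) (t d : ℕ) : om q t (t + d) * brf q d = brf q (2 * t + d) := by
  induction t generalizing d with
  | zero => simp [Ker_om_zero]
  | succ t ih =>
    have h := ih (d + 1)
    rw [show t + 1 + d = t + (d + 1) by ring, Ker_om_succ,
      show 2 * (t + 1) + d = (2 * t + (d + 1)) + 1 by ring, brf_succ, ← h, brf_succ,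
      show (((t + (d + 1) : ℕ)) : ℤ) + t + 1 = ((2 * t + (d + 1) : ℕ) : ℤ) + 1 by push_cast; ring,
      show (((t + (d + 1) : ℕ)) : ℤ) - t = (d : ℤ) + 1 by push_cast; ring]
    ring

theorem Ker_prod_up (q : ℂ) (a t : ℕ) :
    brf q a * ∏ i ∈ Finset.range t, br q ((a : ℤ) + i + 1) = brf q (a + t) := by
  induction t with
  | zero => simp
  | succ t ih =>
    rw [Finset.prod_range_succ, ← mul_assoc, ih, show a + (t + 1) = (a + t) + 1 by ring, brf_succ,
      show ((a + t : ℕ) : ℤ) + 1 = (a : ℤ) + t + 1 by push_cast; ring]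

theorem Ker_prod_down (q : ℂ) (a t : ℕ) :
    brf q a * ∏ i ∈ Finset.range t, br q (((a + t : ℕ) : ℤ) - i) = brf q (a + t) := by
  induction t generalizing a with
  | zero => simp
  | succ t ih =>
    have h1 := ih (a + 1)
    rw [show a + 1 + t = a + (t + 1) by ring] at h1
    rw [Finset.prod_range_succ, ← h1, brf_succ,
      show ((a + (t + 1) : ℕ) : ℤ) - t = (a : ℤ) + 1 by push_cast; ring]
    ring

theorem sixj_om (q : ℂ) (n : ℕ) (h : Gen q n) (k l : ℕ) :
    sixj q n k l = ∑ t ∈ Finset.range (n + 1), (-1) ^ t *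
      (brf q (n + 1) * brf q (n - t) / (brf q t ^ 2 * brf q n * brf q (n + t + 1))) *
        (om q t k * om q t l) := by
  unfold sixj
  refine Finset.sum_congr rfl fun t ht => ?_
  obtain ⟨d, rfl⟩ : ∃ d, n = d + t := ⟨n - t, by have := Finset.mem_range.1 ht; omega⟩
  have h1 : ∏ i ∈ Finset.range t, br q ((((d + t : ℕ) : ℕ) : ℤ) + i + 2) ≠ 0 :=
    Finset.prod_ne_zero_iff.2 fun i hi => h.ne (by omega)
      (by have := Finset.mem_range.1 hi; push_cast; omega)
  have h2 : ∏ i ∈ Finset.range t, br q ((((d + t : ℕ) : ℕ) : ℤ) - i) ≠ 0 :=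
    Finset.prod_ne_zero_iff.2 fun i hi => h.ne
      (by have := Finset.mem_range.1 hi; push_cast; omega)
      (by have := Finset.mem_range.1 hi; push_cast; omega)
  have e1 := Ker_prod_up q (d + t + 1) t
  have e2 := Ker_prod_down q d t
  have e3 : ∏ i ∈ Finset.range t, br q (((d + t + 1 : ℕ) : ℤ) + i + 1) =
      ∏ i ∈ Finset.range t, br q (((d + t : ℕ) : ℤ) + i + 2) :=
    Finset.prod_congr rfl fun i _ => by
      rw [show ((d + t + 1 : ℕ) : ℤ) + i + 1 = ((d + t : ℕ) : ℤ) + i + 2 by push_cast; ring]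
  rw [e3] at e1
  have e4 : ∏ i ∈ Finset.range t, (br q ((k : ℤ) + i + 1) * br q ((k : ℤ) - i) *
      (br q ((l : ℤ) + i + 1) * br q ((l : ℤ) - i))) /
      (br q ((i : ℤ) + 1) ^ 2 * (br q (((d + t : ℕ) : ℤ) + i + 2) * br q (((d + t : ℕ) : ℤ) - i))) =
      om q t k * om q t l / (brf q t ^ 2 *
        ((∏ i ∈ Finset.range t, br q (((d + t : ℕ) : ℤ) + i + 2)) *
          ∏ i ∈ Finset.range t, br q (((d + t : ℕ) : ℤ) - i))) := by
    simp only [Finset.prod_div_distrib, Finset.prod_mul_distrib, Finset.prod_pow, om, brf]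
  rw [e4, Nat.add_sub_cancel, show d + t + t + 1 = d + t + 1 + t by ring, ← e1, ← e2]
  have g1 : brf q (d + t + 1) ≠ 0 := h.brf_ne (by omega)
  have g2 : brf q t ≠ 0 := h.brf_ne (by omega)
  have g3 : brf q d ≠ 0 := h.brf_ne (by omega)
  field_simp

theorem Ker_om_E1 (q : ℂ) (hq : q ≠ 0) (m k t : ℕ) (hm : br q (m : ℤ) ≠ 0) :
    br q (m : ℤ) ^ 2 * (E1 q m k * om q t k) =
      om q (t + 1) k - br q ((m : ℤ) - t) * br q ((m : ℤ) + t + 1) * om q t k := by
  have key := br_three_term q hq ((m : ℤ) - t) ((m : ℤ) - k) ((k : ℤ) + t + 1)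
  rw [show (m : ℤ) - k + (k + t + 1) = (m : ℤ) + t + 1 by ring,
    show (m : ℤ) - t + (k + t + 1) = (m : ℤ) + k + 1 by ring,
    show (m : ℤ) - t - (m - k) = (k : ℤ) - t by ring] at key
  rw [Ker_om_succ, key]
  unfold E1
  field_simp
  ring

theorem Ker_base (q : ℂ) (hq : q ≠ 0) (t d : ℕ) :
    brf q d * br q ((t : ℤ) + 1) *
      ∑ l ∈ Finset.range (t + d + 1), br q (2 * (l : ℤ) + 1) * om q t l =
      br q ((t : ℤ) + d + 1) * brf q (2 * t + d + 1) := by
  induction d with
  | zero =>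
    rw [Finset.sum_range_succ, Finset.sum_eq_zero fun l hl => by
      rw [Ker_om_lt q t l (by simpa using hl), mul_zero]]
    have h := Ker_om_brf q t 0
    simp only [brf_zero, mul_one, add_zero] at h
    rw [brf_succ, h, brf_zero]
    push_cast
    ring_nf
  | succ d ih =>
    have h := Ker_om_brf q t (d + 1)
    have key := br_three_term q hq ((t : ℤ) + d + 2) ((t : ℤ) + 1) ((t : ℤ) + d + 1)
    rw [show (t : ℤ) + 1 + (t + d + 1) = 2 * t + d + 2 by ring,
      show (t : ℤ) + d + 2 + (t + d + 1) = 2 * (t + d + 1) + 1 by ring,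
      show (t : ℤ) + d + 2 - (t + 1) = (d : ℤ) + 1 by ring] at key
    rw [show t + (d + 1) + 1 = (t + d + 1) + 1 by ring, Finset.sum_range_succ,
      show t + d + 1 = t + (d + 1) by ring,
      show 2 * t + (d + 1) + 1 = (2 * t + (d + 1)) + 1 by ring, brf_succ q (2 * t + (d + 1))]
    rw [show t + d + 1 = t + (d + 1) by ring, show 2 * t + d + 1 = 2 * t + (d + 1) by ring] at ih
    rw [show (t : ℤ) + ((d + 1 : ℕ) : ℤ) + 1 = (t : ℤ) + d + 2 by push_cast; ring,
      show ((2 * t + (d + 1) : ℕ) : ℤ) + 1 = 2 * t + d + 2 by push_cast; ring,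
      show 2 * ((t + (d + 1) : ℕ) : ℤ) + 1 = 2 * (t + d + 1) + 1 by push_cast; ring]
    rw [mul_add]
    have e1 : brf q (d + 1) * br q ((t : ℤ) + 1) *
        ∑ l ∈ Finset.range (t + (d + 1)), br q (2 * (l : ℤ) + 1) * om q t l =
        br q ((d : ℤ) + 1) * (br q ((t : ℤ) + d + 1) * brf q (2 * t + (d + 1))) := by
      rw [← ih, brf_succ]; ring
    have e2 : brf q (d + 1) * br q ((t : ℤ) + 1) *
        (br q (2 * ((t : ℤ) + d + 1) + 1) * om q t (t + (d + 1))) =
        br q ((t : ℤ) + 1) * br q (2 * ((t : ℤ) + d + 1) + 1) * brf q (2 * t + (d + 1)) := by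
      rw [← h]; ring
    rw [e1, e2]
    linear_combination (-brf q (2 * t + (d + 1))) * key

/-- The sum over `l`. By induction on `j`, using
`om (t + 1) l = br (n - j) ^ 2 * E1 (n - j) l * om t l + br (n - j - t) * br (n - j + t + 1) * om t l`. -/
theorem H_sum (q : ℂ) (n j t : ℕ) (h : Gen q n) (hj : j ≤ n) :
    ∑ l ∈ Finset.range (n + 1), br q (2 * (l : ℤ) + 1) / br q 1 * om q t l * EE q n j l =
      if t + j ≤ n then (-1) ^ j * (br q ((n : ℤ) + 1) / br q 1) *
        (brf q (n - j) * brf q (n + t + 1) * brf q j * brf q t /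
          (brf q n * brf q (n - t - j) * brf q (t + j + 1))) else 0 := by
  have hb1 : br q 1 ≠ 0 := h.ne (by omega) (by omega)
  induction j generalizing t with
  | zero =>
    have e : ∑ l ∈ Finset.range (n + 1), br q (2 * (l : ℤ) + 1) / br q 1 * om q t l * EE q n 0 l =
        (∑ l ∈ Finset.range (n + 1), br q (2 * (l : ℤ) + 1) * om q t l) / br q 1 := by
      rw [Finset.sum_div]
      refine Finset.sum_congr rfl fun l _ => ?_
      simp only [EE, Finset.range_zero, Finset.prod_empty]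
      ring
    rw [e]
    by_cases ht : t ≤ n
    · obtain ⟨d, rfl⟩ : ∃ d, n = t + d := ⟨n - t, by omega⟩
      have hB := Ker_base q h.1 t d
      have g1 : brf q d ≠ 0 := h.brf_ne (by omega)
      have g2 : br q ((t : ℤ) + 1) ≠ 0 := h.ne (by omega) (by push_cast; omega)
      have g3 : brf q (t + d) ≠ 0 := h.brf_ne (by omega)
      have g4 : brf q t ≠ 0 := h.brf_ne (by omega)
      rw [if_pos (by omega), Nat.sub_zero, Nat.sub_zero, Nat.add_sub_cancel_left, add_zero,
        brf_succ q t, show t + d + t + 1 = 2 * t + d + 1 by ring, brf_zero, pow_zero,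
        show ((t + d : ℕ) : ℤ) + 1 = (t : ℤ) + d + 1 by push_cast; ring]
      field_simp
      linear_combination hB
    · rw [if_neg (by omega), Finset.sum_eq_zero fun l hl => by
        rw [Ker_om_lt q t l (by have := Finset.mem_range.1 hl; omega), mul_zero], zero_div]
  | succ j ih =>
    obtain ⟨p, rfl⟩ : ∃ p, n = j + 1 + p := ⟨n - (j + 1), by omega⟩
    have hm : br q ((p + 1 : ℕ) : ℤ) ≠ 0 := h.ne (by push_cast; omega) (by push_cast; omega)
    have ih1 := ih (t + 1) (by omega)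
    have ih0 := ih t (by omega)
    have hrec : br q ((p + 1 : ℕ) : ℤ) ^ 2 * ∑ l ∈ Finset.range (j + 1 + p + 1),
          br q (2 * (l : ℤ) + 1) / br q 1 * om q t l * EE q (j + 1 + p) (j + 1) l =
        (∑ l ∈ Finset.range (j + 1 + p + 1),
          br q (2 * (l : ℤ) + 1) / br q 1 * om q (t + 1) l * EE q (j + 1 + p) j l) -
        br q (((p + 1 : ℕ) : ℤ) - t) * br q (((p + 1 : ℕ) : ℤ) + t + 1) *
          ∑ l ∈ Finset.range (j + 1 + p + 1),
            br q (2 * (l : ℤ) + 1) / br q 1 * om q t l * EE q (j + 1 + p) j l := by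
      rw [Finset.mul_sum, Finset.mul_sum, ← Finset.sum_sub_distrib]
      refine Finset.sum_congr rfl fun l _ => ?_
      have e1 : EE q (j + 1 + p) (j + 1) l = EE q (j + 1 + p) j l * E1 q (p + 1) l := by
        unfold EE
        rw [Finset.prod_range_succ, show j + 1 + p - j = p + 1 by omega]
      have e2 := Ker_om_E1 q h.1 (p + 1) l t hm
      rw [e1]
      linear_combination (br q (2 * (l : ℤ) + 1) / br q 1 * EE q (j + 1 + p) j l) * e2
    rw [ih1, ih0] at hrec
    have hm2 : br q ((p + 1 : ℕ) : ℤ) ^ 2 ≠ 0 := pow_ne_zero _ hm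
    apply mul_left_cancel₀ hm2
    rw [hrec]
    by_cases h1 : t ≤ p
    · obtain ⟨s, rfl⟩ : ∃ s, p = t + s := ⟨p - t, by omega⟩
      rw [if_pos (by omega), if_pos (by omega), if_pos (by omega)]
      have key := br_three_term q h.1 ((s : ℤ) + 2 * t + 2) ((t : ℤ) + 1) ((j : ℤ) + 1)
      rw [show (t : ℤ) + 1 + (j + 1) = ((t + j + 1 : ℕ) : ℤ) + 1 by push_cast; ring,
        show (s : ℤ) + 2 * t + 2 + (j + 1) = ((j + 1 + (t + s) + t + 1 : ℕ) : ℤ) + 1 by
          push_cast; ring,
        show (s : ℤ) + 2 * t + 2 - (t + 1) = ((t + s + 1 : ℕ) : ℤ) by push_cast; ring,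
        show (s : ℤ) + 2 * t + 2 = ((t + s + 1 : ℕ) : ℤ) + t + 1 by push_cast; ring] at key
      have f1 : brf q (j + 1 + (t + s) + (t + 1) + 1) = brf q (j + 1 + (t + s) + t + 1) *
          br q (((j + 1 + (t + s) + t + 1 : ℕ) : ℤ) + 1) := by
        rw [← brf_succ]; congr 1
      have f2 : brf q (t + 1) = brf q t * br q ((t : ℤ) + 1) := brf_succ q t
      have f3 : brf q (j + 1) = brf q j * br q ((j : ℤ) + 1) := brf_succ q j
      have f4 : brf q (j + 1 + (t + s) - t - j) = brf q s * br q ((s : ℤ) + 1) := by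
        rw [← brf_succ]; congr 1; omega
      have f5 : brf q (t + 1 + j + 1) = brf q (t + j + 1) * br q (((t + j + 1 : ℕ) : ℤ) + 1) := by
        rw [← brf_succ]; congr 1; ring
      have f6 : brf q (t + (j + 1) + 1) =
          brf q (t + j + 1) * br q (((t + j + 1 : ℕ) : ℤ) + 1) := by
        rw [← brf_succ]; congr 1
      have f7 : brf q (j + 1 + (t + s) - j) = brf q (t + s) * br q ((t + s + 1 : ℕ) : ℤ) := by
        rw [show ((t + s + 1 : ℕ) : ℤ) = ((t + s : ℕ) : ℤ) + 1 by push_cast; ring, ← brf_succ]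
        congr 1; omega
      have f8 : br q (((t + s + 1 : ℕ) : ℤ) - t) = br q ((s : ℤ) + 1) := by
        congr 1; push_cast; ring
      have s1 : j + 1 + (t + s) - (t + 1) - j = s := by omega
      have s2 : j + 1 + (t + s) - (j + 1) = t + s := by omega
      have s3 : j + 1 + (t + s) - t - (j + 1) = s := by omega
      rw [f1, f2, f3, f4, f5, f6, f7, f8, s1, s2, s3]
      have g1 : brf q (j + 1 + (t + s)) ≠ 0 := h.brf_ne (by omega)
      have g2 : brf q s ≠ 0 := h.brf_ne (by omega)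
      have g3 : brf q (t + j + 1) ≠ 0 := h.brf_ne (by omega)
      have g4 : br q (((t + j + 1 : ℕ) : ℤ) + 1) ≠ 0 := h.ne (by push_cast; omega)
        (by push_cast; omega)
      have g5 : br q ((s : ℤ) + 1) ≠ 0 := h.ne (by omega) (by push_cast; omega)
      generalize br q (((t + s + 1 : ℕ) : ℤ) + t + 1) = X1 at *
      generalize br q (((t + j + 1 : ℕ) : ℤ) + 1) = X2 at *
      generalize br q (((j + 1 + (t + s) + t + 1 : ℕ) : ℤ) + 1) = X3 at *
      generalize br q ((t : ℤ) + 1) = X4 at *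
      generalize br q ((j : ℤ) + 1) = X5 at *
      generalize br q ((t + s + 1 : ℕ) : ℤ) = X6 at *
      generalize br q ((s : ℤ) + 1) = X7 at *
      generalize brf q (j + 1 + (t + s)) = Y1 at *
      generalize brf q s = Y2 at *
      generalize brf q (t + j + 1) = Y3 at *
      generalize brf q (t + s) = Y4 at *
      generalize brf q (j + 1 + (t + s) + t + 1) = Y5 at *
      generalize brf q j = Y6 at *
      generalize brf q t = Y7 at *
      generalize br q (((j + 1 + (t + s) : ℕ) : ℤ) + 1) = Y8 at *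
      rw [pow_succ (-1 : ℂ) j]
      field_simp
      linear_combination (-(Y8 * Y4 * Y5 * Y6 * Y7)) * key
    · rw [if_neg (show ¬ (t + 1 + j ≤ j + 1 + p) by omega),
        if_neg (show ¬ (t + (j + 1) ≤ j + 1 + p) by omega), mul_zero, zero_sub]
      by_cases h2 : t = p + 1
      · subst h2
        rw [show ((p + 1 : ℕ) : ℤ) - ((p + 1 : ℕ) : ℤ) = 0 by ring, br_zero]
        ring
      · rw [if_neg (by omega), mul_zero, neg_zero]

theorem Ker_shift (f g w v : ℕ → ℂ) (i : ℕ) (h0 : w 0 = g 0) (h1 : w (i + 1) = f i)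
    (h2 : ∀ t < i, w (t + 1) = f t + g (t + 1)) :
    ∑ t ∈ Finset.range (i + 1 + 1), w t * v t =
      (∑ t ∈ Finset.range (i + 1), f t * v (t + 1)) + ∑ t ∈ Finset.range (i + 1), g t * v t := by
  rw [Finset.sum_range_succ', Finset.sum_range_succ, Finset.sum_range_succ (fun t => f t * v (t + 1)),
    Finset.sum_range_succ' (fun t => g t * v t), h0, h1,
    Finset.sum_congr rfl fun t ht => by rw [h2 t (Finset.mem_range.1 ht), add_mul],
    Finset.sum_add_distrib]
  ring

/-- The expansion of `EE n i` in the functions `om t`, by induction on `i`. -/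
theorem EE_om (q : ℂ) (n i k : ℕ) (h : Gen q n) (hi : i ≤ n) :
    EE q n i k = ∑ t ∈ Finset.range (i + 1), (-1) ^ (t + i) *
      (brf q (n + 1) * brf q (n - t) * brf q i * brf q (n - i) /
        (brf q t * brf q n ^ 2 * brf q (i - t) * brf q (n - i + t + 1))) * om q t k := by
  induction i with
  | zero =>
    have g1 : brf q n ≠ 0 := h.brf_ne (by omega)
    have g2 : brf q (n + 1) ≠ 0 := h.brf_ne (by omega)
    simp only [EE, Finset.range_zero, Finset.prod_empty, zero_add, Finset.range_one,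
      Finset.sum_singleton, Nat.sub_zero, brf_zero, Ker_om_zero, pow_zero, add_zero]
    field_simp
  | succ i ih =>
    obtain ⟨p, rfl⟩ : ∃ p, n = i + 1 + p := ⟨n - (i + 1), by omega⟩
    have hm : br q ((p + 1 : ℕ) : ℤ) ≠ 0 := h.ne (by push_cast; omega) (by push_cast; omega)
    have hm2 : br q ((p + 1 : ℕ) : ℤ) ^ 2 ≠ 0 := pow_ne_zero _ hm
    have e1 : EE q (i + 1 + p) (i + 1) k = EE q (i + 1 + p) i k * E1 q (p + 1) k := by
      unfold EE
      rw [Finset.prod_range_succ, show i + 1 + p - i = p + 1 by omega]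
    apply mul_left_cancel₀ hm2
    rw [e1, ih (by omega), Finset.mul_sum, Finset.sum_mul, Finset.mul_sum]
    have e2 : ∀ t ∈ Finset.range (i + 1), br q ((p + 1 : ℕ) : ℤ) ^ 2 * ((-1) ^ (t + i) *
        (brf q (i + 1 + p + 1) * brf q (i + 1 + p - t) * brf q i * brf q (i + 1 + p - i) /
        (brf q t * brf q (i + 1 + p) ^ 2 * brf q (i - t) * brf q (i + 1 + p - i + t + 1))) *
          om q t k * E1 q (p + 1) k) =
        ((-1) ^ (t + i) *
        (brf q (i + 1 + p + 1) * brf q (i + 1 + p - t) * brf q i * brf q (i + 1 + p - i) /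
        (brf q t * brf q (i + 1 + p) ^ 2 * brf q (i - t) * brf q (i + 1 + p - i + t + 1)))) *
          om q (t + 1) k +
        (-(-1) ^ (t + i) *
        (brf q (i + 1 + p + 1) * brf q (i + 1 + p - t) * brf q i * brf q (i + 1 + p - i) /
        (brf q t * brf q (i + 1 + p) ^ 2 * brf q (i - t) * brf q (i + 1 + p - i + t + 1))) *
          (br q (((p + 1 : ℕ) : ℤ) - t) * br q (((p + 1 : ℕ) : ℤ) + t + 1))) * om q t k := by
      intro t _
      have e3 := Ker_om_E1 q h.1 (p + 1) k t hm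
      linear_combination ((-1) ^ (t + i) *
        (brf q (i + 1 + p + 1) * brf q (i + 1 + p - t) * brf q i * brf q (i + 1 + p - i) /
        (brf q t * brf q (i + 1 + p) ^ 2 * brf q (i - t) * brf q (i + 1 + p - i + t + 1)))) * e3
    rw [Finset.sum_congr rfl e2, Finset.sum_add_distrib]
    symm
    have e4 : ∀ t ∈ Finset.range (i + 1 + 1), br q ((p + 1 : ℕ) : ℤ) ^ 2 * ((-1) ^ (t + (i + 1)) *
        (brf q (i + 1 + p + 1) * brf q (i + 1 + p - t) * brf q (i + 1) *
          brf q (i + 1 + p - (i + 1)) /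
        (brf q t * brf q (i + 1 + p) ^ 2 * brf q (i + 1 - t) *
          brf q (i + 1 + p - (i + 1) + t + 1))) * om q t k) =
        (br q ((p + 1 : ℕ) : ℤ) ^ 2 * ((-1) ^ (t + (i + 1)) *
        (brf q (i + 1 + p + 1) * brf q (i + 1 + p - t) * brf q (i + 1) *
          brf q (i + 1 + p - (i + 1)) /
        (brf q t * brf q (i + 1 + p) ^ 2 * brf q (i + 1 - t) *
          brf q (i + 1 + p - (i + 1) + t + 1))))) * om q t k := fun t _ => by ring
    rw [Finset.sum_congr rfl e4]
    have a1 : brf q (i + 1) = brf q i * br q ((i : ℤ) + 1) := brf_succ q i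
    have a2 : brf q (i + 1 + p - i) = brf q p * br q ((p + 1 : ℕ) : ℤ) := by
      rw [show i + 1 + p - i = p + 1 by omega, brf_succ]; push_cast; ring
    have a3 : i + 1 + p - (i + 1) = p := by omega
    have a4 : i + 1 + p - i = p + 1 := by omega
    have g1 : brf q (i + 1 + p) ≠ 0 := h.brf_ne (by omega)
    have g3 : brf q p ≠ 0 := h.brf_ne (by omega)
    have g4 : brf q i ≠ 0 := h.brf_ne (by omega)
    refine Ker_shift _ _ _ _ i ?_ ?_ ?_
    · rw [a1, a2, a3, a4]
      have b1 : brf q (p + 1 + 0 + 1) = brf q (p + 0 + 1) * br q (((p + 1 : ℕ) : ℤ) + 1) := by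
        rw [← brf_succ]
      have b2 : brf q (i + 1 - 0) = brf q i * br q ((i : ℤ) + 1) := brf_succ q i
      have g5 : br q (((p + 1 : ℕ) : ℤ) + 1) ≠ 0 := h.ne (by push_cast; omega) (by push_cast; omega)
      have g6 : br q ((i : ℤ) + 1) ≠ 0 := h.ne (by omega) (by push_cast; omega)
      have g7 : brf q (p + 0 + 1) ≠ 0 := h.brf_ne (by omega)
      rw [b1, b2, Nat.sub_zero, Nat.sub_zero, Nat.cast_zero, sub_zero, zero_add, zero_add,
        add_zero (((p + 1 : ℕ) : ℤ)), pow_succ, brf_zero]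
      field_simp
      ring
    · rw [a1, a2, a3, a4]
      have b1 : brf q (i + 1 + p - i) = brf q p * br q ((p + 1 : ℕ) : ℤ) := a2
      have b2 : i + 1 + p - (i + 1) = p := by omega
      have b3 : p + (i + 1) + 1 = p + 1 + i + 1 := by ring
      have g5 : br q ((i : ℤ) + 1) ≠ 0 := h.ne (by omega) (by push_cast; omega)
      have g6 : brf q (p + 1 + i + 1) ≠ 0 := h.brf_ne (by omega)
      rw [b3, Nat.sub_self, Nat.sub_self, brf_zero,
        show i + 1 + (i + 1) = (i + i) + 1 + 1 by ring, pow_succ, pow_succ]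
      field_simp
      try ring
    · intro t ht
      obtain ⟨s, rfl⟩ : ∃ s, i = t + 1 + s := ⟨i - (t + 1), by omega⟩
      have key := br_three_term q h.1 ((p : ℤ) + 1) ((t : ℤ) + 1) ((s : ℤ) + 1)
      rw [show (p : ℤ) + 1 = ((p + 1 : ℕ) : ℤ) by push_cast; ring,
        show (t : ℤ) + 1 + (s + 1) = ((t + 1 + s : ℕ) : ℤ) + 1 by push_cast; ring,
        show ((p + 1 : ℕ) : ℤ) + (s + 1) = ((s + p + 1 : ℕ) : ℤ) + 1 by push_cast; ring] at key
      have c1 : brf q (t + 1 + s + 1) = brf q (t + 1 + s) * br q (((t + 1 + s : ℕ) : ℤ) + 1) :=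
        brf_succ q _
      have c2 : brf q (t + 1 + s + 1 + p - (t + 1)) = brf q (s + p + 1) :=
        congrArg (brf q) (by omega)
      have c3 : brf q (t + 1 + s + 1 + p - (t + 1 + s + 1)) = brf q p :=
        congrArg (brf q) (by omega)
      have c4 : brf q (t + 1) = brf q t * br q ((t : ℤ) + 1) := brf_succ q t
      have c5 : brf q (t + 1 + s + 1 - (t + 1)) = brf q s * br q ((s : ℤ) + 1) := by
        rw [← brf_succ]; congr 1; omega
      have c6 : brf q (t + 1 + s + 1 + p - (t + 1 + s + 1) + (t + 1) + 1) = brf q (p + t + 2) :=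
        congrArg (brf q) (by omega)
      have c7 : brf q (t + 1 + s + 1 + p - t) =
          brf q (s + p + 1) * br q (((s + p + 1 : ℕ) : ℤ) + 1) := by
        rw [← brf_succ]; congr 1; omega
      have c8 : brf q (t + 1 + s + 1 + p - (t + 1 + s)) = brf q p * br q ((p + 1 : ℕ) : ℤ) := by
        rw [show ((p + 1 : ℕ) : ℤ) = (p : ℤ) + 1 by push_cast; ring, ← brf_succ]
        exact congrArg (brf q) (by omega)
      have c9 : brf q (t + 1 + s - t) = brf q s * br q ((s : ℤ) + 1) := by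
        rw [← brf_succ]; congr 1; omega
      have c10 : brf q (t + 1 + s + 1 + p - (t + 1 + s) + t + 1) = brf q (p + t + 2) :=
        congrArg (brf q) (by omega)
      have c11 : brf q (t + 1 + s - (t + 1)) = brf q s :=
        congrArg (brf q) (by omega)
      have c12 : brf q (t + 1 + s + 1 + p - (t + 1 + s) + (t + 1) + 1) =
          brf q (p + t + 2) * br q (((p + 1 : ℕ) : ℤ) + ((t + 1 : ℕ) : ℤ) + 1) := by
        rw [show ((p + 1 : ℕ) : ℤ) + ((t + 1 : ℕ) : ℤ) + 1 = ((p + t + 2 : ℕ) : ℤ) + 1 by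
          push_cast; ring, ← brf_succ]
        congr 1; omega
      have c13 : br q (((p + 1 : ℕ) : ℤ) - ((t + 1 : ℕ) : ℤ)) =
          br q (((p + 1 : ℕ) : ℤ) - ((t : ℤ) + 1)) := by push_cast; rfl
      rw [c12, c10, c6, c1, c2, c3, c4, c5, c7, c8, c9, c11, c13]
      have g5 : brf q (p + t + 2) ≠ 0 := h.brf_ne (by omega)
      have g6 : br q ((s : ℤ) + 1) ≠ 0 := h.ne (by omega) (by push_cast; omega)
      have g7 : br q ((t : ℤ) + 1) ≠ 0 := h.ne (by omega) (by push_cast; omega)
      have g8 : br q (((p + 1 : ℕ) : ℤ) + ((t + 1 : ℕ) : ℤ) + 1) ≠ 0 :=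
        h.ne (by push_cast; omega) (by push_cast; omega)
      have g9 : brf q t ≠ 0 := h.brf_ne (by omega)
      have g10 : brf q s ≠ 0 := h.brf_ne (by omega)
      clear e4 e2 e1 ih
      generalize br q (((p + 1 : ℕ) : ℤ) - ((t : ℤ) + 1)) = X1 at *
      generalize br q (((p + 1 : ℕ) : ℤ) + ((t + 1 : ℕ) : ℤ) + 1) = X2 at *
      generalize br q ((t : ℤ) + 1) = X3 at *
      generalize br q ((s : ℤ) + 1) = X4 at *
      generalize br q (((s + p + 1 : ℕ) : ℤ) + 1) = X5 at *
      generalize br q (((t + 1 + s : ℕ) : ℤ) + 1) = X6 at *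
      generalize br q ((p + 1 : ℕ) : ℤ) = X7 at *
      rw [show t + 1 + (t + 1 + s + 1) = (t + (t + 1 + s)) + 1 + 1 by ring,
        show t + 1 + (t + 1 + s) = (t + (t + 1 + s)) + 1 by ring, pow_succ, pow_succ]
      field_simp
      linear_combination (-(brf q (t + 1 + s + 1 + p + 1) * brf q (s + p + 1) *
        ((-1) ^ (t * 2) * (-1) ^ s))) * key

theorem sixj_EE (q : ℂ) (n j k : ℕ) (h : Gen q n) (hj : j ≤ n) :
    ∑ l ∈ Finset.range (n + 1), br q (2 * (l : ℤ) + 1) / br q 1 * sixj q n k l * EE q n j l =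
      (-1) ^ n * (br q ((n : ℤ) + 1) / br q 1) * EE q n (n - j) k := by
  have e1 : ∀ l ∈ Finset.range (n + 1),
      br q (2 * (l : ℤ) + 1) / br q 1 * sixj q n k l * EE q n j l =
      ∑ t ∈ Finset.range (n + 1), ((-1) ^ t *
      (brf q (n + 1) * brf q (n - t) / (brf q t ^ 2 * brf q n * brf q (n + t + 1))) *
        om q t k) * (br q (2 * (l : ℤ) + 1) / br q 1 * om q t l * EE q n j l) := by
    intro l _
    rw [sixj_om q n h, Finset.mul_sum, Finset.sum_mul]
    exact Finset.sum_congr rfl fun t _ => by ring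
  rw [Finset.sum_congr rfl e1, Finset.sum_comm]
  simp only [← Finset.mul_sum]
  rw [EE_om q n (n - j) k h (by omega), Finset.mul_sum,
    ← Finset.sum_subset (Finset.range_mono (show n - j + 1 ≤ n + 1 by omega)) (fun t ht ht' => by
      rw [H_sum q n j t h hj, if_neg (by
        have := Finset.mem_range.1 ht
        have h5 : ¬ (t < n - j + 1) := fun h => ht' (Finset.mem_range.2 h)
        omega), mul_zero])]
  refine Finset.sum_congr rfl fun t ht => ?_
  obtain ⟨p, rfl⟩ : ∃ p, n = j + p := ⟨n - j, by omega⟩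
  obtain ⟨s, rfl⟩ : ∃ s, p = t + s := ⟨p - t, by have := Finset.mem_range.1 ht; omega⟩
  rw [H_sum q _ j t h hj, if_pos (by omega)]
  have s1 : j + (t + s) - j = t + s := by omega
  have s2 : j + (t + s) - t - j = s := by omega
  have s3 : j + (t + s) - (t + s) = j := by omega
  have s4 : t + s - t = s := by omega
  rw [s1, s2, s3, s4, show j + t + 1 = t + j + 1 by ring]
  have g1 : brf q (j + (t + s)) ≠ 0 := h.brf_ne (by omega)
  have g2 : brf q t ≠ 0 := h.brf_ne (by omega)
  have g3 : brf q s ≠ 0 := h.brf_ne (by omega)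
  have g4 : brf q (t + j + 1) ≠ 0 := h.brf_ne (by omega)
  have g5 : brf q (j + (t + s) + t + 1) ≠ 0 := h.brf_ne (by omega)
  have g6 : br q 1 ≠ 0 := h.ne (by omega) (by omega)
  have hs : ((-1 : ℂ)) ^ (j + (t + s)) * (-1) ^ (t + (t + s)) = (-1) ^ t * (-1) ^ j := by
    rw [← pow_add, ← pow_add, show j + (t + s) + (t + (t + s)) = (t + j) + 2 * (t + s) by ring,
      pow_add, pow_mul]
    norm_num
  have e2 : (-1) ^ (j + (t + s)) * (br q (((j + (t + s) : ℕ) : ℤ) + 1) / br q 1) *
      ((-1) ^ (t + (t + s)) * (brf q (j + (t + s) + 1) * brf q (j + (t + s) - t) *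
        brf q (t + s) * brf q j /
        (brf q t * brf q (j + (t + s)) ^ 2 * brf q s * brf q (t + j + 1))) * om q t k) =
      ((-1) ^ (j + (t + s)) * (-1) ^ (t + (t + s))) * ((br q (((j + (t + s) : ℕ) : ℤ) + 1) / br q 1) *
      ((brf q (j + (t + s) + 1) * brf q (j + (t + s) - t) *
        brf q (t + s) * brf q j /
        (brf q t * brf q (j + (t + s)) ^ 2 * brf q s * brf q (t + j + 1))) * om q t k)) := by ring
  rw [e2, hs]
  field_simp

end Pool.Agent.H63.VC10
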