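import Pool.Agent.H63.VC10.Newton
import Pool.Agent.H63.VC10.Ker

/-! # The rotation in terms of the `6j`-symbols -/

namespace Pool.Agent.H63.VC10

open Pool.Agent.H63.VC7 Matrix

theorem Ph_eq (q : ℂ) (n : ℕ) (h : Gen q n) (f : ℕ → ℂ) (k : ℕ) :
    Ph q n f k = (-1) ^ n * (br q 1 / br q ((n : ℤ) + 1)) *
      ∑ l ∈ Finset.range (n + 1), br q (2 * (l : ℤ) + 1) / br q 1 * sixj q n k l * f l := by
  have h1 : br q ((n : ℤ) + 1) ≠ 0 := h.ne (by omega) (by omega)
  have h2 : br q 1 ≠ 0 := h.ne (by omega) (by omega)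
  have e1 : ∑ l ∈ Finset.range (n + 1), br q (2 * (l : ℤ) + 1) / br q 1 * sixj q n k l * f l =
      ∑ j ∈ Finset.range (n + 1), nt q n f j *
        ((-1) ^ n * (br q ((n : ℤ) + 1) / br q 1) * EE q n (n - j) k) := by
    calc _ = ∑ l ∈ Finset.range (n + 1), ∑ j ∈ Finset.range (n + 1), nt q n f j *
          (br q (2 * (l : ℤ) + 1) / br q 1 * sixj q n k l * EE q n j l) := by
          refine Finset.sum_congr rfl fun l hl => ?_
          rw [f_nt q n h f l (by have := Finset.mem_range.1 hl; omega), Finset.mul_sum]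
          exact Finset.sum_congr rfl fun j _ => by ring
      _ = _ := by
          rw [Finset.sum_comm]
          refine Finset.sum_congr rfl fun j hj => ?_
          rw [← Finset.mul_sum, sixj_EE q n j k h (by have := Finset.mem_range.1 hj; omega)]
  rw [e1, Ph, Finset.mul_sum]
  refine Finset.sum_congr rfl fun j _ => ?_
  have h3 : ((-1 : ℂ) ^ n) * (-1) ^ n = 1 := by rw [← mul_pow]; norm_num
  calc nt q n f j * EE q n (n - j) k = ((-1) ^ n * (-1) ^ n) * ((br q 1 / br q ((n : ℤ) + 1)) *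
        (br q ((n : ℤ) + 1) / br q 1)) * (nt q n f j * EE q n (n - j) k) := by
        rw [h3]; field_simp
    _ = _ := by ring

end Pool.Agent.H63.VC10
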