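import Mathlib

/-! # Sums over the colorings of a tree -/

namespace Pool.Agent.H63.VC10

/-- The sum over the colorings of the subtree at a node, given the color of the node; the first
argument is a bound for the height. -/
noncomputable def trs {m : ℕ} (N : ℕ) (K : ℕ → ℕ → ℂ) (par : Fin m → Fin (m + 1))
    (g : Fin (m + 1) → ℕ → ℂ) : ℕ → Fin (m + 1) → ℕ → ℂ
  | 0, _, _ => 1
  | k + 1, v, x => g v x * ∏ j ∈ Finset.univ.filter (fun j => par j = v),
      ∑ y ∈ Finset.range (N + 1), K x y * trs N K par g k j.succ y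

/-- independence of the height bound -/
theorem TreeSum_stable {m : ℕ} (N : ℕ) (K : ℕ → ℕ → ℂ) (par : Fin m → Fin (m + 1))
    (hpar : ∀ j, par j ≤ j.castSucc) (g : Fin (m + 1) → ℕ → ℂ) (k : ℕ) :
    ∀ (v : Fin (m + 1)) (x : ℕ), m + 1 ≤ (v : ℕ) + k →
      trs N K par g (k + 1) v x = trs N K par g k v x := by
  induction k with
  | zero =>
    intro v x h
    have := v.isLt
    omega
  | succ k ih =>
    intro v x h
    rw [trs, trs]
    congr 1
    refine Finset.prod_congr rfl fun j hj => ?_
    refine Finset.sum_congr rfl fun y _ => ?_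
    rw [ih j.succ y]
    have h1 : par j = v := (Finset.mem_filter.1 hj).2
    have h2 := hpar j
    rw [h1, Fin.le_def] at h2
    simp only [Fin.val_castSucc] at h2
    rw [Fin.val_succ]
    omega

/-- the last node is a leaf -/
theorem TreeSum_last {m : ℕ} (N : ℕ) (K : ℕ → ℕ → ℂ) (par : Fin m → Fin (m + 1))
    (hpar : ∀ j, par j ≤ j.castSucc) (g : Fin (m + 1) → ℕ → ℂ) (k : ℕ) (hk : 1 ≤ k) (y : ℕ) :
    trs N K par g k (Fin.last m) y = g (Fin.last m) y := by
  obtain ⟨k, rfl⟩ : ∃ k', k = k' + 1 := ⟨k - 1, by omega⟩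
  rw [trs]
  have : Finset.univ.filter (fun j : Fin m => par j = Fin.last m) = ∅ := by
    rw [Finset.filter_eq_empty_iff]
    intro j _ h
    have h2 := hpar j
    rw [h, Fin.le_def] at h2
    simp only [Fin.val_castSucc, Fin.val_last] at h2
    have := j.isLt
    omega
  rw [this]
  simp

/-- removing the last node -/
theorem TreeSum_remove {m : ℕ} (N : ℕ) (K : ℕ → ℕ → ℂ) (par : Fin (m + 1) → Fin (m + 2))
    (hpar : ∀ j, par j ≤ j.castSucc) (g : Fin (m + 2) → ℕ → ℂ) (par' : Fin m → Fin (m + 1))
    (hpar' : ∀ j, par j.castSucc = (par' j).castSucc) (k : ℕ) :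
    ∀ (v : Fin (m + 1)) (x : ℕ), m + 2 ≤ (v : ℕ) + k →
      trs N K par g k v.castSucc x = trs N K par' (fun i x => g i.castSucc x *
        (if par (Fin.last m) = i.castSucc then
          ∑ y ∈ Finset.range (N + 1), K x y * g (Fin.last (m + 1)) y else 1)) k v x := by
  induction k with
  | zero =>
    intro v x h
    have := v.isLt
    omega
  | succ k ih =>
    intro v x h
    rw [trs, trs, Finset.prod_filter, Finset.prod_filter, Fin.prod_univ_castSucc]
    have h1 : ∀ j : Fin m, (if par j.castSucc = v.castSucc then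
        ∑ y ∈ Finset.range (N + 1), K x y * trs N K par g k j.castSucc.succ y else 1) =
        if par' j = v then ∑ y ∈ Finset.range (N + 1), K x y * trs N K par' (fun i x => g i.castSucc x *
        (if par (Fin.last m) = i.castSucc then
          ∑ y ∈ Finset.range (N + 1), K x y * g (Fin.last (m + 1)) y else 1)) k j.succ y else 1 := by
      intro j
      rw [hpar' j]
      by_cases hj : par' j = v
      · rw [if_pos (by rw [hj]), if_pos hj]
        refine Finset.sum_congr rfl fun y _ => ?_
        rw [Fin.succ_castSucc, ih j.succ y]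
        have h2 := hpar j.castSucc
        rw [hpar' j, hj, Fin.le_def] at h2
        simp only [Fin.val_castSucc] at h2
        rw [Fin.val_succ]
        omega
      · rw [if_neg (fun h3 => hj (Fin.castSucc_injective _ h3)), if_neg hj]
    have h2 : (if par (Fin.last m) = v.castSucc then
        ∑ y ∈ Finset.range (N + 1), K x y * trs N K par g k (Fin.last m).succ y else 1) =
        if par (Fin.last m) = v.castSucc then
          ∑ y ∈ Finset.range (N + 1), K x y * g (Fin.last (m + 1)) y else 1 := by
      by_cases hj : par (Fin.last m) = v.castSucc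
      · rw [if_pos hj, if_pos hj]
        refine Finset.sum_congr rfl fun y _ => ?_
        rw [Fin.succ_last, TreeSum_last N K par hpar g k]
        have := v.isLt
        omega
      · rw [if_neg hj, if_neg hj]
    rw [Finset.prod_congr rfl fun j _ => h1 j, h2]
    ring

/-- splitting off the last coordinate -/
theorem TreeSum_snoc (m N : ℕ) (Φ : (Fin (m + 1) → ℕ) → ℂ) :
    ∑ X ∈ Fintype.piFinset (fun _ : Fin (m + 1) => Finset.range (N + 1)), Φ X =
      ∑ X ∈ Fintype.piFinset (fun _ : Fin m => Finset.range (N + 1)),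
        ∑ y ∈ Finset.range (N + 1), Φ (Fin.snoc X y) := by
  rw [← Finset.sum_product']
  symm
  refine Finset.sum_nbij' (fun Z : (Fin m → ℕ) × ℕ => (Fin.snoc Z.1 Z.2 : Fin (m + 1) → ℕ))
    (fun X : Fin (m + 1) → ℕ => (fun i => X i.castSucc, X (Fin.last m))) ?_ ?_ ?_ ?_ ?_
  · rintro ⟨X, y⟩ h
    rw [Finset.mem_product, Fintype.mem_piFinset] at h
    rw [Fintype.mem_piFinset]
    intro i
    refine Fin.lastCases ?_ (fun i => ?_) i
    · simpa using h.2
    · simpa using h.1 i
  · intro X h
    rw [Fintype.mem_piFinset] at h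
    rw [Finset.mem_product, Fintype.mem_piFinset]
    exact ⟨fun i => h _, h _⟩
  · rintro ⟨X, y⟩ _
    simp
  · intro X _
    funext i
    refine Fin.lastCases ?_ (fun i => ?_) i
    · simp
    · simp
  · intro Z _
    rfl

theorem trs_eq (N : ℕ) (K : ℕ → ℕ → ℂ) (m : ℕ) (par : Fin m → Fin (m + 1))
    (hpar : ∀ j, par j ≤ j.castSucc) (g : Fin (m + 1) → ℕ → ℂ) :
    ∑ x ∈ Finset.range (N + 1), trs N K par g (m + 1) 0 x =
      ∑ X ∈ Fintype.piFinset (fun _ : Fin (m + 1) => Finset.range (N + 1)),
        (∏ i, g i (X i)) * ∏ j, K (X (par j)) (X j.succ) := by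
  induction m with
  | zero =>
    rw [TreeSum_snoc]
    have h0 : Fintype.piFinset (fun _ : Fin 0 => Finset.range (N + 1)) =
        {(Fin.elim0 : Fin 0 → ℕ)} := by
      ext X
      rw [Fintype.mem_piFinset, Finset.mem_singleton]
      constructor
      · intro _
        funext i
        exact i.elim0
      · intro _ i
        exact i.elim0
    rw [h0, Finset.sum_singleton]
    refine Finset.sum_congr rfl fun y _ => ?_
    rw [trs]
    have hs : (Fin.snoc Fin.elim0 y : Fin 1 → ℕ) 0 = y :=
      Fin.snoc_last (α := fun _ : Fin 1 => ℕ) y Fin.elim0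
    simp [hs]
  | succ m ih =>
    have hlt : ∀ j : Fin m, (par j.castSucc : ℕ) < m + 1 := by
      intro j
      have h2 := hpar j.castSucc
      rw [Fin.le_def] at h2
      simp only [Fin.val_castSucc] at h2
      have := j.isLt
      omega
    set par' : Fin m → Fin (m + 1) := fun j => ⟨(par j.castSucc : ℕ), hlt j⟩ with hp'
    have hpar' : ∀ j, par j.castSucc = (par' j).castSucc := by
      intro j
      apply Fin.ext
      simp [hp']
    have hle' : ∀ j, par' j ≤ j.castSucc := by
      intro j
      have h2 := hpar j.castSucc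
      rw [Fin.le_def] at h2 ⊢
      simp only [Fin.val_castSucc] at h2 ⊢
      exact h2
    obtain ⟨p, hp⟩ : ∃ p : Fin (m + 1), par (Fin.last m) = p.castSucc := by
      have h2 := hpar (Fin.last m)
      rw [Fin.le_def] at h2
      simp only [Fin.val_castSucc, Fin.val_last] at h2
      exact ⟨⟨(par (Fin.last m) : ℕ), by omega⟩, by apply Fin.ext; simp⟩
    set g' : Fin (m + 1) → ℕ → ℂ := fun i x => g i.castSucc x *
        (if par (Fin.last m) = i.castSucc then
          ∑ y ∈ Finset.range (N + 1), K x y * g (Fin.last (m + 1)) y else 1) with hg'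
    have h1 : ∀ x, trs N K par g (m + 1 + 1) 0 x = trs N K par' g' (m + 1) 0 x := by
      intro x
      have h2 := TreeSum_remove N K par hpar g par' hpar' (m + 1 + 1) 0 x (by simp)
      rw [Fin.castSucc_zero] at h2
      rw [h2]
      exact TreeSum_stable N K par' hle' g' (m + 1) 0 x (by simp)
    rw [Finset.sum_congr rfl fun x _ => h1 x, ih par' hle' g', TreeSum_snoc (m + 1)]
    refine Finset.sum_congr rfl fun X _ => ?_
    have h3 : ∏ i, g' i (X i) = (∏ i : Fin (m + 1), g i.castSucc (X i)) *
        ∑ y ∈ Finset.range (N + 1), K (X p) y * g (Fin.last (m + 1)) y := by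
      simp only [hg']
      rw [Finset.prod_mul_distrib]
      congr 1
      rw [Finset.prod_eq_single p]
      · rw [if_pos hp]
      · intro i _ hi
        rw [if_neg]
        intro h4
        rw [hp] at h4
        exact hi (Fin.castSucc_injective _ h4).symm
      · intro h4
        exact absurd (Finset.mem_univ _) h4
    rw [h3, mul_assoc, Finset.sum_mul, Finset.mul_sum]
    refine Finset.sum_congr rfl fun y _ => ?_
    have h4 : ∀ j : Fin m, K ((Fin.snoc X y : Fin (m + 2) → ℕ) (par j.castSucc))
        ((Fin.snoc X y : Fin (m + 2) → ℕ) j.castSucc.succ) = K (X (par' j)) (X j.succ) := by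
      intro j
      rw [hpar' j, Fin.succ_castSucc, Fin.snoc_castSucc, Fin.snoc_castSucc]
    have h5 : ∏ i : Fin (m + 2), g i ((Fin.snoc X y : Fin (m + 2) → ℕ) i) =
        (∏ i : Fin (m + 1), g i.castSucc (X i)) * g (Fin.last (m + 1)) y := by
      rw [Fin.prod_univ_castSucc]
      simp only [Fin.snoc_castSucc, Fin.snoc_last]
    have h6 : ∏ j : Fin (m + 1), K ((Fin.snoc X y : Fin (m + 2) → ℕ) (par j))
        ((Fin.snoc X y : Fin (m + 2) → ℕ) j.succ) =
        (∏ j : Fin m, K (X (par' j)) (X j.succ)) * K (X p) y := by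
      rw [Fin.prod_univ_castSucc, Finset.prod_congr rfl fun j _ => h4 j, hp, Fin.succ_last]
      simp only [Fin.snoc_castSucc, Fin.snoc_last]
    rw [h5, h6]
    ring

end Pool.Agent.H63.VC10
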