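import Pool.Agent.H63.VC10.Bra
import Pool.Agent.H63.VC10.PhEq
import Pool.Agent.H63.VC10.TreeSum

/-! # The colored Jones polynomial of an arborescent link as a state sum -/

namespace Pool.Agent.H63.VC10

open Pool.Agent.H63.VC7 Matrix

variable {m : ℕ}

/-- The factor of the nodes different from the root. -/
noncomputable def Brac_c (q : ℂ) (N : ℕ) (x : ℕ) : ℂ :=
  (-1) ^ N * (br q 1 / br q ((N : ℤ) + 1)) * (br q (2 * (x : ℤ) + 1) / br q 1)

/-- The weights of the nodes. -/
noncomputable def Brac_g (q : ℂ) (N : ℕ) (a : Fin (m + 1) → ℤ) (v : Fin (m + 1)) (x : ℕ) : ℂ :=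
  (if v = 0 then 1 else Brac_c q N x) * tw q x ^ (a v)

theorem Brac_fv (q : ℂ) (N : ℕ) (h : Gen q N) (par : Fin m → Fin (m + 1))
    (hpar : ∀ j, par j ≤ j.castSucc) (a : Fin (m + 1) → ℤ) (k : ℕ) (v : Fin (m + 1))
    (hk : m < k + v) (x : ℕ) :
    (if v = 0 then 1 else Brac_c q N x) * fv q N par a k v x =
      trs N (sixj q N) par (Brac_g q N a) k v x := by
  induction k generalizing v x with
  | zero => have := v.2; omega
  | succ k ih =>
    simp only [fv, trs, Brac_g]
    rw [mul_assoc]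
    congr 2
    refine Finset.prod_congr rfl fun j hj => ?_
    have hj' : par j = v := by simpa using hj
    have h0 : (v : ℕ) ≤ j := by
      have := hpar j
      rw [hj'] at this
      exact this
    rw [Ph_eq q N h, Finset.mul_sum]
    refine Finset.sum_congr rfl fun y _ => ?_
    have h1 := ih j.succ (by simp only [Fin.val_succ]; omega) y
    simp only [Fin.succ_ne_zero, if_false] at h1
    rw [show (Brac_g q N a) = (Brac_g q N a) from rfl, ← h1, Brac_c]
    ring

theorem bracket_diagram (q : ℂ) (N : ℕ) (h : Gen q N) (par : Fin m → Fin (m + 1))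
    (hpar : ∀ j, par j ≤ j.castSucc) (a : Fin (m + 1) → ℤ) :
    bracket q N (diagram par a) =
      (-1) ^ (N * m) * (br q ((N : ℤ) + 1) / br q 1) * jones par Fin.succ a N q := by
  have h1 : br q ((N : ℤ) + 1) ≠ 0 := h.ne (by omega) (by omega)
  have h2 : br q 1 ≠ 0 := h.ne (by omega) (by omega)
  rw [bracket_eq_fv q N h par a]
  have e1 : ∀ k, fv q N par a (m + 1) 0 k =
      trs N (sixj q N) par (Brac_g q N a) (m + 1) 0 k := by
    intro k
    have := Brac_fv q N h par hpar a (m + 1) 0 (by simp) k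
    simpa using this
  set g' : Fin (m + 1) → ℕ → ℂ := fun v x =>
    (if v = 0 then br q (2 * (x : ℤ) + 1) / br q 1 else 1) * Brac_g q N a v x with hg'
  have e2 : ∀ k v x, trs N (sixj q N) par g' k (Fin.succ v) x =
      trs N (sixj q N) par (Brac_g q N a) k (Fin.succ v) x := by
    intro k
    induction k with
    | zero => intro v x; rfl
    | succ k ih =>
      intro v x
      simp only [trs]
      congr 1
      · simp [hg', Fin.succ_ne_zero]
      · exact Finset.prod_congr rfl fun j _ => Finset.sum_congr rfl fun y _ => by rw [ih]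
  have e3 : ∀ x, trs N (sixj q N) par g' (m + 1) 0 x = br q (2 * (x : ℤ) + 1) / br q 1 *
      trs N (sixj q N) par (Brac_g q N a) (m + 1) 0 x := by
    intro x
    have hx : g' 0 x = br q (2 * (x : ℤ) + 1) / br q 1 * Brac_g q N a 0 x := by simp [hg']
    simp only [trs, hx]
    rw [mul_assoc]
    congr 2
    exact Finset.prod_congr rfl fun j _ => Finset.sum_congr rfl fun y _ => by rw [e2]
  have e4 : ∑ k ∈ Finset.range (N + 1), br q (2 * (k : ℤ) + 1) / br q 1 *
      fv q N par a (m + 1) 0 k =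
      ∑ x ∈ Finset.range (N + 1), trs N (sixj q N) par g' (m + 1) 0 x :=
    Finset.sum_congr rfl fun x _ => by rw [e1, e3]
  rw [e4, trs_eq N (sixj q N) m par hpar g', jones, Finset.mul_sum]
  refine Finset.sum_congr rfl fun X _ => ?_
  rw [← mul_assoc]
  congr 1
  have e5 : ∏ i, g' i (X i) = (br q (2 * (X 0 : ℤ) + 1) / br q 1 * tw q (X 0) ^ (a 0)) *
      ∏ j : Fin m, (Brac_c q N (X j.succ) * tw q (X j.succ) ^ (a j.succ)) := by
    rw [Fin.prod_univ_succ]
    congr 1
    · simp [hg', Brac_g]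
    · exact Finset.prod_congr rfl fun j _ => by simp [hg', Brac_g, Fin.succ_ne_zero]
  rw [e5, Fin.prod_univ_succ]
  have e6 : ∏ j : Fin m, (Brac_c q N (X j.succ) * tw q (X j.succ) ^ (a j.succ)) =
      (-1) ^ (N * m) * ∏ j : Fin m, (tw q (X j.succ) ^ (a j.succ) *
        (br q (2 * (X j.succ : ℤ) + 1) / br q ((N : ℤ) + 1))) := by
    have : ((-1 : ℂ) ^ (N * m)) = ∏ _j : Fin m, (-1 : ℂ) ^ N := by
      rw [Finset.prod_const, Finset.card_univ, Fintype.card_fin, pow_mul]
    rw [this, ← Finset.prod_mul_distrib]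
    refine Finset.prod_congr rfl fun j _ => ?_
    rw [Brac_c]
    field_simp
  rw [e6]
  field_simp

theorem coloredJones_diagram (q : ℂ) (N : ℕ) (h : Gen q N) (par : Fin m → Fin (m + 1))
    (hpar : ∀ j, par j ≤ j.castSucc) (a : Fin (m + 1) → ℤ) (e : ℤ) :
    coloredJones (diagram par a) e N q =
      (-1) ^ (N * (m + 1)) * q ^ ((N : ℤ) * (N + 2) * e) * jones par Fin.succ a N q := by
  have h1 : br q ((N : ℤ) + 1) ≠ 0 := h.ne (by omega) (by omega)
  have h2 : br q 1 ≠ 0 := h.ne (by omega) (by omega)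
  rw [coloredJones, bracket_diagram q N h par hpar a]
  have h3 : ((-1 : ℂ) ^ N) * (-1) ^ N = 1 := by rw [← mul_pow]; norm_num
  have h4 : ((-1 : ℂ) ^ (N * (m + 1))) = (-1) ^ (N * m) * (-1) ^ N := by rw [← pow_add]; ring_nf
  have h5 : ((-1 : ℂ) ^ N) ≠ 0 := pow_ne_zero _ (by norm_num)
  rw [h4, div_eq_iff (mul_ne_zero h5 (div_ne_zero h1 h2))]
  linear_combination (-(q ^ ((N : ℤ) * (N + 2) * e) * ((-1) ^ (N * m) *
    (br q ((N : ℤ) + 1) / br q 1) * jones par Fin.succ a N q))) * h3

end Pool.Agent.H63.VC10
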