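import Pool.Agent.H63.VC10.Alg

/-! # Elementary facts on `{k}` -/

namespace Pool.Agent.H63.VC10

open Pool.Agent.H63.VC7

theorem br_neg (q : ℂ) (a : ℤ) : br q (-a) = -br q a := by
  unfold br; rw [neg_neg]; ring

theorem br_zero (q : ℂ) : br q 0 = 0 := by
  unfold br; simp

theorem brf_zero (q : ℂ) : brf q 0 = 1 := by simp [brf]

theorem brf_succ (q : ℂ) (n : ℕ) : brf q (n + 1) = brf q n * br q ((n : ℤ) + 1) := by
  simp [brf, Finset.prod_range_succ]

theorem Gen.ne {q : ℂ} {N : ℕ} (h : Gen q N) {a : ℤ} (h1 : 1 ≤ a) (h2 : a ≤ 2 * N + 2) :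
    br q a ≠ 0 := by
  have := h.2 a.toNat (by omega) (by omega)
  rwa [show ((a.toNat : ℕ) : ℤ) = a by omega] at this

theorem Gen.brf_ne {q : ℂ} {N : ℕ} (h : Gen q N) {k : ℕ} (hk : k ≤ 2 * N + 2) : brf q k ≠ 0 := by
  unfold brf
  rw [Finset.prod_ne_zero_iff]
  intro i hi
  have := Finset.mem_range.1 hi
  exact h.ne (by omega) (by omega)

/-- `{x} {y} - {x - 1} {y - 1} = {1} {x + y - 1}`. -/
theorem br_id (q : ℂ) (hq : q ≠ 0) (x y : ℤ) :
    br q x * br q y - br q (x - 1) * br q (y - 1) = br q 1 * br q (x + y - 1) := by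
  unfold br
  have e : ∀ a b : ℤ, q ^ (a + b) = q ^ a * q ^ b := fun a b => zpow_add₀ hq a b
  rw [show -(x - 1) = -x + 1 by ring, show -(y - 1) = -y + 1 by ring,
    show -(x + y - 1) = -x + (-y + 1) by ring, show x + y - 1 = x + (y + (-1)) by ring,
    show x - 1 = x + (-1) by ring, show y - 1 = y + (-1) by ring]
  simp only [e, zpow_one, zpow_neg_one]
  have h1 : q ^ x * q ^ (-x) = 1 := by rw [← zpow_add₀ hq]; simp
  have h2 : q ^ y * q ^ (-y) = 1 := by rw [← zpow_add₀ hq]; simp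
  have h3 : q * q⁻¹ = 1 := mul_inv_cancel₀ hq
  ring_nf
  field_simp
  ring

/-- `{x} {y + z} = {x + z} {y} + {z} {x - y}`, the basic identity. -/
theorem br_three_term (q : ℂ) (hq : q ≠ 0) (x y z : ℤ) :
    br q x * br q (y + z) = br q (x + z) * br q y + br q z * br q (x - y) := by
  unfold br
  have e : ∀ a b : ℤ, q ^ (a + b) = q ^ a * q ^ b := fun a b => zpow_add₀ hq a b
  rw [show -(y + z) = -y + -z by ring, show -(x + z) = -x + -z by ring,
    show -(x - y) = -x + y by ring, show x - y = x + -y by ring]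
  simp only [e]
  have h1 : q ^ x * q ^ (-x) = 1 := by rw [← zpow_add₀ hq]; simp
  have h2 : q ^ y * q ^ (-y) = 1 := by rw [← zpow_add₀ hq]; simp
  have h3 : q ^ z * q ^ (-z) = 1 := by rw [← zpow_add₀ hq]; simp
  ring

end Pool.Agent.H63.VC10
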