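import Pool.Agent.H63.VC10.ROh

/-!
# Checks of the definition of the colored Jones polynomials

The crossings are inverse to each other, a strand with a minimum and a maximum can be straightened,
the unknot has the value `1`, and for `N = 1` the crossing satisfies the relation of the Kauffman
bracket (normalized by the framing factor `-A³`, with `A² = q`).
-/

namespace Pool.Agent.H63.VC10

open Pool.Agent.H63.VC7 Matrix

/-- The second Reidemeister move. -/
theorem RM_mul_RiM (q : ℂ) (N : ℕ) (h : Gen q N) : RM q N * RiM q N = 1 := by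
  rw [RM_eq q N h, RiM_eq q N h, Oh_mul q N h]
  have : Oh q N (fun k => tw q k * (tw q k)⁻¹) = Oh q N (fun _ => 1) := by
    refine Oh_congr q N _ _ fun k _ => ?_
    have h0 : tw q k ≠ 0 := mul_ne_zero (pow_ne_zero _ (by norm_num)) (pow_ne_zero _ h.1)
    exact mul_inv_cancel₀ h0
  rw [this, Oh_const, one_smul]

/-- A strand with a minimum and a maximum can be straightened. -/
theorem zigzag (q : ℂ) (N : ℕ) (h : Gen q N) (a : ℕ) (ha : a ≤ N) (ψ : List ℕ → ℂ) :
    eval q N [Piece.cup 0, Piece.cap 1] ψ [a] = ψ [a] ∧
      eval q N [Piece.cup 1, Piece.cap 0] ψ [a] = ψ [a] := by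
  have hc : ∀ s ≤ N, cupc q N s ≠ 0 := fun s hs => by
    unfold cupc
    exact mul_ne_zero (mul_ne_zero (pow_ne_zero _ (by norm_num)) (zpow_ne_zero _ h.1))
      (div_ne_zero (h.brf_ne (by omega)) (mul_ne_zero (h.brf_ne (by omega)) (h.brf_ne (by omega))))
  constructor
  · simp only [eval, act, List.take_succ_cons, List.take_zero, List.drop_succ_cons, List.drop_zero,
      List.cons_append, List.nil_append]
    rw [Finset.sum_eq_single (N - a)]
    · rw [if_pos (by omega), show N - (N - a) = a by omega, ← mul_assoc,
        inv_mul_cancel₀ (hc a ha), one_mul]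
    · intro b hb hb'
      rw [if_neg (by have := Finset.mem_range.1 hb; omega), mul_zero]
    · intro hb
      exact absurd (Finset.mem_range.2 (by omega)) hb
  · simp only [eval, act, List.take_succ_cons, List.take_zero, List.drop_succ_cons, List.drop_zero,
      List.cons_append, List.nil_append]
    rw [Finset.sum_eq_single a]
    · rw [if_pos (by omega), ← mul_assoc, inv_mul_cancel₀ (hc _ (by omega)), one_mul]
    · intro b hb hb'
      rw [if_neg (by have := Finset.mem_range.1 hb; omega), mul_zero]
    · intro hb
      exact absurd (Finset.mem_range.2 (by omega)) hb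

/-- The relation of the Kauffman bracket: the crossing is `-q ^ 2` times two parallel strands minus `q`
times a maximum and a minimum. -/
theorem kauffman (q : ℂ) (h : Gen q 1) (x y : I2 1) :
    RM q 1 x y = -q ^ 2 * (if x = y then 1 else 0) -
      q * ((if (x.1 : ℕ) + x.2 = 1 then cupc q 1 x.1 else 0) *
        (if (y.1 : ℕ) + y.2 = 1 then (cupc q 1 y.2)⁻¹ else 0)) := by
  have hq := h.1
  have h1 : br q 1 ≠ 0 := h.ne (by omega) (by omega)
  have hb1 : brf q 1 = br q 1 := by simp [brf]
  have hb0 : brf q 0 = 1 := by simp [brf]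
  have hbq : br q 1 = q - q⁻¹ := by simp [br]
  obtain ⟨x1, x2⟩ := x
  obtain ⟨y1, y2⟩ := y
  fin_cases x1 <;> fin_cases x2 <;> fin_cases y1 <;> fin_cases y2 <;>
    simp [RM, Rc, cupc, hb1, hb0, h1]
  · ring
  · field_simp
  · rw [hbq]
    field_simp
    ring

end Pool.Agent.H63.VC10
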