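import Pool.Agent.H63.VC10.Brk

/-! # The insertion of several minima and maxima -/

namespace Pool.Agent.H63.VC10

open Pool.Agent.H63.VC7 Matrix

/-- The insertion of `j` minima. -/
noncomputable def DP (q : ℂ) (n : ℕ) : (j : ℕ) → Matrix (I2 (n + j)) (I2 n) ℂ
  | 0 => 1
  | j + 1 => DD q (n + j) * DP q n j

/-- The insertion of `j` maxima. -/
noncomputable def CP (q : ℂ) (n : ℕ) : (j : ℕ) → Matrix (I2 n) (I2 (n + j)) ℂ
  | 0 => 1
  | j + 1 => CP q n j * CC q (n + j)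

/-- The entries of `DP`: the coefficient of `e_p ⊗ e_s` in the image of `e_x ⊗ e_y`. -/
noncomputable def dpf (q : ℂ) (n j p s x y : ℕ) : ℂ :=
  if p + s = x + y + j ∧ x ≤ p ∧ y ≤ s then
    cupc q j (p - x) * q ^ (((s : ℤ) - y) * ((x : ℤ) + n - y)) else 0

/-- The factor relating `CP` to the transpose of `DP`. -/
noncomputable def gg (q : ℂ) (n a b : ℕ) : ℂ :=
  (-1) ^ n * q ^ ((a : ℤ) * (a + 1) + b * (b + 1) - n * (a + b)) *
    (brf q a * brf q (n - a) * (brf q b * brf q (n - b)) / brf q n ^ 2)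


theorem DPf_sum_DD (q : ℂ) (n : ℕ) (F : ℕ → ℕ → ℂ) (h1 : ∀ a b, n < a → F a b = 0)
    (h2 : ∀ a b, n < b → F a b = 0) (x : I2 (n + 1)) :
    ∑ z : I2 n, DD q n x z * F z.1 z.2 =
      (if 1 ≤ (x.2 : ℕ) then
        q ^ (((x.1 : ℕ) : ℤ) + n - ((x.2 : ℕ) - 1 : ℕ)) * F x.1 ((x.2 : ℕ) - 1) else 0) +
      (if 1 ≤ (x.1 : ℕ) then -q⁻¹ * F ((x.1 : ℕ) - 1) x.2 else 0) := by
  obtain ⟨⟨p, hp⟩, ⟨s, hs⟩⟩ := x
  simp only [DD, add_mul, Finset.sum_add_distrib]
  congr 1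
  · split_ifs with h
    · by_cases hpn : p < n + 1
      · rw [Finset.sum_eq_single (⟨p, hpn⟩, ⟨s - 1, by omega⟩)]
        · rw [if_pos ⟨rfl, by show s = s - 1 + 1; omega⟩]
        · rintro ⟨⟨a, ha⟩, ⟨b, hb⟩⟩ _ hne
          rw [if_neg, zero_mul]
          rintro ⟨e1, e2⟩
          apply hne
          have e1 : p = a := e1
          have e2 : s = b + 1 := e2
          subst e1; subst e2
          simp
        · intro h; exact absurd (Finset.mem_univ _) h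
      · rw [h1 p (s - 1) (by omega), mul_zero]
        apply Finset.sum_eq_zero
        rintro ⟨⟨a, ha⟩, ⟨b, hb⟩⟩ _
        rw [if_neg, zero_mul]
        rintro ⟨e1, e2⟩
        have e1 : p = a := e1
        omega
    · apply Finset.sum_eq_zero
      rintro ⟨⟨a, ha⟩, ⟨b, hb⟩⟩ _
      rw [if_neg, zero_mul]
      rintro ⟨e1, e2⟩
      have e2 : s = b + 1 := e2
      have h : ¬ 1 ≤ s := h
      omega
  · split_ifs with h
    · by_cases hsn : s < n + 1
      · rw [Finset.sum_eq_single (⟨p - 1, by omega⟩, ⟨s, hsn⟩)]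
        · rw [if_pos ⟨by show p = p - 1 + 1; have h : 1 ≤ p := h; omega, rfl⟩]
        · rintro ⟨⟨a, ha⟩, ⟨b, hb⟩⟩ _ hne
          rw [if_neg, zero_mul]
          rintro ⟨e1, e2⟩
          apply hne
          have e1 : p = a + 1 := e1
          have e2 : s = b := e2
          subst e1; subst e2
          simp
        · intro h; exact absurd (Finset.mem_univ _) h
      · rw [h2 (p - 1) s (by omega), mul_zero]
        apply Finset.sum_eq_zero
        rintro ⟨⟨a, ha⟩, ⟨b, hb⟩⟩ _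
        rw [if_neg, zero_mul]
        rintro ⟨e1, e2⟩
        have e2 : s = b := e2
        omega
    · apply Finset.sum_eq_zero
      rintro ⟨⟨a, ha⟩, ⟨b, hb⟩⟩ _
      rw [if_neg, zero_mul]
      rintro ⟨e1, e2⟩
      have e1 : p = a + 1 := e1
      have h : ¬ 1 ≤ p := h
      omega

theorem DPf_pascal (q : ℂ) (hq : q ≠ 0) (j i : ℤ) :
    br q j = q ^ i * br q (j - i) + q ^ (-(j - i)) * br q i := by
  unfold br
  have e : ∀ a b : ℤ, q ^ a * q ^ b = q ^ (a + b) := fun a b => (zpow_add₀ hq a b).symm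
  rw [mul_sub, mul_sub, e, e, e, e, show i + (j - i) = j by ring,
    show -(j - i) + -i = -j by ring, show i + -(j - i) = -(j - i) + i by ring]
  ring

/-- the recursion for the coefficients of the minimum, in the interior. -/
theorem DPf_cupc_mid (q : ℂ) (hq : q ≠ 0) (u v : ℕ) (hb : ∀ k, k ≤ u + v + 2 → brf q k ≠ 0) :
    cupc q (u + v + 2) (u + 1) =
      q ^ (2 * ((u : ℤ) + 1)) * cupc q (u + v + 1) (u + 1) - q⁻¹ * cupc q (u + v + 1) u := by
  unfold cupc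
  rw [show u + v + 2 - (u + 1) = v + 1 by omega, show u + v + 1 - (u + 1) = v by omega,
    show u + v + 1 - u = v + 1 by omega, show u + v + 2 = (u + v + 1) + 1 by ring,
    brf_succ q (u + v + 1), brf_succ q u, brf_succ q v]
  have hu := hb (u + 1) (by omega)
  have hv := hb (v + 1) (by omega)
  rw [brf_succ] at hu hv
  have hu1 := left_ne_zero_of_mul hu
  have hu2 := right_ne_zero_of_mul hu
  have hv1 := left_ne_zero_of_mul hv
  have hv2 := right_ne_zero_of_mul hv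
  have P := DPf_pascal q hq (((u + v + 1 : ℕ) : ℤ) + 1) ((u : ℤ) + 1)
  rw [show ((u + v + 1 : ℕ) : ℤ) + 1 - ((u : ℤ) + 1) = (v : ℤ) + 1 by push_cast; ring] at P
  rw [P]
  have E1 : q ^ (((u + 1 : ℕ) : ℤ) * (((u + v + 1 + 1 : ℕ) : ℤ) - ((u + 1 : ℕ) : ℤ) - 1)) =
      q ^ (((u : ℤ) + 1) * v) := by
    congr 1; push_cast; ring
  have E2 : q ^ (2 * ((u : ℤ) + 1)) *
      q ^ (((u + 1 : ℕ) : ℤ) * (((u + v + 1 : ℕ) : ℤ) - ((u + 1 : ℕ) : ℤ) - 1)) =
      q ^ (((u : ℤ) + 1) * v) * q ^ ((u : ℤ) + 1) := by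
    rw [← zpow_add₀ hq, ← zpow_add₀ hq]; congr 1; push_cast; ring
  have E3 : q⁻¹ * q ^ ((u : ℤ) * (((u + v + 1 : ℕ) : ℤ) - (u : ℤ) - 1)) =
      q ^ (((u : ℤ) + 1) * v) * q ^ (-((v : ℤ) + 1)) := by
    rw [← _root_.zpow_neg_one, ← zpow_add₀ hq, ← zpow_add₀ hq]; congr 1; push_cast; ring
  rw [E1]
  calc _ = (-1) ^ (u + 1) * (q ^ (((u : ℤ) + 1) * v) * q ^ ((u : ℤ) + 1)) *
        (brf q (u + v + 1) / (brf q u * br q ((u : ℤ) + 1) * brf q v)) +
        (-1) ^ (u + 1) * (q ^ (((u : ℤ) + 1) * v) * q ^ (-((v : ℤ) + 1))) *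
        (brf q (u + v + 1) / (brf q u * (brf q v * br q ((v : ℤ) + 1)))) := by
        field_simp
    _ = _ := by
        rw [← E2, ← E3]
        ring

theorem DPf_cupc_zero (q : ℂ) (j : ℕ) (hb : brf q j ≠ 0) : cupc q j 0 = 1 := by
  unfold cupc
  simp [brf_zero, div_self hb]

theorem DPf_cupc_self (q : ℂ) (j : ℕ) (hb : brf q j ≠ 0) :
    cupc q j j = (-1) ^ j * q ^ (-(j : ℤ)) := by
  unfold cupc
  simp only [Nat.sub_self, brf_zero, mul_one, div_self hb]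
  congr 2
  ring

theorem DPf_gg_ne (q : ℂ) (hq : q ≠ 0) (n a b : ℕ) (ha : a ≤ n) (hb' : b ≤ n)
    (hb : ∀ k, k ≤ n → brf q k ≠ 0) : gg q n a b ≠ 0 := by
  unfold gg
  have h1 := hb a (by omega)
  have h2 := hb (n - a) (by omega)
  have h3 := hb b (by omega)
  have h4 := hb (n - b) (by omega)
  have h5 := hb n (by omega)
  have hm : ((-1 : ℂ)) ^ n ≠ 0 := pow_ne_zero _ (by norm_num)
  exact mul_ne_zero (mul_ne_zero hm (zpow_ne_zero _ hq))
    (div_ne_zero (mul_ne_zero (mul_ne_zero h1 h2) (mul_ne_zero h3 h4)) (pow_ne_zero 2 h5))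

theorem DPf_ggstep1 (q : ℂ) (hq : q ≠ 0) (n a b : ℕ) (ha : a ≤ n) (hb' : b ≤ n)
    (hb : ∀ k, k ≤ n + 1 → brf q k ≠ 0) :
    -q * (br q ((n : ℤ) + 1 - a) * br q ((b : ℤ) + 1) / br q ((n : ℤ) + 1) ^ 2) =
      gg q (n + 1) a (b + 1) / gg q n a b * q ^ ((a : ℤ) + n - b) := by
  have hg := DPf_gg_ne q hq n a b ha hb' (fun k hk => hb k (by omega))
  rw [div_mul_eq_mul_div, eq_div_iff hg]
  unfold gg
  obtain ⟨c, rfl⟩ := Nat.exists_eq_add_of_le ha
  rw [show a + c + 1 - a = c + 1 by omega, show a + c + 1 - (b + 1) = a + c - b by omega,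
    show a + c - a = c by omega, brf_succ q c, brf_succ q b, brf_succ q (a + c)]
  have h5 := hb (a + c + 1) (by omega)
  rw [brf_succ] at h5
  have h6 := left_ne_zero_of_mul h5
  have h7 := right_ne_zero_of_mul h5
  rw [show ((a + c : ℕ) : ℤ) + 1 - a = (c : ℤ) + 1 by push_cast; ring]
  have E : q ^ ((a : ℤ) * (a + 1) + ((b + 1 : ℕ) : ℤ) * (((b + 1 : ℕ) : ℤ) + 1) -
      ((a + c + 1 : ℕ) : ℤ) * (a + ((b + 1 : ℕ) : ℤ))) * q ^ ((a : ℤ) + ((a + c : ℕ) : ℤ) - b) =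
      q * q ^ ((a : ℤ) * (a + 1) + b * (b + 1) - ((a + c : ℕ) : ℤ) * (a + b)) := by
    rw [← zpow_add₀ hq, ← zpow_one_add₀ hq]; congr 1; push_cast; ring
  set Z := q ^ ((a : ℤ) * (a + 1) + b * (b + 1) - ((a + c : ℕ) : ℤ) * (a + b)) with hZ
  set Y := q ^ ((a : ℤ) * (a + 1) + ((b + 1 : ℕ) : ℤ) * (((b + 1 : ℕ) : ℤ) + 1) -
      ((a + c + 1 : ℕ) : ℤ) * (a + ((b + 1 : ℕ) : ℤ))) with hY
  set X := q ^ ((a : ℤ) + ((a + c : ℕ) : ℤ) - b) with hX
  rw [pow_succ (-1 : ℂ) (a + c)]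
  set M := (-1 : ℂ) ^ (a + c)
  calc _ = -(M * (q * Z)) * (brf q a * (brf q c * br q ((c : ℤ) + 1)) *
        (brf q b * br q ((b : ℤ) + 1) * brf q (a + c - b)) /
        (brf q (a + c) * br q (((a + c : ℕ) : ℤ) + 1)) ^ 2) := by
        rw [mul_pow]; field_simp
    _ = _ := by rw [← E]; ring

theorem DPf_ggstep2 (q : ℂ) (hq : q ≠ 0) (n a b : ℕ) (ha : a ≤ n) (hb' : b ≤ n)
    (hb : ∀ k, k ≤ n + 1 → brf q k ≠ 0) :
    q ^ (-((n : ℤ) + 1 - ((a : ℤ) + 1)) - b) * (br q ((a : ℤ) + 1) * br q ((n : ℤ) + 1 - b) /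
      br q ((n : ℤ) + 1) ^ 2) = gg q (n + 1) (a + 1) b / gg q n a b * -q⁻¹ := by
  have hg := DPf_gg_ne q hq n a b ha hb' (fun k hk => hb k (by omega))
  rw [div_mul_eq_mul_div, eq_div_iff hg]
  unfold gg
  obtain ⟨c, rfl⟩ := Nat.exists_eq_add_of_le hb'
  rw [show b + c + 1 - b = c + 1 by omega, show b + c + 1 - (a + 1) = b + c - a by omega,
    show b + c - b = c by omega, brf_succ q c, brf_succ q a, brf_succ q (b + c)]
  have h5 := hb (b + c + 1) (by omega)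
  rw [brf_succ] at h5
  have h6 := left_ne_zero_of_mul h5
  have h7 := right_ne_zero_of_mul h5
  rw [show ((b + c : ℕ) : ℤ) + 1 - b = (c : ℤ) + 1 by push_cast; ring]
  have E : q ^ (((a + 1 : ℕ) : ℤ) * (((a + 1 : ℕ) : ℤ) + 1) + (b : ℤ) * (b + 1) -
      ((b + c + 1 : ℕ) : ℤ) * (((a + 1 : ℕ) : ℤ) + b)) * q⁻¹ =
      q ^ (-(((b + c : ℕ) : ℤ) + 1 - ((a : ℤ) + 1)) - b) *
      q ^ ((a : ℤ) * (a + 1) + b * (b + 1) - ((b + c : ℕ) : ℤ) * (a + b)) := by
    rw [← _root_.zpow_neg_one, ← zpow_add₀ hq, ← zpow_add₀ hq]; congr 1; push_cast; ring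
  set Z := q ^ ((a : ℤ) * (a + 1) + b * (b + 1) - ((b + c : ℕ) : ℤ) * (a + b)) with hZ
  set Y := q ^ (((a + 1 : ℕ) : ℤ) * (((a + 1 : ℕ) : ℤ) + 1) + (b : ℤ) * (b + 1) -
      ((b + c + 1 : ℕ) : ℤ) * (((a + 1 : ℕ) : ℤ) + b)) with hY
  set X := q ^ (-(((b + c : ℕ) : ℤ) + 1 - ((a : ℤ) + 1)) - b) with hX
  rw [pow_succ (-1 : ℂ) (b + c)]
  set M := (-1 : ℂ) ^ (b + c)
  calc _ = (M * (X * Z)) * (brf q a * br q ((a : ℤ) + 1) * brf q (b + c - a) *
        (brf q b * (brf q c * br q ((c : ℤ) + 1))) /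
        (brf q (b + c) * br q (((b + c : ℕ) : ℤ) + 1)) ^ 2) := by
        rw [mul_pow]; field_simp
    _ = _ := by rw [← E]; ring

theorem DPf_CC (q : ℂ) (hq : q ≠ 0) (n : ℕ) (hb : ∀ k, k ≤ n + 1 → brf q k ≠ 0) (x : I2 n)
    (y : I2 (n + 1)) :
    CC q n x y = gg q (n + 1) y.1 y.2 / gg q n x.1 x.2 * DD q n y x := by
  obtain ⟨⟨a, ha⟩, ⟨b, hb'⟩⟩ := x
  obtain ⟨⟨p, hp⟩, ⟨s, hs⟩⟩ := y
  simp only [CC, DD]
  by_cases c1 : p = a ∧ s = b + 1
  · obtain ⟨rfl, rfl⟩ := c1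
    rw [if_pos ⟨rfl, rfl⟩, if_neg (by omega), if_pos ⟨rfl, rfl⟩, if_neg (by omega), add_zero,
      add_zero]
    have := DPf_ggstep1 q hq n p b (by omega) (by omega) hb
    push_cast at this ⊢
    exact this
  · by_cases c2 : p = a + 1 ∧ s = b
    · obtain ⟨rfl, rfl⟩ := c2
      rw [if_neg (by omega), if_pos ⟨rfl, rfl⟩, if_neg (by omega), if_pos ⟨rfl, rfl⟩, zero_add,
        zero_add]
      have := DPf_ggstep2 q hq n a s (by omega) (by omega) hb
      push_cast at this ⊢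
      exact this
    · rw [if_neg (by omega), if_neg (by omega), if_neg c1, if_neg c2]
      simp

theorem DPf_CP (q : ℂ) (hq : q ≠ 0) (n j : ℕ) (hb : ∀ k, k ≤ n + j → brf q k ≠ 0) :
    ∀ (x : I2 n) (y : I2 (n + j)),
    CP q n j x y = gg q (n + j) y.1 y.2 / gg q n x.1 x.2 * DP q n j y x := by
  induction j with
  | zero =>
    intro x y
    have hg := DPf_gg_ne q hq n x.1 x.2 (by omega) (by omega) (fun k hk => hb k (by omega))
    show (1 : Matrix (I2 n) (I2 n) ℂ) x y = _ * (1 : Matrix (I2 n) (I2 n) ℂ) y x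
    by_cases h : x = y
    · subst h
      rw [Matrix.one_apply_eq]
      simp only [mul_one]
      exact (div_self hg).symm
    · rw [Matrix.one_apply_ne h, Matrix.one_apply_ne (fun e => h e.symm), mul_zero]
  | succ j ih =>
    intro x y
    have ih' := ih (fun k hk => hb k (by omega))
    show (CP q n j * CC q (n + j)) x y = _ * (DD q (n + j) * DP q n j) y x
    rw [Matrix.mul_apply, Matrix.mul_apply, Finset.mul_sum]
    apply Finset.sum_congr rfl
    intro z _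
    have hg := DPf_gg_ne q hq (n + j) z.1 z.2 (by omega) (by omega)
      (fun k hk => hb k (by omega))
    rw [ih', DPf_CC q hq (n + j) hb z y]
    show _ = gg q (n + j + 1) y.1 y.2 / gg q n x.1 x.2 * _
    field_simp

theorem DPf_dpf_succ (q : ℂ) (hq : q ≠ 0) (n j p s x y : ℕ) (hb : ∀ k, k ≤ j + 1 → brf q k ≠ 0) :
    (if 1 ≤ s then q ^ ((p : ℤ) + (n + j : ℕ) - ((s - 1 : ℕ) : ℤ)) * dpf q n j p (s - 1) x y
      else 0) + (if 1 ≤ p then -q⁻¹ * dpf q n j (p - 1) s x y else 0) =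
      dpf q n (j + 1) p s x y := by
  unfold dpf
  by_cases h : p + s = x + y + (j + 1) ∧ x ≤ p ∧ y ≤ s
  swap
  · rw [if_neg h]
    have a1 : ¬ (1 ≤ s ∧ p + (s - 1) = x + y + j ∧ x ≤ p ∧ y ≤ s - 1) := by omega
    have a2 : ¬ (1 ≤ p ∧ (p - 1) + s = x + y + j ∧ x ≤ p - 1 ∧ y ≤ s) := by omega
    split_ifs <;> simp_all
  rw [if_pos h]
  obtain ⟨h1, h2, h3⟩ := h
  obtain ⟨i, rfl⟩ := Nat.exists_eq_add_of_le h2
  obtain ⟨t, rfl⟩ := Nat.exists_eq_add_of_le h3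
  have hit : i + t = j + 1 := by omega
  have e0 : ∀ k, k ≤ j → brf q k ≠ 0 := fun k hk => hb k (by omega)
  rcases Nat.eq_zero_or_pos i with rfl | hi
  · -- only the first term
    have ht : t = j + 1 := by omega
    subst ht
    rw [if_pos (by omega), if_pos (by omega), show x + 0 - x = 0 by omega,
      DPf_cupc_zero q j (e0 j le_rfl), DPf_cupc_zero q (j + 1) (hb _ le_rfl)]
    have : (if 1 ≤ x + 0 then -q⁻¹ * (if x + 0 - 1 + (y + (j + 1)) = x + y + j ∧ x ≤ x + 0 - 1 ∧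
        y ≤ y + (j + 1) then cupc q j (x + 0 - 1 - x) *
        q ^ ((((y + (j + 1) : ℕ) : ℤ) - y) * ((x : ℤ) + n - y)) else 0) else 0) = 0 := by
      split_ifs with u v
      · omega
      · simp
      · rfl
    rw [this, add_zero, one_mul, one_mul, ← zpow_add₀ hq]
    congr 1
    rw [show y + (j + 1) - 1 = y + j by omega]
    push_cast
    ring
  · rcases Nat.eq_zero_or_pos t with rfl | ht
    · have hi' : i = j + 1 := by omega
      subst hi'
      have : (if 1 ≤ y + 0 then q ^ (((x + (j + 1) : ℕ) : ℤ) + (n + j : ℕ) -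
          ((y + 0 - 1 : ℕ) : ℤ)) * (if x + (j + 1) + (y + 0 - 1) = x + y + j ∧ x ≤ x + (j + 1) ∧
          y ≤ y + 0 - 1 then cupc q j (x + (j + 1) - x) *
          q ^ ((((y + 0 - 1 : ℕ) : ℤ) - y) * ((x : ℤ) + n - y)) else 0) else 0) = 0 := by
        split_ifs with u v
        · omega
        · simp
        · rfl
      rw [this, zero_add, if_pos (by omega), if_pos (by omega),
        show x + (j + 1) - 1 - x = j by omega, show x + (j + 1) - x = j + 1 by omega,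
        DPf_cupc_self q j (e0 j le_rfl), DPf_cupc_self q (j + 1) (hb _ le_rfl)]
      have E : q ^ (-((j + 1 : ℕ) : ℤ)) = q⁻¹ * q ^ (-(j : ℤ)) := by
        rw [← _root_.zpow_neg_one, ← zpow_add₀ hq]; congr 1; push_cast; ring
      rw [E, pow_succ]
      ring
    · obtain ⟨u, rfl⟩ : ∃ u, i = u + 1 := ⟨i - 1, by omega⟩
      obtain ⟨v, rfl⟩ : ∃ v, t = v + 1 := ⟨t - 1, by omega⟩
      have hj : j = u + v + 1 := by omega
      subst hj
      rw [if_pos (by omega), if_pos (by omega), if_pos (by omega), if_pos (by omega),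
        show x + (u + 1) - x = u + 1 by omega, show x + (u + 1) - 1 - x = u by omega,
        show y + (v + 1) - 1 = y + v by omega, show u + v + 1 + 1 = u + v + 2 by omega,
        DPf_cupc_mid q hq u v hb]
      have E : q ^ (((x + (u + 1) : ℕ) : ℤ) + (n + (u + v + 1) : ℕ) - ((y + v : ℕ) : ℤ)) *
          q ^ ((((y + v : ℕ) : ℤ) - y) * ((x : ℤ) + n - y)) =
          q ^ (2 * ((u : ℤ) + 1)) * q ^ ((((y + (v + 1) : ℕ) : ℤ) - y) * ((x : ℤ) + n - y)) := by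
        rw [← zpow_add₀ hq, ← zpow_add₀ hq]; congr 1; push_cast; ring
      calc _ = (q ^ (((x + (u + 1) : ℕ) : ℤ) + (n + (u + v + 1) : ℕ) - ((y + v : ℕ) : ℤ)) *
          q ^ ((((y + v : ℕ) : ℤ) - y) * ((x : ℤ) + n - y))) * cupc q (u + v + 1) (u + 1) -
          q⁻¹ * cupc q (u + v + 1) u *
          q ^ ((((y + (v + 1) : ℕ) : ℤ) - y) * ((x : ℤ) + n - y)) := by ring
        _ = _ := by rw [E]; ring

theorem DP_eq (q : ℂ) (n j : ℕ) (h : Gen q (n + j)) (x : I2 (n + j)) (y : I2 n) :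
    DP q n j x y = dpf q n j x.1 x.2 y.1 y.2 := by
  induction j with
  | zero =>
    show (1 : Matrix (I2 n) (I2 n) ℂ) x y = _
    obtain ⟨⟨p, hp⟩, ⟨s, hs⟩⟩ := x
    obtain ⟨⟨a, ha⟩, ⟨b, hb⟩⟩ := y
    unfold dpf
    by_cases h : p = a ∧ s = b
    · obtain ⟨rfl, rfl⟩ := h
      rw [if_pos ⟨by simp, le_rfl, le_rfl⟩]
      simp only [Nat.sub_self, DPf_cupc_zero q 0 (h.brf_ne (by omega))]
      simp
    · rw [if_neg (by show ¬ (p + s = a + b + 0 ∧ a ≤ p ∧ b ≤ s); omega), Matrix.one_apply_ne]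
      intro e
      apply h
      simpa using e
  | succ j ih =>
    have h' : Gen q (n + j) := h.mono (by omega)
    show (DD q (n + j) * DP q n j) x y = _
    rw [Matrix.mul_apply]
    have : ∀ z : I2 (n + j), DD q (n + j) x z * DP q n j z y =
        DD q (n + j) x z * (fun a b => dpf q n j a b y.1 y.2) z.1 z.2 := by
      intro z; rw [ih h' z]
    rw [Finset.sum_congr rfl (fun z _ => this z), DPf_sum_DD q (n + j)
      (fun a b => dpf q n j a b y.1 y.2)]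
    · exact DPf_dpf_succ q h.1 n j x.1 x.2 y.1 y.2 (fun k hk => h.brf_ne (by omega))
    · intro a b hab
      have := y.1.2
      have := y.2.2
      show dpf q n j a b y.1 y.2 = 0
      unfold dpf
      rw [if_neg (by omega)]
    · intro a b hab
      have := y.1.2
      have := y.2.2
      show dpf q n j a b y.1 y.2 = 0
      unfold dpf
      rw [if_neg (by omega)]

theorem CP_eq (q : ℂ) (n j : ℕ) (h : Gen q (n + j)) (x : I2 n) (y : I2 (n + j)) :
    CP q n j x y = gg q (n + j) y.1 y.2 / gg q n x.1 x.2 * dpf q n j y.1 y.2 x.1 x.2 := by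
  rw [DPf_CP q h.1 n j (fun k hk => h.brf_ne (by omega)) x y, DP_eq q n j h y x]

end Pool.Agent.H63.VC10
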