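import Pool.Agent.H63.VC7.Link

/-!
# Colored Jones polynomials of link diagrams

The colored Jones polynomial is defined here for every link diagram by the usual state sum
(Kirillov-Reshetikhin, Reshetikhin-Turaev): the diagram is cut by horizontal lines into elementary
pieces (minima, maxima and crossings), and the pieces are sent to operators between tensor powers of
the irreducible representation `V` of `U_q(sl_2)` of dimension `N + 1`.

`V` has the basis `e_0, …, e_N` with `H e_a = (N - 2 a) e_a`, `E e_a = [a] e_{a-1}`,
`F e_a = [N - a] e_{a+1}`, `[k] = {k} / {1}`, `{k} = q^k - q^{-k}`.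
-/

namespace Pool.Agent.H63.VC10

open Pool.Agent.H63.VC7

/-- `{n}! = {1} {2} ⋯ {n}`. -/
noncomputable def brf (q : ℂ) (n : ℕ) : ℂ := ∏ i ∈ Finset.range n, br q ((i : ℤ) + 1)

/-- The coefficient of `e_s ⊗ e_{N-s}` in the invariant vector of `V ⊗ V`, the value of a minimum. The
maximum sends `e_{N-s} ⊗ e_s` to the inverse of this number. -/
noncomputable def cupc (q : ℂ) (N s : ℕ) : ℂ :=
  (-1) ^ s * q ^ ((s : ℤ) * ((N : ℤ) - s - 1)) * (brf q N / (brf q s * brf q (N - s)))

/-- The coefficient of `e_c ⊗ e_d` in `R (e_a ⊗ e_b)`, where `R` is the composition of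
`(-1) ^ N q ^ (N (N + 2) / 2) q ^ (H ⊗ H / 2) ∑ q ^ (k (k - 1) / 2) {1} ^ k / [k]! E ^ k ⊗ F ^ k`, that
is, of the universal `R`-matrix times the framing factor, and the exchange of the two factors. -/
noncomputable def Rc (q : ℂ) (N a b c d : ℕ) : ℂ :=
  if a + b = c + d ∧ b ≤ c ∧ c ≤ N then
    (-1) ^ N * q ^ ((N : ℤ) * (N + 1) - N * (c + d) + 2 * c * d + (c - b).choose 2) *
      (brf q a * brf q (N - b) / (brf q d * brf q (c - b) * brf q (N - c)))
  else 0

/-- The coefficient of `e_c ⊗ e_d` in `R⁻¹ (e_a ⊗ e_b)`. -/
noncomputable def Ric (q : ℂ) (N a b c d : ℕ) : ℂ :=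
  if a + b = c + d ∧ c ≤ b ∧ d ≤ N then
    (-1) ^ N * (-1) ^ (b - c) *
      q ^ (-((N : ℤ) * (N + 1) - N * (a + b) + 2 * a * b + (b - c).choose 2)) *
      (brf q b * brf q (N - a) / (brf q c * brf q (b - c) * brf q (N - d)))
  else 0

/-- The elementary pieces of a link diagram, read from bottom to top: a minimum, a maximum, and
crossings of two neighbouring strands (`pos` is the crossing with the overcrossing strand going from
the left to the right, `neg` is the other one, up to a convention); `i` is the number of strands to
the left. -/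
inductive Piece
  | cup (i : ℕ)
  | cap (i : ℕ)
  | pos (i : ℕ)
  | neg (i : ℕ)

/-- The operator of a piece. A vector of `V ⊗ ⋯ ⊗ V` is given by its coordinates, a function of the
list of the indices of the basis vectors. -/
noncomputable def act (q : ℂ) (N : ℕ) : Piece → (List ℕ → ℂ) → List ℕ → ℂ
  | .cup i, ψ, l => match l.drop i with
    | a :: b :: r => if a + b = N then cupc q N a * ψ (l.take i ++ r) else 0
    | _ => 0
  | .cap i, ψ, l => ∑ a ∈ Finset.range (N + 1),
      (cupc q N (N - a))⁻¹ * ψ (l.take i ++ a :: (N - a) :: l.drop i)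
  | .pos i, ψ, l => match l.drop i with
    | c :: d :: r => ∑ a ∈ Finset.range (N + 1), ∑ b ∈ Finset.range (N + 1),
        Rc q N a b c d * ψ (l.take i ++ a :: b :: r)
    | _ => 0
  | .neg i, ψ, l => match l.drop i with
    | c :: d :: r => ∑ a ∈ Finset.range (N + 1), ∑ b ∈ Finset.range (N + 1),
        Ric q N a b c d * ψ (l.take i ++ a :: b :: r)
    | _ => 0

/-- The operator of a diagram (a list of pieces, beginning with the lowest one). -/
noncomputable def eval (q : ℂ) (N : ℕ) : List Piece → (List ℕ → ℂ) → List ℕ → ℂ
  | [], ψ => ψ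
  | x :: w, ψ => eval q N w (act q N x ψ)

/-- The value of a diagram of a link (without boundary points). -/
noncomputable def bracket (q : ℂ) (N : ℕ) (w : List Piece) : ℂ :=
  eval q N w (fun l => if l = [] then 1 else 0) []

/-- The colored Jones polynomial of a diagram `w`, equal to `1` for the unknot. The factor
`q ^ (N (N + 2) e)` removes the dependence on the framing: if `w` is a diagram of an oriented knot, then
the colored Jones polynomial of the knot is obtained for the integer `e = n - p`, where `p` and `n` are
the numbers of pieces `pos` and `neg` at which both strands are oriented upwards or both downwards. -/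
noncomputable def coloredJones (w : List Piece) (e : ℤ) (N : ℕ) (q : ℂ) : ℂ :=
  q ^ ((N : ℤ) * (N + 2) * e) * bracket q N w / ((-1) ^ N * (br q ((N : ℤ) + 1) / br q 1))

/-! ### Diagrams of arborescent links -/

/-- `a` half twists of the strands `i` and `i + 1`. -/
def twist (a : ℤ) (i : ℕ) : List Piece :=
  List.replicate a.natAbs (if 0 < a then Piece.pos i else Piece.neg i)

variable {m : ℕ}

/-- The tangle with four ends of the subtree at the node `v`, at the strands `i` and `i + 1`: the `a v`
half twists of the band `v`, and the tangles of the subtrees at the children of `v`, rotated by a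
quarter turn. The first argument is a bound for the height of the subtree. -/
def tangle (par : Fin m → Fin (m + 1)) (a : Fin (m + 1) → ℤ) : ℕ → Fin (m + 1) → ℕ → List Piece
  | 0, _, _ => []
  | k + 1, v, i => twist (a v) i ++ ((List.finRange m).filter (fun j => par j = v)).flatMap
      (fun j => Piece.cup i :: (tangle par a k j.succ (i + 1) ++ [Piece.cap (i + 2)]))

/-- The diagram of the arborescent link of a tree with nodes `0, …, m`, edges between `par j` and
`j + 1`, and weights `a i`: the closure of the tangle of the root `0`. -/
def diagram (par : Fin m → Fin (m + 1)) (a : Fin (m + 1) → ℤ) : List Piece :=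
  [Piece.cup 0, Piece.cup 1] ++ tangle par a (m + 1) 0 0 ++ [Piece.cap 1, Piece.cap 0]

end Pool.Agent.H63.VC10
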