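import Pool.Agent.H63.VC10.CDrel

/-! # The algebra of the operators `Oh n f` -/

namespace Pool.Agent.H63.VC10

open Pool.Agent.H63.VC7 Matrix

theorem E1_self (q : ℂ) (n : ℕ) : E1 q n n = 0 := by
  unfold E1
  rw [sub_self, br_zero]
  simp

theorem E1_ne {q : ℂ} {n k : ℕ} (h : Gen q n) (hk : k < n) : E1 q n k ≠ 0 := by
  unfold E1
  have h1 : br q ((n : ℤ) - k) ≠ 0 := h.ne (by omega) (by omega)
  have h2 : br q ((n : ℤ) + k + 1) ≠ 0 := h.ne (by omega) (by omega)
  have h3 : br q (n : ℤ) ≠ 0 := h.ne (by omega) (by omega)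
  exact neg_ne_zero.2 (div_ne_zero (mul_ne_zero h1 h2) (pow_ne_zero 2 h3))

theorem Oh_congr (q : ℂ) (n : ℕ) (f g : ℕ → ℂ) (h : ∀ k ≤ n, f k = g k) :
    Oh q n f = Oh q n g := by
  induction n generalizing f g with
  | zero => simp only [Oh]; rw [h 0 le_rfl]
  | succ n ih =>
    simp only [Oh]
    rw [h (n + 1) le_rfl, ih (dv q n f) (dv q n g)]
    intro k hk
    unfold dv
    rw [h k (by omega), h (n + 1) le_rfl]

theorem Oh_add (q : ℂ) (n : ℕ) (f g : ℕ → ℂ) :
    Oh q n (fun k => f k + g k) = Oh q n f + Oh q n g := by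
  induction n generalizing f g with
  | zero => simp only [Oh]; rw [add_smul]
  | succ n ih =>
    have e : dv q n (fun k => f k + g k) = fun k => dv q n f k + dv q n g k := by
      funext k
      unfold dv
      ring
    simp only [Oh]
    rw [e, ih, add_smul, Matrix.mul_add, Matrix.add_mul]
    abel

theorem Oh_smul (q : ℂ) (n : ℕ) (c : ℂ) (f : ℕ → ℂ) :
    Oh q n (fun k => c * f k) = c • Oh q n f := by
  induction n generalizing f with
  | zero => simp only [Oh]; rw [mul_smul]
  | succ n ih =>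
    have e : dv q n (fun k => c * f k) = fun k => c * dv q n f k := by
      funext k
      unfold dv
      ring
    simp only [Oh]
    rw [e, ih, smul_add, mul_smul, Matrix.mul_smul, Matrix.smul_mul]

theorem Oh_const (q : ℂ) (n : ℕ) (c : ℂ) : Oh q n (fun _ => c) = c • 1 := by
  induction n generalizing c with
  | zero => simp only [Oh]
  | succ n ih =>
    have e : dv q n (fun _ => c) = fun _ => 0 := by
      funext k
      unfold dv
      rw [sub_self, zero_div]
    simp only [Oh]
    rw [e, ih, zero_smul, Matrix.mul_zero, Matrix.zero_mul, add_zero]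

theorem Oh_sum (q : ℂ) (n : ℕ) {ι : Type*} (s : Finset ι) (F : ι → ℕ → ℂ) :
    Oh q n (fun k => ∑ i ∈ s, F i k) = ∑ i ∈ s, Oh q n (F i) := by
  classical
  induction s using Finset.induction_on with
  | empty =>
    simp only [Finset.sum_empty]
    rw [Oh_const, zero_smul]
  | insert a s ha ih =>
    simp only [Finset.sum_insert ha]
    rw [Oh_add, ih]

theorem OhMul_DC (q : ℂ) (n : ℕ) (h : Gen q (n + 1)) :
    DD q n * CC q n = Oh q (n + 1) (E1 q (n + 1)) := by
  have e : Oh q n (dv q n (E1 q (n + 1))) = Oh q n (fun _ => 1) := by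
    apply Oh_congr
    intro k hk
    unfold dv
    rw [E1_self, sub_zero, div_self (E1_ne h (by omega))]
  simp only [Oh]
  rw [E1_self, zero_smul, zero_add, e, Oh_const, one_smul, Matrix.mul_one]

/-- `CC n * DD n` is the operator with the eigenvalues `E1 (n + 1) k`. -/
theorem CD_Oh (q : ℂ) (n : ℕ) (h : Gen q (n + 1)) : CC q n * DD q n = Oh q n (E1 q (n + 1)) := by
  cases n with
  | zero =>
    rw [CD_zero q (h.mono (by omega))]
    simp only [Oh]
    congr 1
    unfold E1
    have h1 : br q 1 ≠ 0 := h.ne (by omega) (by omega)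
    push_cast
    norm_num
    field_simp
  | succ n =>
    rw [CD_succ q n h, OhMul_DC q n (h.mono (by omega)), ← Oh_smul, sub_eq_add_neg, ← neg_smul,
      ← Oh_const, ← Oh_add]
    apply Oh_congr
    intro k _
    have h1 : br q ((n : ℤ) + 1) ≠ 0 := h.ne (by omega) (by omega)
    have h2 : br q ((n : ℤ) + 2) ≠ 0 := h.ne (by omega) (by omega)
    have key := br_id q h.1 ((n : ℤ) + 2 - k) ((n : ℤ) + k + 3)
    rw [show (n : ℤ) + 2 - k - 1 = (n : ℤ) + 1 - k by ring,
      show (n : ℤ) + k + 3 - 1 = (n : ℤ) + k + 2 by ring,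
      show (n : ℤ) + 2 - k + ((n : ℤ) + k + 3) - 1 = 2 * (n : ℤ) + 4 by ring] at key
    unfold E1
    push_cast
    rw [show (n : ℤ) + 1 + k + 1 = (n : ℤ) + k + 2 by ring,
      show (n : ℤ) + 1 + 1 - k = (n : ℤ) + 2 - k by ring,
      show (n : ℤ) + 1 + 1 + k + 1 = (n : ℤ) + k + 3 by ring,
      show (n : ℤ) + 1 + 1 = (n : ℤ) + 2 by ring]
    field_simp
    linear_combination key

theorem Oh_mul (q : ℂ) (n : ℕ) (h : Gen q n) (f g : ℕ → ℂ) :
    Oh q n f * Oh q n g = Oh q n (fun k => f k * g k) := by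
  induction n generalizing f g with
  | zero =>
    simp only [Oh]
    rw [Matrix.smul_mul, Matrix.one_mul, smul_smul]
  | succ n ih =>
    have hn : Gen q n := h.mono (by omega)
    have e : Oh q n (dv q n (fun k => f k * g k)) =
        f (n + 1) • Oh q n (dv q n g) + g (n + 1) • Oh q n (dv q n f) +
          Oh q n (dv q n f) * (CC q n * DD q n) * Oh q n (dv q n g) := by
      rw [CD_Oh q n h, ih hn, ih hn, ← Oh_smul, ← Oh_smul, ← Oh_add, ← Oh_add]
      apply Oh_congr
      intro k hk
      have hE := E1_ne (k := k) h (by omega)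
      unfold dv
      field_simp
      ring
    simp only [Oh]
    rw [e]
    simp only [Matrix.add_mul, Matrix.mul_add, Matrix.smul_mul, Matrix.mul_smul, Matrix.one_mul,
      Matrix.mul_one, Matrix.mul_assoc]
    rw [smul_add, smul_smul, mul_comm (g (n + 1)) (f (n + 1))]
    abel

theorem Oh_pow (q : ℂ) (n : ℕ) (h : Gen q n) (f : ℕ → ℂ) (r : ℕ) :
    Oh q n f ^ r = Oh q n (fun k => f k ^ r) := by
  induction r with
  | zero =>
    simp only [pow_zero]
    rw [Oh_const, one_smul]
  | succ r ih =>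
    rw [pow_succ, ih, Oh_mul q n h]
    simp only [pow_succ]

end Pool.Agent.H63.VC10
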